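import Pool.Agent.Zk20.KS.Second

/-! # The dimension of the space of forms -/

set_option autoImplicit false

open Complex Matrix Filter Topology Module

namespace Pool.Agent.Zk20.KS

open Pool.Agent.N880.HQ (Hur S mem_S mat card_S_one)
open Pool.Agent.N880.HQ.Hur (conj nrm nrm_mul nrm_conj nrm_one)

variable {q : ℕ} [Fact q.Prime] {j : ℕ}

/-- forms before imposing the vanishing conditions -/
def UI (P : XY q) (j : ℕ) : Submodule ℂ (M2 q × Y j → ℂ) where
  carrier := {Φ | (∀ g a, g.det = 0 → Φ (g, a) = 0) ∧ (∀ g, Sy (fun a => Φ (g, a))) ∧ UInv P.act Φ}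
  zero_mem' := ⟨fun _ _ _ => rfl, fun _ => Sy.zero, fun _ _ => map_zero _⟩
  add_mem' := by
    rintro Φ Ψ ⟨a1, a2, a3⟩ ⟨b1, b2, b3⟩
    refine ⟨fun g a h => ?_, fun g => (a2 g).add (b2 g), fun u hu => ?_⟩
    · rw [Pi.add_apply, a1 g a h, b1 g a h, add_zero]
    · rw [map_add, a3 u hu, b3 u hu]
  smul_mem' := by
    rintro c Φ ⟨a1, a2, a3⟩
    refine ⟨fun g a h => ?_, fun g => (a2 g).smul c, fun u hu => ?_⟩
    · rw [Pi.smul_apply, a1 g a h, smul_zero]
    · rw [map_smul, a3 u hu]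

lemma mem_UI {P : XY q} {Φ : M2 q × Y j → ℂ} : Φ ∈ UI P j ↔ (∀ g a, g.det = 0 → Φ (g, a) = 0) ∧
    (∀ g, Sy (fun a => Φ (g, a))) ∧ UInv P.act Φ := Iff.rfl

/-- symmetrisation and restriction to the invertible matrices -/
noncomputable def Zs (q : ℕ) [Fact q.Prime] (j : ℕ) : (M2 q × Y j → ℂ) →ₗ[ℂ] (M2 q × Y j → ℂ) where
  toFun Φ p := if p.1.det = 0 then 0 else (1 / ((cls p.2).card : ℂ)) * ∑ b ∈ cls p.2, Φ (p.1, b)
  map_add' Φ Ψ := by
    funext p
    simp only [Pi.add_apply, Finset.sum_add_distrib, mul_add]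
    split_ifs <;> simp
  map_smul' c Φ := by
    funext p
    simp only [Pi.smul_apply, smul_eq_mul, RingHom.id_apply, ← Finset.mul_sum]
    split_ifs
    · simp
    · ring

lemma Zs_apply (Φ : M2 q × Y j → ℂ) (p : M2 q × Y j) : Zs q j Φ p =
    if p.1.det = 0 then 0 else (1 / ((cls p.2).card : ℂ)) * ∑ b ∈ cls p.2, Φ (p.1, b) := rfl

lemma Zs_supp (Φ : M2 q × Y j → ℂ) : ∀ g a, g.det = 0 → Zs q j Φ (g, a) = 0 := by
  intro g a hg
  rw [Zs_apply, if_pos hg]

lemma Zs_sy (Φ : M2 q × Y j → ℂ) : ∀ g, Sy (fun a => Zs q j Φ (g, a)) := by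
  intro g a b hab
  simp only [Zs_apply, cls_eq hab]

lemma Zs_self {Φ : M2 q × Y j → ℂ} (h1 : ∀ g a, g.det = 0 → Φ (g, a) = 0)
    (h2 : ∀ g, Sy (fun a => Φ (g, a))) : Zs q j Φ = Φ := by
  funext p
  rw [Zs_apply]
  split_ifs with h
  · exact (h1 p.1 p.2 h).symm
  · have e : ∀ b ∈ cls p.2, Φ (p.1, b) = Φ p := by
      intro b hb
      exact h2 p.1 b p.2 (mem_cls.1 hb)
    rw [Finset.sum_congr rfl e, Finset.sum_const, nsmul_eq_mul]
    have h0 : ((cls p.2).card : ℂ) ≠ 0 := by exact_mod_cast (cls_pos p.2).ne'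
    field_simp

/-- the projection onto `UI` -/
noncomputable def pU (P : XY q) (j : ℕ) : (M2 q × Y j → ℂ) →ₗ[ℂ] (M2 q × Y j → ℂ) :=
  T P.act j 1 ∘ₗ Zs q j

lemma pU_proj (P : XY q) : LinearMap.IsProj (UI P j) (pU P j) := by
  constructor
  · intro Φ
    change T P.act j 1 (Zs q j Φ) ∈ UI P j
    refine ⟨T_supp (Zs_supp Φ) 1, fun g => ?_, T_uinv 1 _⟩
    intro a b hab
    simp only
    rw [T_apply', T_apply']
    congr 1
    exact Finset.sum_congr rfl fun α _ => R_sy (Zs_sy Φ) α g a b hab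
  · intro Φ hΦ
    change T P.act j 1 (Zs q j Φ) = Φ
    rw [Zs_self hΦ.1 hΦ.2.1, T_one hΦ.2.2]

lemma trace_pU (P : XY q) (hq : 3 ≤ q) : LinearMap.trace ℂ (M2 q × Y j → ℂ) (pU P j) =
    (gl q : ℂ) * (dj j : ℂ) / 24 := by
  classical
  rw [LinearMap.trace_eq_matrix_trace ℂ (Pi.basisFun ℂ (M2 q × Y j))]
  unfold Matrix.trace
  simp only [Matrix.diag_apply, LinearMap.toMatrix_apply, Pi.basisFun_apply, Pi.basisFun_repr]
  have e1 : ∀ p : M2 q × Y j, pU P j (Pi.single p 1) p =
      if p.1.det = 0 then 0 else (1 / 24 : ℂ) * (1 / ((cls p.2).card : ℂ)) := by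
    rintro ⟨g, a⟩
    change T P.act j 1 (Zs q j (Pi.single (g, a) 1)) (g, a) = _
    split_ifs with hg
    · exact T_supp (Zs_supp _) 1 g a hg
    · have hg' : g.det ≠ 0 := hg
      rw [T_apply']
      congr 1
      rw [Finset.sum_eq_single (1 : Hur)]
      · rw [R_one, Zs_apply, if_neg hg']
        simp only
        rw [Finset.sum_eq_single a]
        · simp
        · intro b _ hb
          rw [Pi.single_apply, if_neg]
          intro h
          exact hb (Prod.ext_iff.1 h).2
        · intro h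
          exact absurd (mem_cls.2 rfl) h
      · intro u hu hu1
        rw [R_apply]
        refine Finset.sum_eq_zero fun b _ => ?_
        rw [Zs_apply]
        simp only
        rw [P.act_act]
        split_ifs
        · rw [mul_zero]
        · rw [Finset.sum_eq_zero, mul_zero, mul_zero]
          intro b' _
          rw [Pi.single_apply, if_neg]
          intro h
          apply hu1
          have h1 : g * P.m u = g * P.m 1 := by
            rw [P.m_one, mul_one]
            exact (Prod.ext_iff.1 h).1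
          have hq9 : (9 : ℤ) ≤ (q : ℤ) ^ 2 := by
            have : (3 : ℤ) ≤ q := by exact_mod_cast hq
            nlinarith
          refine small_inj P hg' ?_ ?_ h1
          · rw [mem_S.1 hu]; push_cast; linarith
          · rw [nrm_one]; linarith
      · intro h
        exfalso
        apply h
        rw [mem_S, nrm_one]
        rfl
  simp_rw [e1]
  rw [Fintype.sum_prod_type]
  have e2 : ∀ g : M2 q, ∑ a : Y j, (if (g, a).1.det = 0 then 0 else
      (1 / 24 : ℂ) * (1 / ((cls (g, a).2).card : ℂ))) =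
      if g.det ≠ 0 then (dj j : ℂ) / 24 else 0 := by
    intro g
    by_cases hg : g.det = 0
    · simp [hg]
    · rw [if_pos hg]
      simp only [if_neg hg]
      rw [← Finset.mul_sum]
      unfold dj
      push_cast
      ring
  simp_rw [e2]
  rw [← Finset.sum_filter, Finset.sum_const, nsmul_eq_mul]
  unfold gl
  ring

lemma finrank_UI (P : XY q) (hq : 3 ≤ q) : (finrank ℂ (UI P j) : ℝ) = (gl q : ℝ) * ((j : ℝ) + 1) / 24 := by
  have h := trace_pU (j := j) P hq
  rw [(pU_proj P).trace, dj_eq] at h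
  exact_mod_cast h

/-- the vectors up to scalars -/
def vo (o : Option (ZMod q)) : Fin 2 → ZMod q := match o with
  | none => ![0, 1]
  | some c => ![1, c]

lemma exists_vo {v : Fin 2 → ZMod q} (hv : v ≠ 0) : ∃ (o : Option (ZMod q)) (t : ZMod q), t ≠ 0 ∧
    v = t • vo o := by
  by_cases h0 : v 0 = 0
  · refine ⟨none, v 1, ?_, ?_⟩
    · intro h1
      apply hv
      funext i
      fin_cases i
      · exact h0
      · exact h1
    · funext i
      fin_cases i
      · simp [vo, h0]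
      · simp [vo]
  · refine ⟨some (v 1 / v 0), v 0, h0, ?_⟩
    funext i
    fin_cases i
    · simp [vo]
    · simp only [vo, Fin.mk_one, Pi.smul_apply, cons_val_one, cons_val_fin_one, smul_eq_mul]
      field_simp

open Classical in
/-- the constraints -/
noncomputable def cns (q : ℕ) [Fact q.Prime] (j : ℕ) : (M2 q × Y j → ℂ) →ₗ[ℂ]
    (((Option (ZMod q) × (Fin 2 → ZMod q) × Y j) ⊕ (ZMod q × Y j)) → ℂ) where
  toFun Φ c := match c with
    | Sum.inl (o, w, a) => ∑ g : M2 q, (if vo o ᵥ* g = w ∧ w ≠ 0 then Φ (g, a) else 0)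
    | Sum.inr (d, a) => ∑ g : M2 q, (if g.det = d then Φ (g, a) else 0)
  map_add' Φ Ψ := by
    funext c
    rcases c with ⟨o, w, a⟩ | ⟨d, a⟩
    · exact sum_ite_add _ Φ Ψ a
    · exact sum_ite_add _ Φ Ψ a
  map_smul' t Φ := by
    funext c
    rcases c with ⟨o, w, a⟩ | ⟨d, a⟩
    · exact sum_ite_smul _ t Φ a
    · exact sum_ite_smul _ t Φ a

/-- lower bound for the dimension of the space of forms -/
theorem finrank_A0 (P : XY q) (hq : 3 ≤ q) : (gl q : ℝ) * ((j : ℝ) + 1) / 24 ≤
    finrank ℂ (A0 P j) + ((q + 1) * q ^ 2 + q) * 2 ^ j := by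
  classical
  set f : UI P j →ₗ[ℂ] (((Option (ZMod q) × (Fin 2 → ZMod q) × Y j) ⊕ (ZMod q × Y j)) → ℂ) :=
    cns q j ∘ₗ (UI P j).subtype with hf
  have hker : Submodule.map (UI P j).subtype (LinearMap.ker f) ≤ A0 P j := by
    intro Φ hΦ
    rw [Submodule.mem_map] at hΦ
    obtain ⟨ψ, hψ, rfl⟩ := hΦ
    rw [LinearMap.mem_ker] at hψ
    refine ⟨ψ.2.1, ψ.2.2.1, ψ.2.2.2, ?_, ?_⟩
    · intro v w a hw
      by_cases hv : v = 0
      · subst hv
        refine Finset.sum_eq_zero fun g _ => ?_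
        rw [if_neg]
        rw [Matrix.zero_vecMul]
        exact fun h => hw h.symm
      · obtain ⟨o, t, ht, rfl⟩ := exists_vo hv
        have h := congrFun hψ (Sum.inl (o, t⁻¹ • w, a))
        change ∑ g : M2 q, (if vo o ᵥ* g = t⁻¹ • w ∧ t⁻¹ • w ≠ 0 then
          (ψ : M2 q × Y j → ℂ) (g, a) else 0) = 0 at h
        refine (Finset.sum_congr rfl fun g _ => ?_).trans h
        have hiff : (t • vo o) ᵥ* g = w ↔ (vo o ᵥ* g = t⁻¹ • w ∧ t⁻¹ • w ≠ 0) := by
          rw [Matrix.smul_vecMul]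
          constructor
          · intro h
            refine ⟨?_, smul_ne_zero (inv_ne_zero ht) hw⟩
            rw [← h, smul_smul, inv_mul_cancel₀ ht, one_smul]
          · rintro ⟨h, -⟩
            rw [h, smul_smul, mul_inv_cancel₀ ht, one_smul]
        by_cases h1 : (t • vo o) ᵥ* g = w
        · rw [if_pos h1, if_pos (hiff.1 h1)]
          rfl
        · rw [if_neg h1, if_neg (fun h => h1 (hiff.2 h))]
    · intro _ d a
      exact congrFun hψ (Sum.inr (d, a))
  have h1 : finrank ℂ (LinearMap.ker f) ≤ finrank ℂ (A0 P j) := by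
    have := Submodule.finrank_mono hker
    rwa [Submodule.finrank_map_subtype_eq] at this
  have h2 := LinearMap.finrank_range_add_finrank_ker f
  have h3 : finrank ℂ (LinearMap.range f) ≤ ((q + 1) * q ^ 2 + q) * 2 ^ j := by
    refine (Submodule.finrank_le _).trans (le_of_eq ?_)
    rw [Module.finrank_fintype_fun_eq_card, Fintype.card_sum, Fintype.card_prod, Fintype.card_prod,
      Fintype.card_prod, Fintype.card_option, Fintype.card_fun, Fintype.card_fun, ZMod.card,
      Fintype.card_fin, Fintype.card_fin]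
    ring
  rw [← finrank_UI P hq]
  have h4 : finrank ℂ (UI P j) ≤ finrank ℂ (A0 P j) + ((q + 1) * q ^ 2 + q) * 2 ^ j := by omega
  exact_mod_cast h4

/-- the number of invertible matrices -/
theorem gl_eq (q : ℕ) [Fact q.Prime] : gl q = (q ^ 2 - 1) * (q ^ 2 - q) := by
  classical
  have h1 := Matrix.card_GL_field (𝔽 := ZMod q) 2
  rw [ZMod.card, Fin.prod_univ_two] at h1
  simp only [Fin.val_zero, pow_zero, Fin.val_one, pow_one] at h1
  rw [← h1]
  unfold gl
  rw [← Fintype.card_subtype, ← Nat.card_eq_fintype_card]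
  refine Nat.card_congr (Equiv.ofBijective (fun g => Matrix.GeneralLinearGroup.mkOfDetNeZero g.1 g.2)
    ⟨?_, ?_⟩)
  · intro g h hgh
    apply Subtype.ext
    exact congrArg (fun z : GL (Fin 2) (ZMod q) => (z : M2 q)) hgh
  · intro z
    refine ⟨⟨(z : M2 q), ?_⟩, ?_⟩
    · have := (Matrix.isUnit_iff_isUnit_det (z : M2 q)).1 z.isUnit
      exact this.ne_zero
    · apply Units.ext
      rfl

end Pool.Agent.Zk20.KS
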