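import Pool.Agent.Zk20.KS.Theta
import Pool.Agent.N880.HQ.Eig
import Pool.Agent.N880.HQ.EigFE

/-! # Joint eigenbasis; multiplicativity of the eigenvalues, bounds -/

set_option autoImplicit false

open Complex Matrix Filter Topology Module

namespace Pool.Agent.Zk20.KS

open Pool.Agent.N880.HQ (Hur S mem_S mat sy pi2 joint_basis card_le card_pow_le eP conj_mem_S)
open Pool.Agent.N880.HQ.Hur (conj nrm nrm_mul nrm_conj conj_mul_self)

variable {q : ℕ} [Fact q.Prime] {j : ℕ}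

lemma XY.q_ne_two (P : XY q) : q ≠ 2 := by
  rintro rfl
  exact P.h2 rfl

/-- the joint eigenbasis -/
theorem exists_basis (P : XY q) : ∃ (b : Fin (finrank ℂ (A0 P j)) → (M2 q × Y j → ℂ))
    (lam : Fin (finrank ℂ (A0 P j)) → ℕ → ℂ) (ch : Fin (finrank ℂ (A0 P j)) → (ZMod q)ˣ → ℂ),
    (∀ k, b k ∈ A0 P j) ∧
    (∀ k l, ∑ v, b k v * (starRingEnd ℂ) (b l v) = if k = l then 1 else 0) ∧
    (∀ k n, T P.act j n (b k) = lam k n • b k) ∧
    (∀ k n, ((n : ℕ) : ZMod q) ≠ 0 → Ts P j n (b k) = (starRingEnd ℂ) (lam k n) • b k) ∧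
    (∀ k (c : (ZMod q)ˣ), Dc j (c : ZMod q) (b k) = ch k c • b k) ∧
    (∀ k (c : (ZMod q)ˣ), Dc j ((c⁻¹ : (ZMod q)ˣ) : ZMod q) (b k) = (starRingEnd ℂ) (ch k c) • b k) := by
  classical
  set ι := {n : ℕ // ((n : ℕ) : ZMod q) ≠ 0} ⊕ (ZMod q)ˣ with hι
  have hpos : ∀ n : {n : ℕ // ((n : ℕ) : ZMod q) ≠ 0}, 0 < (n : ℕ) := by
    rintro ⟨n, hn⟩
    rcases Nat.eq_zero_or_pos n with rfl | h
    · exact absurd Nat.cast_zero hn
    · exact h
  set F : ι → (M2 q × Y j → ℂ) →ₗ[ℂ] (M2 q × Y j → ℂ) := fun k => match k with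
    | Sum.inl n => T P.act j n
    | Sum.inr c => Dc j (c : ZMod q) with hF
  set Fs : ι → (M2 q × Y j → ℂ) →ₗ[ℂ] (M2 q × Y j → ℂ) := fun k => match k with
    | Sum.inl n => Ts P j n
    | Sum.inr c => Dc j ((c⁻¹ : (ZMod q)ˣ) : ZMod q) with hFs
  have hTc : ∀ m n : {n : ℕ // ((n : ℕ) : ZMod q) ≠ 0}, ∀ Φ ∈ A0 P j,
      T P.act j (m : ℕ) (T P.act j (n : ℕ) Φ) = T P.act j (n : ℕ) (T P.act j (m : ℕ) Φ) :=
    fun m n Φ h => T_comm (hpos m) (hpos n) (A0.uinv h)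
  have hDD : ∀ (c d : ZMod q) (Φ : M2 q × Y j → ℂ), Dc j c (Dc j d Φ) = Dc j d (Dc j c Φ) := by
    intro c d Φ
    rw [Dc_Dc, Dc_Dc, mul_comm]
  have hjb := joint_basis F Fs ?_ (A0 P j) ?_ ?_ ?_ ?_ ?_
  · obtain ⟨b, hb1, hb2, hb3⟩ := hjb
    choose c hc1 hc2 using hb3
    refine ⟨b, fun k n => if h : ((n : ℕ) : ZMod q) ≠ 0 then c (Sum.inl ⟨n, h⟩) k else 0,
      fun k u => c (Sum.inr u) k, hb1, hb2, ?_, ?_, fun k u => hc1 (Sum.inr u) k,
      fun k u => hc2 (Sum.inr u) k⟩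
    · intro k n
      change T P.act j n (b k) = (if h : ((n : ℕ) : ZMod q) ≠ 0 then c (Sum.inl ⟨n, h⟩) k else 0) • b k
      by_cases h : ((n : ℕ) : ZMod q) ≠ 0
      · rw [dif_pos h]
        exact hc1 (Sum.inl ⟨n, h⟩) k
      · rw [dif_neg h, zero_smul]
        push Not at h
        exact T_zero (A0.supp (hb1 k)) h
    · intro k n h
      change Ts P j n (b k) = (starRingEnd ℂ)
        (if h : ((n : ℕ) : ZMod q) ≠ 0 then c (Sum.inl ⟨n, h⟩) k else 0) • b k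
      rw [dif_pos h]
      exact hc2 (Sum.inl ⟨n, h⟩) k
  · rintro (n | c) Φ Ψ
    · exact T_adj P n.2 Φ Ψ
    · have := Dc_adj (j := j) c.ne_zero Φ Ψ
      rwa [← Units.val_inv_eq_inv_val] at this
  · rintro (n | c) Φ h
    · exact T_mem _ h
    · exact Dc_mem c.ne_zero h
  · rintro (n | c) Φ h
    · exact Ts_mem n.2 h
    · exact Dc_mem (Units.ne_zero _) h
  · rintro (m | c) (n | d) Φ h
    · exact hTc m n Φ h
    · exact (Dc_T P _ _ _).symm
    · exact Dc_T P _ _ _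
    · exact hDD _ _ _
  · rintro (m | c) (n | d) Φ h
    · change T P.act j (m : ℕ) (Ts P j (n : ℕ) Φ) = Ts P j (n : ℕ) (T P.act j (m : ℕ) Φ)
      rw [Ts_apply, Ts_apply, ← Dc_T, hTc m n Φ h]
    · exact (Dc_T P _ _ _).symm
    · change Dc j _ (Ts P j (n : ℕ) Φ) = Ts P j (n : ℕ) (Dc j _ Φ)
      rw [Ts_apply, Ts_apply, hDD _ _ (T P.act j _ Φ), Dc_T P _ _ Φ]
    · exact hDD _ _ _
  · rintro (m | c) (n | d) Φ h
    · change Ts P j (m : ℕ) (Ts P j (n : ℕ) Φ) = Ts P j (n : ℕ) (Ts P j (m : ℕ) Φ)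
      simp only [Ts_apply]
      rw [← Dc_T, ← Dc_T, hTc m n Φ h, hDD]
    · change Ts P j (m : ℕ) (Dc j _ Φ) = Dc j _ (Ts P j (m : ℕ) Φ)
      rw [Ts_apply, Ts_apply, hDD _ _ (T P.act j _ Φ), Dc_T P _ _ Φ]
    · change Dc j _ (Ts P j (n : ℕ) Φ) = Ts P j (n : ℕ) (Dc j _ Φ)
      rw [Ts_apply, Ts_apply, hDD _ _ (T P.act j _ Φ), Dc_T P _ _ Φ]
    · exact hDD _ _ _

/-- a joint eigenfunction -/
structure Eig (P : XY q) (j : ℕ) (b : M2 q × Y j → ℂ) (lam : ℕ → ℂ) (ch : (ZMod q)ˣ → ℂ) : Prop where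
  mem : b ∈ A0 P j
  ne : b ≠ 0
  T : ∀ n, T P.act j n b = lam n • b
  Ts : ∀ n, ((n : ℕ) : ZMod q) ≠ 0 → Ts P j n b = (starRingEnd ℂ) (lam n) • b
  D : ∀ c : (ZMod q)ˣ, Dc j (c : ZMod q) b = ch c • b
  D' : ∀ c : (ZMod q)ˣ, Dc j ((c⁻¹ : (ZMod q)ˣ) : ZMod q) b = (starRingEnd ℂ) (ch c) • b

/-- the eigenvalues in the normalisation of weight two -/
noncomputable def ln (j : ℕ) (lam : ℕ → ℂ) (n : ℕ) : ℂ := lam n / (((n : ℝ) ^ ((j : ℝ) / 2) : ℝ) : ℂ)

lemma npow_pos {n : ℕ} (hn : 0 < n) (j : ℕ) : 0 < (n : ℝ) ^ ((j : ℝ) / 2) := by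
  have : (0 : ℝ) < n := by exact_mod_cast hn
  positivity

lemma npow_sq (n j : ℕ) : ((n : ℝ) ^ ((j : ℝ) / 2)) ^ 2 = (n : ℝ) ^ j := by
  rw [← Real.rpow_natCast, ← Real.rpow_mul (Nat.cast_nonneg n), ← Real.rpow_natCast]
  congr 1
  push_cast
  ring

section
variable {P : XY q} {b : M2 q × Y j → ℂ} {lam : ℕ → ℂ} {ch : (ZMod q)ˣ → ℂ}

lemma Eig.exists_ne (E : Eig P j b lam ch) : ∃ v, b v ≠ 0 := by
  by_contra h
  push Not at h
  exact E.ne (funext h)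

lemma smul_eq_zero' {c : ℂ} (hb : ∃ v, b v ≠ 0) (h : c • b = 0) : c = 0 := by
  obtain ⟨v, hv⟩ := hb
  have := congrFun h v
  simpa [hv] using this

lemma smul_inj {c d : ℂ} (hb : ∃ v, b v ≠ 0) (h : c • b = d • b) : c = d := by
  obtain ⟨v, hv⟩ := hb
  have := congrFun h v
  simp only [Pi.smul_apply, smul_eq_mul] at this
  exact mul_right_cancel₀ hv this

lemma Eig.ch_norm (E : Eig P j b lam ch) (c : (ZMod q)ˣ) : ‖ch c‖ = 1 := by
  have h1 : Dc j ((c⁻¹ : (ZMod q)ˣ) : ZMod q) (Dc j (c : ZMod q) b) = b := by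
    rw [Dc_Dc, Units.inv_mul, Dc_one]
  rw [E.D, map_smul, E.D', smul_smul] at h1
  have h3 : (ch c * (starRingEnd ℂ) (ch c)) • b = (1 : ℂ) • b := by rw [h1, one_smul]
  have h4 := smul_inj E.exists_ne h3
  rw [Complex.mul_conj, ← Complex.ofReal_one, Complex.ofReal_inj, Complex.normSq_eq_norm_sq] at h4
  have h5 := norm_nonneg (ch c)
  nlinarith

lemma Eig.eP_norm (E : Eig P j b lam ch) (p : ℕ) : ‖eP ch p‖ ≤ p := by
  unfold eP
  split_ifs
  · simp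
  · simp
  · rw [norm_mul, E.ch_norm, mul_one, Complex.norm_natCast]

lemma Eig.lam_q (E : Eig P j b lam ch) {n : ℕ} (hn : ((n : ℕ) : ZMod q) = 0) : lam n = 0 := by
  have h := E.T n
  rw [T_zero (A0.supp E.mem) hn] at h
  exact smul_eq_zero' E.exists_ne h.symm

lemma Eig.lam_zero (E : Eig P j b lam ch) : lam 0 = 0 := E.lam_q Nat.cast_zero

lemma Eig.lam_one (E : Eig P j b lam ch) : lam 1 = 1 := by
  have h := E.T 1
  rw [T_one (A0.uinv E.mem)] at h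
  have : (1 : ℂ) • b = lam 1 • b := by rw [← h, one_smul]
  exact (smul_inj E.exists_ne this).symm

/-- the norm of `R_α b` -/
lemma R_norm (P : XY q) {n : ℕ} (hn : ((n : ℕ) : ZMod q) ≠ 0) {α : Hur} (hα : α ∈ S n)
    (Φ : M2 q × Y j → ℂ) : ∑ p, ‖R P.act j α Φ p‖ ^ 2 = (n : ℝ) ^ j * ∑ p, ‖Φ p‖ ^ 2 := by
  have h1 : (nrm α : ℤ) = n := mem_S.1 hα
  have h3 : ((nrm α : ℤ) : ZMod q) = (n : ZMod q) := by rw [h1]; push_cast; rfl
  have h := R_adj P (j := j) (by rw [h3]; exact hn) Φ (R P.act j α Φ)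
  have e1 : ∀ Ψ : M2 q × Y j → ℂ, ∑ p, Ψ p * (starRingEnd ℂ) (Ψ p) =
      ((∑ p, ‖Ψ p‖ ^ 2 : ℝ) : ℂ) := by
    intro Ψ
    push_cast
    refine Finset.sum_congr rfl fun p _ => ?_
    rw [Complex.mul_conj, Complex.normSq_eq_norm_sq]
    push_cast
    rfl
  rw [e1, R_R, conj_mul_self, h1] at h
  have e3 : R P.act j ((n : ℤ) : Hur) Φ = ((n : ℂ) ^ j) • Dc j (n : ZMod q) Φ := by
    have := R_nat_mul (A := P.act) (j := j) n 1 Φ
    rw [mul_one, R_one, Dn_eq] at this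
    rw [← this]
    congr 1
  have e4 : Dc j (((nrm α : ℤ) : ZMod q)⁻¹) (R P.act j ((n : ℤ) : Hur) Φ) = ((n : ℂ) ^ j) • Φ := by
    rw [e3, map_smul, Dc_Dc, h3, inv_mul_cancel₀ hn, Dc_one]
  rw [h1] at e4
  rw [e4] at h
  have e5 : ∑ p, Φ p * (starRingEnd ℂ) ((((n : ℂ) ^ j) • Φ) p) =
      (((n : ℝ) ^ j * ∑ p, ‖Φ p‖ ^ 2 : ℝ) : ℂ) := by
    have : ∀ p, Φ p * (starRingEnd ℂ) ((((n : ℂ) ^ j) • Φ) p) =
        (n : ℂ) ^ j * (Φ p * (starRingEnd ℂ) (Φ p)) := by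
      intro p
      rw [Pi.smul_apply, smul_eq_mul, map_mul, map_pow, map_natCast]
      ring
    simp_rw [this]
    rw [← Finset.mul_sum, e1]
    push_cast
    rfl
  rw [e5] at h
  exact_mod_cast h

/-- the trivial bound -/
lemma Eig.lam_card (E : Eig P j b lam ch) (n : ℕ) :
    ‖lam n‖ ≤ (n : ℝ) ^ ((j : ℝ) / 2) * ((S n).card / 24) := by
  by_cases hn : ((n : ℕ) : ZMod q) = 0
  · rw [E.lam_q hn, norm_zero]
    positivity
  set B : ℝ := ∑ p, ‖b p‖ ^ 2 with hB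
  have hB0 : 0 < B := by
    obtain ⟨w, hw⟩ := E.exists_ne
    have h0 : 0 < ‖b w‖ ^ 2 := by
      have := norm_pos_iff.2 hw
      positivity
    exact h0.trans_le (Finset.single_le_sum (f := fun p => ‖b p‖ ^ 2) (fun _ _ => by positivity)
      (Finset.mem_univ w))
  have h1 : ‖lam n‖ ^ 2 * B ≤ ((S n).card / 24) ^ 2 * ((n : ℝ) ^ j * B) := by
    have e1 : ∀ p, ‖lam n‖ ^ 2 * ‖b p‖ ^ 2 ≤ (1 / 24) ^ 2 * ((S n).card *
        ∑ α ∈ S n, ‖R P.act j α b p‖ ^ 2) := by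
      intro p
      have h := congrFun (E.T n) p
      rw [T_apply', Pi.smul_apply, smul_eq_mul] at h
      have h3 := congrArg norm h
      rw [norm_mul, norm_mul] at h3
      have h4 : ‖(1 / 24 : ℂ)‖ = 1 / 24 := by norm_num
      rw [h4] at h3
      rw [← mul_pow, ← h3, mul_pow]
      apply mul_le_mul_of_nonneg_left _ (by positivity)
      calc ‖∑ α ∈ S n, R P.act j α b p‖ ^ 2 ≤ (∑ α ∈ S n, ‖R P.act j α b p‖) ^ 2 :=
            pow_le_pow_left₀ (norm_nonneg _) (norm_sum_le _ _) 2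
        _ ≤ _ := sq_sum_le_card_mul_sum_sq
    have e3 := Finset.sum_le_sum fun p (_ : p ∈ Finset.univ) => e1 p
    rw [← Finset.mul_sum, ← Finset.mul_sum, ← Finset.mul_sum, Finset.sum_comm,
      Finset.sum_congr rfl fun α hα => R_norm P hn hα b, Finset.sum_const, nsmul_eq_mul] at e3
    refine e3.trans (le_of_eq ?_)
    ring
  have h2 : ‖lam n‖ ^ 2 ≤ ((n : ℝ) ^ ((j : ℝ) / 2) * ((S n).card / 24)) ^ 2 := by
    rw [mul_pow, npow_sq]
    refine le_of_mul_le_mul_right ?_ hB0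
    calc _ ≤ _ := h1
      _ = _ := by ring
  exact (pow_le_pow_iff_left₀ (norm_nonneg _) (by positivity) two_ne_zero).1 h2

lemma Eig.ln_card (E : Eig P j b lam ch) (n : ℕ) : ‖ln j lam n‖ ≤ (S n).card / 24 := by
  unfold ln
  rcases Nat.eq_zero_or_pos n with rfl | hn
  · rw [E.lam_zero, zero_div, norm_zero]
    positivity
  · have hp := npow_pos hn j
    rw [norm_div, Complex.norm_real, Real.norm_eq_abs, abs_of_pos hp, div_le_iff₀ hp, mul_comm]
    exact E.lam_card n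

lemma Eig.ln_le (E : Eig P j b lam ch) (n : ℕ) : ‖ln j lam n‖ ≤ 1 * (n : ℝ) ^ (2 : ℝ) := by
  rcases Nat.eq_zero_or_pos n with rfl | hn
  · unfold ln
    rw [E.lam_zero, zero_div, norm_zero]; positivity
  · refine (E.ln_card n).trans ?_
    have : ((S n).card : ℝ) ≤ 24 * (n : ℝ) ^ 2 := by exact_mod_cast card_le hn
    rw [one_mul, Real.rpow_two]
    linarith

lemma Eig.lam_le (E : Eig P j b lam ch) (n : ℕ) : ‖lam n‖ ≤ 1 * (n : ℝ) ^ (2 + (j : ℝ) / 2) := by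
  rcases Nat.eq_zero_or_pos n with rfl | hn
  · rw [E.lam_zero, norm_zero]; positivity
  · refine (E.lam_card n).trans ?_
    have hn0 : (0 : ℝ) < n := by exact_mod_cast hn
    have : ((S n).card : ℝ) ≤ 24 * (n : ℝ) ^ 2 := by exact_mod_cast card_le hn
    rw [one_mul, Real.rpow_add hn0, Real.rpow_two, mul_comm]
    have := npow_pos hn j
    gcongr
    linarith

lemma Eig.lam_mul (E : Eig P j b lam ch) (m n : ℕ) (hc : Nat.Coprime m n) :
    lam (m * n) = lam m * lam n := by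
  rcases Nat.eq_zero_or_pos m with rfl | hm
  · rw [Nat.coprime_zero_left] at hc
    subst hc
    rw [mul_one, E.lam_one, mul_one]
  rcases Nat.eq_zero_or_pos n with rfl | hn
  · rw [Nat.coprime_zero_right] at hc
    subst hc
    rw [one_mul, E.lam_one, one_mul]
  have h := T_mul (A := P.act) (j := j) hm hn hc b
  rw [E.T n, map_smul, E.T m, E.T (m * n), smul_smul] at h
  have := smul_inj E.exists_ne h
  rw [← this, mul_comm]

open Classical in
/-- the Hecke recursion -/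
lemma Eig.lam_pow (E : Eig P j b lam ch) (p k : ℕ) (hp : p.Prime) :
    lam (p ^ (k + 2)) = lam p * lam (p ^ (k + 1)) - (p : ℂ) ^ j * eP ch p * lam (p ^ k) := by
  by_cases hp2 : p = 2
  · subst hp2
    have h := T_two_comp (A := P.act) (j := j) (2 ^ (k + 1)) b
    rw [← pow_succ', E.T, map_smul, E.T 2, E.T, smul_smul] at h
    have := smul_inj E.exists_ne h
    rw [show k + 2 = k + 1 + 1 from rfl, ← this]
    unfold eP
    simp only [if_true]
    ring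
  · have h := T_prime (A := P.act) (j := j) hp hp2 k b
    rw [E.T (p ^ (k + 1)), map_smul, E.T p, E.T (p ^ (k + 2)), E.T (p ^ k), map_smul, smul_smul,
      Dn_eq] at h
    have hD : lam (p ^ k) • Dc j (p : ZMod q) b = (lam (p ^ k) * (if h : (p : ZMod q) = 0 then (0 : ℂ) else
        ch (Units.mk0 (p : ZMod q) h))) • b := by
      split_ifs with h0
      · -- p = q
        have hz : Dc j (0 : ZMod q) b = 0 := by
          funext v
          rw [Dc_apply, zero_smul]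
          exact A0.supp E.mem _ _ (by simp)
        rw [h0, hz, mul_zero, zero_smul, smul_zero]
      · rw [mul_smul]
        congr 1
        exact E.D (Units.mk0 (p : ZMod q) h0)
    rw [hD, smul_smul, ← add_smul] at h
    have h5 := smul_inj E.exists_ne h
    unfold eP
    rw [if_neg hp2]
    split_ifs with h0
    · rw [dif_pos h0] at h5
      linear_combination -h5
    · rw [dif_neg h0] at h5
      linear_combination -h5

lemma npow_mul (m n j : ℕ) : (((m * n : ℕ) : ℝ) ^ ((j : ℝ) / 2) : ℝ) =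
    (m : ℝ) ^ ((j : ℝ) / 2) * (n : ℝ) ^ ((j : ℝ) / 2) := by
  push_cast
  exact Real.mul_rpow (Nat.cast_nonneg m) (Nat.cast_nonneg n)

lemma Eig.hecke (E : Eig P j b lam ch) : Pool.Agent.N7.HeckeId.HeckeC (eP ch) (ln j lam) where
  zero := by unfold ln; rw [E.lam_zero, zero_div]
  one := by unfold ln; rw [E.lam_one]; simp
  mul := by
    intro m n hc
    unfold ln
    rw [E.lam_mul m n hc, npow_mul]
    push_cast
    rw [mul_div_mul_comm]
  pow := by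
    intro p k hp
    unfold ln
    rw [E.lam_pow p k hp]
    have hp0 : (0 : ℝ) < p := by exact_mod_cast hp.pos
    set c : ℝ := (p : ℝ) ^ ((j : ℝ) / 2) with hc
    have hc0 : 0 < c := npow_pos hp.pos j
    have hck : ∀ i : ℕ, (((p ^ i : ℕ) : ℝ) ^ ((j : ℝ) / 2) : ℝ) = c ^ i := by
      intro i
      rw [hc]
      push_cast
      rw [← Real.rpow_natCast (p : ℝ) i, ← Real.rpow_mul hp0.le, mul_comm, Real.rpow_mul hp0.le,
        Real.rpow_natCast]
    have hc2 : (p : ℂ) ^ j = (c : ℂ) ^ 2 := by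
      have := npow_sq p j
      rw [← hc] at this
      have h3 : ((c ^ 2 : ℝ) : ℂ) = (((p : ℝ) ^ j : ℝ) : ℂ) := by rw [this]
      push_cast at h3
      exact h3.symm
    rw [hck, hck, hck]
    have hcC : (c : ℂ) ≠ 0 := by exact_mod_cast hc0.ne'
    rw [hc2]
    push_cast
    field_simp
    ring

end

end Pool.Agent.Zk20.KS
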