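import Pool.Agent.Zk20.KS.Eig
import Pool.Agent.W108.TW.Mellin

/-! # The functional equation of the L-function of an eigenfunction -/

set_option autoImplicit false

open Complex Matrix Filter Topology Module

namespace Pool.Agent.Zk20.KS

open Pool.Agent.N880.HQ (Hur S mem_S mat sy pi2 fth fth_conj coeff_zero)
open Pool.Agent.N880.HQ.Hur (conj nrm nrm_mul nrm_conj conj_mul_self)

variable {q : ℕ} [Fact q.Prime] {j : ℕ}
variable {P : XY q} {b : M2 q × Y j → ℂ} {lam : ℕ → ℂ} {ch : (ZMod q)ˣ → ℂ}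

lemma Th_eig (hq : Odd q) {t : ℝ} (ht : 0 < t) {Φ : M2 q × Y j → ℂ} {μ : ℕ → ℂ}
    (hΦ : ∀ n, T P.act j n Φ = μ n • Φ) (v : M2 q × Y j) :
    Th P Φ v t = 24 * fth μ t * Φ v := by
  rw [← (Th_hasSum (P := P) hq ht Φ v).tsum_eq]
  unfold fth
  rw [← tsum_mul_left, ← tsum_mul_right]
  refine tsum_congr fun n => ?_
  rw [hΦ n, Pi.smul_apply, smul_eq_mul]
  ring

lemma Eig.T_FT (E : Eig P j b lam ch) (n : ℕ) :
    KS.T P.act j n (FT j b) = (starRingEnd ℂ) (lam n) • FT j b := by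
  by_cases hn : ((n : ℕ) : ZMod q) = 0
  · rw [T_zero (FT_supp E.mem) hn, E.lam_q hn, map_zero, zero_smul]
  · rw [KS.T_FT P hn, ← Ts_apply, E.Ts n hn, map_smul]

/-- the functional equation of the theta series of the eigenvalues -/
lemma Eig.fe (E : Eig P j b lam ch) (hq : Odd q) : ∃ w : ℂ, ‖w‖ = 1 ∧ ∀ t : ℝ, 0 < t →
    fth lam t = (2 / ((q : ℂ) ^ 2 * (t : ℂ) ^ 2)) * ((Real.sqrt 2 / (q * t) : ℝ) : ℂ) ^ j * w *
      (starRingEnd ℂ) (fth lam (2 / (q ^ 2 * t))) := by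
  have hq0 : (0 : ℝ) < q := by exact_mod_cast (Fact.out : q.Prime).pos
  have hqC : (q : ℂ) ≠ 0 := by exact_mod_cast hq0.ne'
  have hs2 : (0 : ℝ) < Real.sqrt 2 := Real.sqrt_pos.2 (by norm_num)
  have hs2C : ((Real.sqrt 2 : ℝ) : ℂ) ≠ 0 := by exact_mod_cast hs2.ne'
  have hs22 : ((Real.sqrt 2 : ℝ) : ℂ) ^ 2 = 2 := by
    have : (Real.sqrt 2 : ℝ) ^ 2 = 2 := Real.sq_sqrt (by norm_num)
    exact_mod_cast this
  obtain ⟨⟨g, a⟩, hv⟩ := E.exists_ne
  have hg : g.det ≠ 0 := fun h => hv (A0.supp E.mem g a h)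
  set w0 : ℂ := R P.act j pi2 (FT j b) (nu g, a) / b (g, a) with hw0
  have h1 : ∀ t : ℝ, 0 < t → fth lam t =
      (2 / ((q : ℂ) ^ 4 * (t : ℂ) ^ 2)) * (I / (q * t)) ^ j * w0 *
        (starRingEnd ℂ) (fth lam (2 / (q ^ 2 * t))) := by
    intro t ht
    have ht' : 0 < 2 / (q ^ 2 * t) := by positivity
    have h := Th_fe (P := P) hq (A0.sy E.mem) hg a ht
    rw [Th_eig hq ht E.T] at h
    have e1 : ∑' ε : Hur, R P.act j (pi2 * ε) (FT j b) (nu g, a) *
        ((Real.exp (-Real.pi * (2 / (q ^ 2 * t)) * nrm ε) : ℝ) : ℂ) =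
        24 * (starRingEnd ℂ) (fth lam (2 / (q ^ 2 * t))) * R P.act j pi2 (FT j b) (nu g, a) := by
      have e2 : ∀ ε : Hur, R P.act j (pi2 * ε) (FT j b) (nu g, a) *
          ((Real.exp (-Real.pi * (2 / (q ^ 2 * t)) * nrm ε) : ℝ) : ℂ) =
          ∑ b' : Y j, rho j pi2 a b' * (R P.act j ε (FT j b) (P.act.act (nu g) pi2, b') *
            ((Real.exp (-Real.pi * (2 / (q ^ 2 * t)) * nrm ε) : ℝ) : ℂ)) := by
        intro ε
        rw [← R_R, R_apply, Finset.sum_mul]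
        exact Finset.sum_congr rfl fun b' _ => by ring
      simp_rw [e2]
      rw [Summable.tsum_finsetSum fun b' _ => (Th_summable (P := P) hq ht' (FT j b)
        (P.act.act (nu g) pi2, b')).mul_left _]
      rw [R_apply, Finset.mul_sum]
      refine Finset.sum_congr rfl fun b' _ => ?_
      rw [tsum_mul_left]
      have e3 := Th_eig (P := P) hq ht' E.T_FT (P.act.act (nu g) pi2, b')
      unfold Th at e3
      rw [e3, fth_conj]
      ring
    rw [e1] at h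
    rw [hw0]
    have h9 : R P.act j pi2 (FT j b) (nu g, a) / b (g, a) * b (g, a) =
        R P.act j pi2 (FT j b) (nu g, a) := div_mul_cancel₀ _ hv
    apply mul_right_cancel₀ hv
    linear_combination (1 / 24 : ℂ) * h - (2 / ((q : ℂ) ^ 4 * (t : ℂ) ^ 2)) * (I / (q * t)) ^ j *
      (starRingEnd ℂ) (fth lam (2 / (q ^ 2 * t))) * h9
  -- the modulus of w0
  have h3 : ∀ t : ℝ, 0 < t → fth lam t * (1 - ((‖w0‖ ^ 2 / (q ^ 4 * 2 ^ j) : ℝ) : ℂ)) = 0 := by
    intro t ht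
    have ht' : 0 < 2 / (q ^ 2 * t) := by positivity
    have htC : (t : ℂ) ≠ 0 := by exact_mod_cast ht.ne'
    have a1 := h1 t ht
    have a2 := h1 (2 / (q ^ 2 * t)) ht'
    have e4 : 2 / ((q : ℝ) ^ 2 * (2 / (q ^ 2 * t))) = t := by field_simp
    rw [e4] at a2
    rw [a2] at a1
    simp only [map_mul, map_div₀, map_pow, Complex.conj_conj, Complex.conj_ofReal, map_ofNat,
      map_natCast, Complex.conj_I] at a1
    have h5 : w0 * (starRingEnd ℂ) w0 = ((‖w0‖ ^ 2 : ℝ) : ℂ) := by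
      rw [Complex.mul_conj, Complex.normSq_eq_norm_sq]
    have h8 : (I / (q * t)) ^ j * (-I / (q * ((2 / (q ^ 2 * t) : ℝ) : ℂ))) ^ j = (1 / 2 : ℂ) ^ j := by
      rw [← mul_pow]
      congr 1
      push_cast
      field_simp
      rw [I_sq]
      norm_num
    have h6 : fth lam t = ((‖w0‖ ^ 2 / (q ^ 4 * 2 ^ j) : ℝ) : ℂ) * fth lam t := by
      calc fth lam t = _ := a1
        _ = (2 / ((q : ℂ) ^ 4 * (t : ℂ) ^ 2)) *
            (2 / ((q : ℂ) ^ 4 * (((2 / (q ^ 2 * t) : ℝ)) : ℂ) ^ 2)) *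
            ((I / (q * t)) ^ j * (-I / (q * ((2 / (q ^ 2 * t) : ℝ) : ℂ))) ^ j) *
            (w0 * (starRingEnd ℂ) w0) * fth lam t := by ring
        _ = _ := by
            rw [h5, h8]
            push_cast
            rw [one_div, inv_pow]
            field_simp
    linear_combination h6
  have h7 : ∃ t : ℝ, 0 < t ∧ fth lam t ≠ 0 := by
    by_contra hcon
    push Not at hcon
    have := coeff_zero lam ?_ hcon 1
    · rw [E.lam_one] at this
      exact one_ne_zero this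
    · intro t ht
      have h := (Th_hasSum (P := P) hq ht b (g, a)).summable
      refine (h.mul_left (24 * b (g, a))⁻¹).congr fun n => ?_
      rw [E.T n, Pi.smul_apply, smul_eq_mul]
      field_simp
  obtain ⟨t, ht, hft⟩ := h7
  have h8 : ‖w0‖ ^ 2 / (q ^ 4 * 2 ^ j) = 1 := by
    have := (mul_eq_zero.1 (h3 t ht)).resolve_left hft
    have h9 : ((‖w0‖ ^ 2 / (q ^ 4 * 2 ^ j) : ℝ) : ℂ) = 1 := (sub_eq_zero.1 this).symm
    exact_mod_cast h9
  have h10 : ‖w0‖ = q ^ 2 * Real.sqrt 2 ^ j := by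
    rw [div_eq_one_iff_eq (by positivity)] at h8
    have h11 : ((q : ℝ) ^ 2 * Real.sqrt 2 ^ j) ^ 2 = q ^ 4 * 2 ^ j := by
      have h12 : (Real.sqrt 2 ^ j) ^ 2 = 2 ^ j := by
        rw [← pow_mul, mul_comm, pow_mul, Real.sq_sqrt (by norm_num)]
      rw [mul_pow, h12]
      ring
    rw [← h11] at h8
    exact (sq_eq_sq₀ (norm_nonneg _) (by positivity)).1 h8
  refine ⟨I ^ j * w0 / (q ^ 2 * ((Real.sqrt 2 : ℝ) : ℂ) ^ j), ?_, fun t ht => ?_⟩
  · rw [norm_div, norm_mul, norm_pow, Complex.norm_I, one_pow, one_mul, h10, norm_mul, norm_pow,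
      norm_pow, Complex.norm_natCast, Complex.norm_real, Real.norm_eq_abs, abs_of_pos hs2,
      div_self (by positivity)]
  · have htC : (t : ℂ) ≠ 0 := by exact_mod_cast ht.ne'
    have e : (2 / ((q : ℂ) ^ 4 * (t : ℂ) ^ 2)) * (I / (q * t)) ^ j * w0 =
        (2 / ((q : ℂ) ^ 2 * (t : ℂ) ^ 2)) * ((Real.sqrt 2 / (q * t) : ℝ) : ℂ) ^ j *
          (I ^ j * w0 / (q ^ 2 * ((Real.sqrt 2 : ℝ) : ℂ) ^ j)) := by
      push_cast
      rw [div_pow, div_pow]
      field_simp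
    rw [h1 t ht, e]

lemma sqrt2_mul : Real.sqrt 2 * Real.sqrt 2 = 2 := Real.mul_self_sqrt (by norm_num)

/-- the L-function, with its Dirichlet series far to the right -/
theorem Eig.exists_L' (E : Eig P j b lam ch) (hq : Odd q) :
    ∃ F : ℂ → ℂ, W388.FE2 ((j : ℤ) + 2) 2 q F ∧ ∀ s : ℂ, 4 + (j : ℝ) / 2 < s.re →
      F s = ∑' n : ℕ, lam n * (n : ℂ) ^ (-(s + ((j : ℂ) + 1) / 2)) := by
  have hq0 : (0 : ℝ) < q := by exact_mod_cast (Fact.out : q.Prime).pos
  have hq1 : (1 : ℝ) ≤ q := by exact_mod_cast (Fact.out : q.Prime).one_lt.le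
  have hqC : (q : ℂ) ≠ 0 := by exact_mod_cast hq0.ne'
  have hs2 : (0 : ℝ) < Real.sqrt 2 := Real.sqrt_pos.2 (by norm_num)
  have hs2C : ((Real.sqrt 2 : ℝ) : ℂ) ≠ 0 := by exact_mod_cast hs2.ne'
  have hs22 : ((Real.sqrt 2 : ℝ) : ℂ) ^ 2 = 2 := by
    have : (Real.sqrt 2 : ℝ) ^ 2 = 2 := Real.sq_sqrt (by norm_num)
    exact_mod_cast this
  obtain ⟨w, hw, hfe⟩ := E.fe hq
  obtain ⟨F, hF1, hF2⟩ := Pool.Agent.W108.TW.t_mellin ((j : ℤ) + 2) (by omega) 2 q (by norm_num)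
    hq1 lam (2 + (j : ℝ) / 2) 1 E.lam_zero (by positivity) (fun n _ => E.lam_le n) w hw (by
      intro t ht
      have ht1 : 0 < Real.sqrt 2 / (q * t) := by positivity
      have h := hfe (Real.sqrt 2 / (q * t)) ht1
      have e1 : 2 / ((q : ℝ) ^ 2 * (Real.sqrt 2 / (q * t))) = Real.sqrt 2 / q * t := by
        field_simp
        exact (Real.sq_sqrt (by norm_num : (0:ℝ) ≤ 2)).symm
      rw [e1, fth_conj] at h
      unfold fth at h
      have htC : (t : ℂ) ≠ 0 := by exact_mod_cast ht.ne'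
      have e2 : (2 / ((q : ℂ) ^ 2 * (((Real.sqrt 2 / (q * t) : ℝ)) : ℂ) ^ 2)) *
          ((Real.sqrt 2 / (q * (Real.sqrt 2 / (q * t))) : ℝ) : ℂ) ^ j * w =
          w * (t : ℂ) ^ ((j : ℤ) + 2) := by
        have e3 : Real.sqrt 2 / (q * (Real.sqrt 2 / (q * t))) = t := by field_simp
        rw [e3]
        push_cast
        rw [zpow_add₀ htC, zpow_natCast, zpow_ofNat]
        field_simp
        rw [hs22]
      rw [e2] at h
      have hs4 : Real.sqrt 2 ^ 2 = 2 := Real.sq_sqrt (by norm_num)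
      have e3 : ∀ n : ℕ, -(2 * Real.pi * n / (Real.sqrt 2 * q)) / t =
          -Real.pi * (Real.sqrt 2 / (q * t)) * n := by
        intro n
        field_simp
        rw [hs4]
        ring
      have e4 : ∀ n : ℕ, -(2 * Real.pi * n / (Real.sqrt 2 * q)) * t =
          -Real.pi * (Real.sqrt 2 / q * t) * n := by
        intro n
        field_simp
        rw [hs4]
        ring
      simp only [e3, e4]
      exact h)
  refine ⟨F, hF1, fun s hs => ?_⟩
  rw [hF2 s (by linarith)]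
  refine tsum_congr fun n => ?_
  congr 3
  push_cast
  ring

/-- the Dirichlet series of the normalised eigenvalues -/
lemma ds_eq (h0 : lam 0 = 0) (s : ℂ) (n : ℕ) : lam n * (n : ℂ) ^ (-(s + ((j : ℂ) + 1) / 2)) =
    ln j lam n * (n : ℂ) ^ (-(s + 1 / 2)) := by
  unfold ln
  rcases Nat.eq_zero_or_pos n with rfl | hn
  · rw [h0]; simp
  · have hn0 : (0 : ℝ) < n := by exact_mod_cast hn
    have hnC : (n : ℂ) ≠ 0 := by exact_mod_cast hn0.ne'
    have e1 : (((n : ℝ) ^ ((j : ℝ) / 2) : ℝ) : ℂ) = (n : ℂ) ^ ((j : ℂ) / 2) := by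
      rw [Complex.ofReal_cpow hn0.le]
      push_cast
      rfl
    have e2 : -(s + ((j : ℂ) + 1) / 2) = -(s + 1 / 2) - (j : ℂ) / 2 := by ring
    rw [e1, e2, Complex.cpow_sub _ _ hnC]
    field_simp

/-- the L-function -/
theorem Eig.exists_L (E : Eig P j b lam ch) (hq : Odd q) :
    ∃ F : ℂ → ℂ, W388.FE2 ((j : ℤ) + 2) 2 q F ∧ ∀ s : ℂ, 4 < s.re →
      F s = ∑' n : ℕ, ln j lam n * (n : ℂ) ^ (-(s + 1 / 2)) := by
  obtain ⟨F, hF1, hF2⟩ := E.exists_L' hq
  refine ⟨F, hF1, ?_⟩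
  -- analytic continuation
  set D : ℂ → ℂ := fun s => LSeries (ln j lam) (s + 1 / 2) with hD
  have hl0 : ln j lam 0 = 0 := by unfold ln; rw [E.lam_zero, zero_div]
  have hDe : ∀ s, D s = ∑' n : ℕ, ln j lam n * (n : ℂ) ^ (-(s + 1 / 2)) := by
    intro s
    rw [hD]
    simp only [LSeries]
    refine tsum_congr fun n => ?_
    rcases eq_or_ne n 0 with rfl | hn
    · rw [LSeries.term_zero, hl0, zero_mul]
    · rw [LSeries.term_of_ne_zero hn, Complex.cpow_neg, div_eq_mul_inv]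
  have habs : LSeries.abscissaOfAbsConv (ln j lam) ≤ ((2 : ℝ) : EReal) + 1 := by
    apply LSeries.abscissaOfAbsConv_le_of_le_const_mul_rpow
    exact ⟨1, fun n _ => E.ln_le n⟩
  have hDan : AnalyticOnNhd ℂ D {s : ℂ | 4 < s.re} := by
    intro s hs
    have h1 : AnalyticAt ℂ (LSeries (ln j lam)) (s + 1 / 2) := by
      apply LSeries_analyticOnNhd
      change LSeries.abscissaOfAbsConv (ln j lam) < _
      refine habs.trans_lt ?_
      have hs' : 4 < s.re := hs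
      have : (s + 1 / 2).re = s.re + 1 / 2 := by simp
      rw [this]
      have h3 : ((2 : ℝ) : EReal) + 1 = ((3 : ℝ) : EReal) := by
        rw [← EReal.coe_one, ← EReal.coe_add]
        norm_num
      rw [h3]
      exact_mod_cast (by linarith : (3 : ℝ) < s.re + 1 / 2)
    exact AnalyticAt.comp' h1 (by fun_prop)
  have hFan : AnalyticOnNhd ℂ F {s : ℂ | 4 < s.re} := fun s _ =>
    (hF1.diff.analyticAt s)
  have hconv : Convex ℝ {s : ℂ | 4 < s.re} := convex_halfSpace_re_gt 4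
  have hz0 : ((5 + (j : ℝ) / 2 : ℝ) : ℂ) ∈ {s : ℂ | 4 < s.re} := by
    simp only [Set.mem_setOf_eq, Complex.ofReal_re]
    have : (0 : ℝ) ≤ (j : ℝ) / 2 := by positivity
    linarith
  have heq := hFan.eqOn_of_preconnected_of_eventuallyEq hDan hconv.isPreconnected hz0 (by
    have hopen : IsOpen {z : ℂ | 4 + (j : ℝ) / 2 < z.re} :=
      isOpen_lt continuous_const Complex.continuous_re
    filter_upwards [hopen.mem_nhds (show ((5 + (j : ℝ) / 2 : ℝ) : ℂ) ∈ _ by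
      simp only [Set.mem_setOf_eq, Complex.ofReal_re]; linarith)] with z hz
    rw [hF2 z hz, hDe]
    exact tsum_congr fun n => ds_eq E.lam_zero z n)
  intro s hs
  rw [heq hs, hDe]

end Pool.Agent.Zk20.KS
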