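import Mathlib

/-! # Extraction of moments from exponential sums -/

set_option autoImplicit false

open Complex Filter Topology

namespace Pool.Agent.Zk20.KS

section one
variable {ι : Type*}

/-- strong summability -/
def SS (u x : ι → ℂ) : Prop := ∀ R : ℝ, 0 ≤ R → Summable (fun i => ‖u i‖ * Real.exp (R * ‖x i‖))

lemma SS.mul {u x : ι → ℂ} (h : SS u x) : SS (fun i => u i * x i) x := by
  intro R hR
  refine Summable.of_nonneg_of_le (fun i => by positivity) (fun i => ?_) (h (R + 1) (by linarith))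
  rw [norm_mul, mul_assoc]
  refine mul_le_mul_of_nonneg_left ?_ (norm_nonneg _)
  have h1 : ‖x i‖ ≤ Real.exp ‖x i‖ := by
    have := Real.add_one_le_exp ‖x i‖
    linarith
  calc ‖x i‖ * Real.exp (R * ‖x i‖) ≤ Real.exp ‖x i‖ * Real.exp (R * ‖x i‖) :=
        mul_le_mul_of_nonneg_right h1 (Real.exp_pos _).le
    _ = Real.exp ((R + 1) * ‖x i‖) := by rw [← Real.exp_add]; ring_nf

lemma norm_cexp_le (s x : ℂ) : ‖cexp (s * x)‖ ≤ Real.exp (‖s‖ * ‖x‖) := by
  rw [Complex.norm_exp]
  apply Real.exp_le_exp.2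
  rw [← norm_mul]
  exact Complex.re_le_norm _

lemma SS.summable {u x : ι → ℂ} (h : SS u x) (s : ℂ) : Summable (fun i => u i * cexp (s * x i)) := by
  refine Summable.of_norm_bounded (g := fun i => ‖u i‖ * Real.exp (‖s‖ * ‖x i‖))
    (h _ (norm_nonneg _)) fun i => ?_
  rw [norm_mul]
  exact mul_le_mul_of_nonneg_left (norm_cexp_le _ _) (norm_nonneg _)

lemma SS.hasDerivAt {u x : ι → ℂ} (h : SS u x) (s : ℂ) :
    HasDerivAt (fun z => ∑' i, u i * cexp (z * x i)) (∑' i, (u i * x i) * cexp (s * x i)) s := by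
  have hmem : s ∈ Metric.ball (0 : ℂ) (‖s‖ + 1) := by
    rw [Metric.mem_ball, dist_zero_right]; linarith
  have hg : ∀ (i : ι) (z : ℂ), z ∈ Metric.ball (0 : ℂ) (‖s‖ + 1) →
      HasDerivAt (fun z => u i * cexp (z * x i)) ((u i * x i) * cexp (z * x i)) z := by
    intro i z _
    have h1 : HasDerivAt (fun z : ℂ => z * x i) (1 * x i) z := (hasDerivAt_id z).mul_const (x i)
    have h3 := (h1.cexp).const_mul (u i)
    have e : u i * (cexp (z * x i) * (1 * x i)) = (u i * x i) * cexp (z * x i) := by ring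
    rw [e] at h3
    exact h3
  have hg' : ∀ (i : ι) (z : ℂ), z ∈ Metric.ball (0 : ℂ) (‖s‖ + 1) →
      ‖(u i * x i) * cexp (z * x i)‖ ≤ ‖u i * x i‖ * Real.exp ((‖s‖ + 1) * ‖x i‖) := by
    intro i z hz
    rw [Metric.mem_ball, dist_zero_right] at hz
    rw [norm_mul (u i * x i)]
    refine mul_le_mul_of_nonneg_left ((norm_cexp_le _ _).trans ?_) (norm_nonneg _)
    apply Real.exp_le_exp.2
    exact mul_le_mul_of_nonneg_right hz.le (norm_nonneg _)
  have hsum : Summable (fun i => ‖u i * x i‖ * Real.exp ((‖s‖ + 1) * ‖x i‖)) :=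
    h.mul _ (by positivity)
  exact hasDerivAt_tsum_of_isPreconnected (g := fun i z => u i * cexp (z * x i))
    (g' := fun i z => (u i * x i) * cexp (z * x i)) hsum Metric.isOpen_ball
    (convex_ball _ _).isPreconnected hg hg' hmem (h.summable s) hmem

/-- equality of exponential sums gives equality of the moments -/
lemma moments {κ : Type*} (m : ℕ) : ∀ {u x : ι → ℂ} {v y : κ → ℂ}, SS u x → SS v y →
    (∀ s : ℂ, ∑' i, u i * cexp (s * x i) = ∑' k, v k * cexp (s * y k)) →
    ∑' i, u i * x i ^ m = ∑' k, v k * y k ^ m := by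
  induction m with
  | zero =>
    intro u x v y _ _ h
    simpa using h 0
  | succ m ih =>
    intro u x v y hu hv h
    have h1 : ∀ s : ℂ, ∑' i, (u i * x i) * cexp (s * x i) = ∑' k, (v k * y k) * cexp (s * y k) := by
      intro s
      have d1 := hu.hasDerivAt s
      have d2 := hv.hasDerivAt s
      have : (fun z => ∑' i, u i * cexp (z * x i)) = (fun z => ∑' k, v k * cexp (z * y k)) :=
        funext h
      rw [this] at d1
      exact d1.unique d2
    have h3 := ih hu.mul hv.mul h1
    have e1 : ∀ i, u i * x i ^ (m + 1) = u i * x i * x i ^ m := fun i => by ring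
    have e2 : ∀ k, v k * y k ^ (m + 1) = v k * y k * y k ^ m := fun k => by ring
    simp_rw [e1, e2]
    exact h3

/-- strong summability in two variables -/
def SS2 (u x y : ι → ℂ) : Prop := ∀ R : ℝ, 0 ≤ R →
  Summable (fun i => ‖u i‖ * Real.exp (R * (‖x i‖ + ‖y i‖)))

lemma SS2.fst {u x y : ι → ℂ} (h : SS2 u x y) (s : ℂ) : SS (fun i => u i * cexp (s * y i)) x := by
  intro R hR
  refine Summable.of_nonneg_of_le (fun i => by positivity) (fun i => ?_)
    (h (R + ‖s‖) (by positivity))
  rw [norm_mul, mul_assoc]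
  refine mul_le_mul_of_nonneg_left ?_ (norm_nonneg _)
  calc ‖cexp (s * y i)‖ * Real.exp (R * ‖x i‖) ≤ Real.exp (‖s‖ * ‖y i‖) * Real.exp (R * ‖x i‖) :=
        mul_le_mul_of_nonneg_right (norm_cexp_le _ _) (Real.exp_pos _).le
    _ ≤ Real.exp ((R + ‖s‖) * (‖x i‖ + ‖y i‖)) := by
        rw [← Real.exp_add]
        apply Real.exp_le_exp.2
        have h1 := mul_nonneg hR (norm_nonneg (y i))
        have h2 := mul_nonneg (norm_nonneg s) (norm_nonneg (x i))
        nlinarith

lemma SS2.mul {u x y : ι → ℂ} (h : SS2 u x y) : SS2 (fun i => u i * x i) x y := by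
  intro R hR
  refine Summable.of_nonneg_of_le (fun i => by positivity) (fun i => ?_) (h (R + 1) (by linarith))
  rw [norm_mul, mul_assoc]
  refine mul_le_mul_of_nonneg_left ?_ (norm_nonneg _)
  have h1 : ‖x i‖ ≤ Real.exp (‖x i‖ + ‖y i‖) := by
    have := Real.add_one_le_exp (‖x i‖ + ‖y i‖)
    have := norm_nonneg (y i)
    linarith
  calc ‖x i‖ * Real.exp (R * (‖x i‖ + ‖y i‖)) ≤ Real.exp (‖x i‖ + ‖y i‖) *
      Real.exp (R * (‖x i‖ + ‖y i‖)) := mul_le_mul_of_nonneg_right h1 (Real.exp_pos _).le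
    _ = _ := by rw [← Real.exp_add]; ring_nf

lemma SS2.pow {u x y : ι → ℂ} (h : SS2 u x y) (m : ℕ) : SS2 (fun i => u i * x i ^ m) x y := by
  induction m with
  | zero => simpa using h
  | succ m ih =>
    have := ih.mul
    have e : (fun i => u i * x i ^ m * x i) = (fun i => u i * x i ^ (m + 1)) := by
      funext i; ring
    rwa [e] at this

lemma SS2.snd {u x y : ι → ℂ} (h : SS2 u x y) : SS u y := by
  intro R hR
  refine Summable.of_nonneg_of_le (fun i => by positivity) (fun i => ?_) (h R hR)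
  refine mul_le_mul_of_nonneg_left ?_ (norm_nonneg _)
  apply Real.exp_le_exp.2
  have h1 := mul_nonneg hR (norm_nonneg (x i))
  nlinarith

/-- equality of exponential sums in two variables gives equality of the moments -/
lemma moments2 {κ : Type*} {u x y : ι → ℂ} {v x' y' : κ → ℂ} (hu : SS2 u x y) (hv : SS2 v x' y')
    (h : ∀ s r : ℂ, ∑' i, u i * cexp (s * x i + r * y i) =
      ∑' k, v k * cexp (s * x' k + r * y' k)) (m n : ℕ) :
    ∑' i, u i * x i ^ m * y i ^ n = ∑' k, v k * x' k ^ m * y' k ^ n := by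
  refine moments n (hu.pow m).snd (hv.pow m).snd fun r => ?_
  have h1 := moments m (hu.fst r) (hv.fst r) fun s => by
    have := h s r
    simp_rw [Complex.exp_add] at this
    calc _ = ∑' i, u i * (cexp (s * x i) * cexp (r * y i)) := tsum_congr fun i => by ring
      _ = _ := this
      _ = _ := tsum_congr fun i => by ring
  calc _ = ∑' i, u i * cexp (r * y i) * x i ^ m := tsum_congr fun i => by ring
    _ = _ := h1
    _ = _ := tsum_congr fun i => by ring

lemma SS2.summable_pow {u x y : ι → ℂ} (h : SS2 u x y) (m n : ℕ) :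
    Summable (fun i => ‖u i * x i ^ m * y i ^ n‖) := by
  have h1 := (h.pow m).snd
  have h3 : ∀ n : ℕ, SS (fun i => u i * x i ^ m * y i ^ n) y := by
    intro n
    induction n with
    | zero => simpa using h1
    | succ n ih =>
      have := ih.mul
      have e : (fun i => u i * x i ^ m * y i ^ n * y i) = (fun i => u i * x i ^ m * y i ^ (n + 1)) := by
        funext i; ring
      rwa [e] at this
  have := (h3 n).summable 0
  simpa using this.norm

end one

end Pool.Agent.Zk20.KS
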