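import Pool.Agent.Zk20.KS.MainA
import Pool.Agent.Zk20.KS.Dim
import Pool.Agent.N880.HQ.Final
import Pool.Agent.N880.HQ.Exist
import Pool.Agent.W354.HW.Count

/-! # The final theorem for one weight, in terms of the L-functions in the arithmetic normalisation -/

set_option autoImplicit false

open Complex Filter Topology Module Set
open H370 (zset mult NN Nd Ns)

namespace Pool.Agent.Zk20.KS

open Pool.Agent.N880.HQ (zeroSet numZeros numDistinct cnt_N cnt_d GF exists_perm eP aff_inj aff_order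
  zset_image)

/-- number of simple zeros on the line `Re s = c` -/
noncomputable def numSimple (c : ℝ) (F : ℂ → ℂ) (T : ℝ) : ℕ :=
  {s : ℂ | s ∈ zeroSet F T ∧ s.re = c ∧ analyticOrderNatAt F s = 1}.ncard

/-- number of zeros on the line `Re s = c`, with multiplicity -/
noncomputable def numLine (c : ℝ) (F : ℂ → ℂ) (T : ℝ) : ℕ :=
  ∑ᶠ s ∈ {s : ℂ | s ∈ zeroSet F T ∧ s.re = c}, analyticOrderNatAt F s

section shift
variable (a : ℝ) (F : ℂ → ℂ) (T : ℝ)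

lemma sh_inj : Function.Injective (fun s : ℂ => s + (a : ℂ)) := fun x y h => by
  simpa using h

lemma sh_order (s : ℂ) : analyticOrderNatAt (fun z => F (z - (a : ℂ))) (s + (a : ℂ)) =
    analyticOrderNatAt F s := by
  have hg : AnalyticAt ℂ (fun z : ℂ => z - (a : ℂ)) (s + (a : ℂ)) := by fun_prop
  have hd : deriv (fun z : ℂ => z - (a : ℂ)) (s + (a : ℂ)) ≠ 0 := by simp
  have h := analyticOrderAt_comp_of_deriv_ne_zero (f := F) hg hd
  unfold analyticOrderNatAt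
  have h2 : (fun z : ℂ => F (z - (a : ℂ))) = F ∘ (fun z : ℂ => z - (a : ℂ)) := rfl
  rw [h2, h]
  congr 2
  ring

lemma sh_mem (s : ℂ) : s + (a : ℂ) ∈ zeroSet (fun z => F (z - (a : ℂ))) T ↔ s ∈ zeroSet F T := by
  unfold zeroSet
  simp only [mem_ofPred_eq, add_im, ofReal_im, add_zero, add_sub_cancel_right]

lemma sh_set (p : ℂ → Prop) : {s : ℂ | s ∈ zeroSet (fun z => F (z - (a : ℂ))) T ∧ p (s - (a : ℂ))} =
    (fun s : ℂ => s + (a : ℂ)) '' {s : ℂ | s ∈ zeroSet F T ∧ p s} := by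
  ext s
  constructor
  · rintro ⟨h1, h2⟩
    refine ⟨s - a, ⟨?_, h2⟩, by ring⟩
    rw [← sh_mem a]
    convert h1 using 1
    ring
  · rintro ⟨t, ⟨h1, h2⟩, rfl⟩
    refine ⟨(sh_mem a F T t).2 h1, ?_⟩
    rwa [add_sub_cancel_right]

lemma sh_set' : zeroSet (fun z => F (z - (a : ℂ))) T = (fun s : ℂ => s + (a : ℂ)) '' zeroSet F T := by
  have h := sh_set a F T (fun _ => True)
  simpa using h

lemma sh_N : numZeros (fun z => F (z - (a : ℂ))) T = numZeros F T := by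
  unfold numZeros
  rw [sh_set', finsum_mem_image (sh_inj a).injOn]
  exact finsum_mem_congr rfl fun s _ => sh_order a F s

lemma sh_d : numDistinct (fun z => F (z - (a : ℂ))) T = numDistinct F T := by
  unfold numDistinct
  rw [sh_set', Set.ncard_image_of_injective _ (sh_inj a)]

lemma sh_s (c : ℝ) : numSimple (c + a) (fun z => F (z - (a : ℂ))) T = numSimple c F T := by
  unfold numSimple
  have h : {s : ℂ | s ∈ zeroSet (fun z => F (z - (a : ℂ))) T ∧ s.re = c + a ∧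
      analyticOrderNatAt (fun z => F (z - (a : ℂ))) s = 1} =
      (fun s : ℂ => s + (a : ℂ)) '' {s : ℂ | s ∈ zeroSet F T ∧ s.re = c ∧
        analyticOrderNatAt F s = 1} := by
    rw [← sh_set a F T (fun s => s.re = c ∧ analyticOrderNatAt F s = 1)]
    ext s
    have h3 : s.re = c + a ↔ (s - (a : ℂ)).re = c := by
      rw [sub_re, ofReal_re]
      constructor <;> intro h <;> linarith
    have h4 := sh_order a F (s - (a : ℂ))
    rw [sub_add_cancel] at h4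
    simp only [mem_ofPred_eq, h3, h4]
  rw [h, Set.ncard_image_of_injective _ (sh_inj a)]

lemma sh_l (c : ℝ) : numLine (c + a) (fun z => F (z - (a : ℂ))) T = numLine c F T := by
  unfold numLine
  have h : {s : ℂ | s ∈ zeroSet (fun z => F (z - (a : ℂ))) T ∧ s.re = c + a} =
      (fun s : ℂ => s + (a : ℂ)) '' {s : ℂ | s ∈ zeroSet F T ∧ s.re = c} := by
    rw [← sh_set a F T (fun s => s.re = c)]
    ext s
    have h3 : s.re = c + a ↔ (s - (a : ℂ)).re = c := by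
      rw [sub_re, ofReal_re]
      constructor <;> intro h <;> linarith
    simp only [mem_ofPred_eq, h3]
  rw [h, finsum_mem_image (sh_inj a).injOn]
  exact finsum_mem_congr rfl fun s _ => sh_order a F s

end shift

lemma cnt_s' {L : ℂ → ℂ} {T : ℝ} (hz : ∀ w : ℂ, T < w.im → L w = 0 → -4 < w.re ∧ w.re < 6) :
    Ns (fun s => L (10 * s - 4)) (T / 10) (2 * (T / 10)) = numSimple 1 L T :=
  Pool.Agent.N880.HQ.cnt_s hz

/-- the completed L-function of level `2 q²` -/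
noncomputable def Lam (q : ℕ) (F : ℂ → ℂ) (s : ℂ) : ℂ :=
  ((Real.sqrt 2 * q / (2 * Real.pi) : ℝ) : ℂ) ^ s * Complex.Gamma s * F s

lemma Lam_fe {q j : ℕ} (hq : 0 < q) {F : ℂ → ℂ} (h : W388.FE2 ((j : ℤ) + 2) 2 q F) :
    ∃ w : ℂ, ‖w‖ = 1 ∧ ∀ s : ℂ, s.im ≠ 0 →
      Lam q (fun s => F (s - (((j : ℝ) + 1) / 2 : ℝ))) s =
      w * (starRingEnd ℂ) (Lam q (fun s => F (s - (((j : ℝ) + 1) / 2 : ℝ)))
        ((j : ℂ) + 2 - (starRingEnd ℂ) s)) := by
  obtain ⟨w, hw, hfe⟩ := h.fe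
  refine ⟨w, hw, fun s hs => ?_⟩
  have hq0 : (0 : ℝ) < q := by exact_mod_cast hq
  set c : ℝ := Real.sqrt 2 * q / (2 * Real.pi) with hc
  have hc0 : 0 < c := by
    rw [hc]
    have := Real.pi_pos
    positivity
  have hcC : (c : ℂ) ≠ 0 := by exact_mod_cast hc0.ne'
  set d : ℝ := ((j : ℝ) + 1) / 2 with hd
  have hdC : (d : ℂ) = ((j : ℂ) + 1) / 2 := by rw [hd]; push_cast; ring
  have h1 := hfe (s - d) (by simpa using hs)
  unfold W388.GG at h1
  have e1 : (s - (d : ℂ) + ((((j : ℤ) + 2 : ℤ) : ℂ) - 1) / 2) = s := by rw [hdC]; push_cast; ring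
  have e2 : (1 - (starRingEnd ℂ) (s - d) + ((((j : ℤ) + 2 : ℤ) : ℂ) - 1) / 2) =
      (j : ℂ) + 2 - (starRingEnd ℂ) s := by
    rw [map_sub, Complex.conj_ofReal, hdC]
    push_cast
    ring
  have e3 : 1 - (starRingEnd ℂ) (s - (d : ℂ)) = (j : ℂ) + 2 - (starRingEnd ℂ) s - d := by
    rw [map_sub, Complex.conj_ofReal, hdC]
    ring
  rw [e1, e2, e3] at h1
  have e4 : (c : ℂ) ^ (s - (d : ℂ)) = (c : ℂ) ^ s * (c : ℂ) ^ (-(d : ℂ)) := by
    rw [← Complex.cpow_add _ _ hcC]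
    congr 1
  have e5 : (c : ℂ) ^ ((j : ℂ) + 2 - (starRingEnd ℂ) s - (d : ℂ)) =
      (c : ℂ) ^ ((j : ℂ) + 2 - (starRingEnd ℂ) s) * (c : ℂ) ^ (-(d : ℂ)) := by
    rw [← Complex.cpow_add _ _ hcC]
    congr 1
  rw [e4, e5] at h1
  have e6 : (starRingEnd ℂ) ((c : ℂ) ^ (-(d : ℂ))) = (c : ℂ) ^ (-(d : ℂ)) := by
    have : ((c : ℂ) ^ (-(d : ℂ))) = ((c ^ (-d) : ℝ) : ℂ) := by
      rw [Complex.ofReal_cpow hc0.le]
      norm_num
    rw [this, Complex.conj_ofReal]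
  have e7 : (c : ℂ) ^ (-(d : ℂ)) ≠ 0 := by
    rw [Ne, Complex.cpow_eq_zero_iff]
    tauto
  unfold Lam
  rw [← hc]
  apply mul_left_cancel₀ e7
  simp only [map_mul, e6] at h1 ⊢
  linear_combination h1

/-- the exact dimension of the ambient space compared with the space of forms -/
lemma asym (j : ℕ) {δ : ℝ} (hδ : 0 < δ) : ∃ q0 : ℝ, 25 ≤ q0 ∧ ∀ (q : ℕ) [Fact q.Prime], q0 ≤ q →
    ∀ P : XY q, 0 < finrank ℂ (A0 P j) ∧
      ((finrank ℂ (A0 P j) : ℕ) : ℝ) ≤ (gl q : ℝ) * ((j : ℝ) + 1) / 24 ∧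
      (gl q : ℝ) * ((j : ℝ) + 1) / 24 ≤ (1 + δ) * ((finrank ℂ (A0 P j) : ℕ) : ℝ) := by
  refine ⟨max 25 (192 * (1 + δ) * 2 ^ j / δ), le_max_left _ _, ?_⟩
  intro q _ hq P
  have hq25 : (25 : ℝ) ≤ q := (le_max_left _ _).trans hq
  have hqb : 192 * (1 + δ) * 2 ^ j / δ ≤ q := (le_max_right _ _).trans hq
  have hq3 : 3 ≤ q := by
    have : (3 : ℝ) ≤ q := by linarith
    exact_mod_cast this
  have hq1 : 1 ≤ q ^ 2 := Nat.one_le_pow _ _ (by omega)
  have hqq : q ≤ q ^ 2 := Nat.le_self_pow (by norm_num) q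
  have hgl : (gl q : ℝ) = ((q : ℝ) ^ 2 - 1) * ((q : ℝ) ^ 2 - q) := by
    rw [gl_eq]
    push_cast [Nat.cast_sub hq1, Nat.cast_sub hqq]
    ring
  have h1 := finrank_A0 (j := j) P hq3
  have h2 : ((finrank ℂ (A0 P j) : ℕ) : ℝ) ≤ (gl q : ℝ) * ((j : ℝ) + 1) / 24 := by
    rw [← finrank_UI P hq3]
    have : finrank ℂ (A0 P j) ≤ finrank ℂ (UI P j) := by
      apply Submodule.finrank_mono
      intro Φ hΦ
      exact ⟨hΦ.1, hΦ.2.1, hΦ.2.2.1⟩
    exact_mod_cast this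
  set G : ℝ := (gl q : ℝ) * ((j : ℝ) + 1) / 24 with hG
  have hq0 : (0 : ℝ) < q := by linarith
  have hG1 : (q : ℝ) ^ 4 / 64 ≤ G := by
    rw [hG, hgl]
    have a1 : 3 / 4 * (q : ℝ) ^ 2 ≤ (q : ℝ) ^ 2 - 1 := by nlinarith
    have a2 : 1 / 2 * (q : ℝ) ^ 2 ≤ (q : ℝ) ^ 2 - q := by nlinarith
    have a3 : 3 / 4 * (q : ℝ) ^ 2 * (1 / 2 * (q : ℝ) ^ 2) ≤ ((q : ℝ) ^ 2 - 1) * ((q : ℝ) ^ 2 - q) :=
      mul_le_mul a1 a2 (by positivity) (by nlinarith)
    have a4 : (0 : ℝ) ≤ ((q : ℝ) ^ 2 - 1) * ((q : ℝ) ^ 2 - q) := le_trans (by positivity) a3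
    have a5 : ((q : ℝ) ^ 2 - 1) * ((q : ℝ) ^ 2 - q) * 1 ≤
        ((q : ℝ) ^ 2 - 1) * ((q : ℝ) ^ 2 - q) * ((j : ℝ) + 1) :=
      mul_le_mul_of_nonneg_left (by have : (0 : ℝ) ≤ j := Nat.cast_nonneg j; linarith) a4
    nlinarith
  have hE : (((q : ℝ) + 1) * (q : ℝ) ^ 2 + q) * 2 ^ j ≤ 3 * (q : ℝ) ^ 3 * 2 ^ j := by
    apply mul_le_mul_of_nonneg_right _ (by positivity)
    nlinarith [sq_nonneg ((q : ℝ) - 1), mul_pos hq0 hq0, mul_pos (mul_pos hq0 hq0) hq0]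
  have hb : (1 + δ) * (3 * (q : ℝ) ^ 3 * 2 ^ j) ≤ δ * ((q : ℝ) ^ 4 / 64) := by
    rw [div_le_iff₀ hδ] at hqb
    have : 0 ≤ (q : ℝ) ^ 3 / 64 := by positivity
    have h3 := mul_le_mul_of_nonneg_right hqb this
    nlinarith
  have h3 : G ≤ (1 + δ) * ((finrank ℂ (A0 P j) : ℕ) : ℝ) := by
    have h4 : (1 + δ) * G ≤ (1 + δ) * (((finrank ℂ (A0 P j) : ℕ) : ℝ) +
        (((q : ℝ) + 1) * (q : ℝ) ^ 2 + q) * 2 ^ j) := mul_le_mul_of_nonneg_left h1 (by linarith)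
    have h5 : (1 + δ) * ((((q : ℝ) + 1) * (q : ℝ) ^ 2 + q) * 2 ^ j) ≤ δ * G :=
      (mul_le_mul_of_nonneg_left hE (by linarith)).trans
        (hb.trans (mul_le_mul_of_nonneg_left hG1 hδ.le))
    nlinarith
  refine ⟨?_, h2, h3⟩
  have hGp : 0 < G := lt_of_lt_of_le (by positivity) hG1
  by_contra hcon
  have h6 : finrank ℂ (A0 P j) = 0 := by omega
  rw [h6] at h3
  simp at h3
  linarith

/-- an orthonormal family of the right size is a basis -/
lemma basis_of_on {q : ℕ} [Fact q.Prime] {P : XY q} {j g : ℕ} (hg : finrank ℂ (A0 P j) = g)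
    (b0 : Fin g → M2 q × Y j → ℂ) (k1 : ∀ k, b0 k ∈ A0 P j)
    (k2 : ∀ k l, ∑ v, b0 k v * (starRingEnd ℂ) (b0 l v) = if k = l then 1 else 0) :
    ∃ b : Basis (Fin g) ℂ (A0 P j), ∀ k, ((b k : A0 P j) : M2 q × Y j → ℂ) = b0 k := by
  have hLI : LinearIndependent ℂ (fun k : Fin g => (⟨b0 k, k1 k⟩ : A0 P j)) := by
    rw [Fintype.linearIndependent_iff]
    intro c hc l
    have h1 : ∑ k, c k • b0 k = 0 := by
      have := congrArg (Subtype.val) hc
      simpa using this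
    have h3 : ∑ v, (∑ k, c k • b0 k) v * (starRingEnd ℂ) (b0 l v) = c l := by
      have : ∀ v, (∑ k, c k • b0 k) v * (starRingEnd ℂ) (b0 l v) =
          ∑ k, c k * (b0 k v * (starRingEnd ℂ) (b0 l v)) := by
        intro v
        rw [Finset.sum_apply, Finset.sum_mul]
        refine Finset.sum_congr rfl fun k _ => ?_
        rw [Pi.smul_apply, smul_eq_mul]
        ring
      simp_rw [this]
      rw [Finset.sum_comm]
      simp_rw [← Finset.mul_sum, k2]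
      simp
    rw [← h3, h1]
    simp
  have hcard : Fintype.card (Fin g) = finrank ℂ (A0 P j) := by rw [Fintype.card_fin, hg]
  rcases Nat.eq_zero_or_pos g with hg0 | hg0
  · subst hg0
    have hsub : Subsingleton (A0 P j) := finrank_zero_iff.1 hg
    exact ⟨Basis.empty _, fun k => k.elim0⟩
  · have : Nonempty (Fin g) := ⟨⟨0, hg0⟩⟩
    refine ⟨basisOfLinearIndependentOfCardEqFinrank hLI hcard, fun k => ?_⟩
    rw [coe_basisOfLinearIndependentOfCardEqFinrank]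

theorem exists_eigenbasis {q : ℕ} [Fact q.Prime] (P : XY q) (j : ℕ) {g : ℕ}
    (hg : finrank ℂ (A0 P j) = g) :
    ∃ (b : Basis (Fin g) ℂ (A0 P j)) (lam : Fin g → ℕ → ℂ),
      ∀ k n, T P.act j n ((b k : A0 P j) : M2 q × Y j → ℂ) =
        lam k n • ((b k : A0 P j) : M2 q × Y j → ℂ) := by
  have hbasis := exists_basis (j := j) P
  rw [hg] at hbasis
  obtain ⟨b0, lam0, ch0, k1, k2, k3, k4, k5, k6⟩ := hbasis
  obtain ⟨b, hb⟩ := basis_of_on hg b0 k1 k2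
  exact ⟨b, lam0, fun k n => by rw [hb, k3]⟩

/-- the final theorem for one weight -/
theorem final (j : ℕ) : ∃ η q0 : ℝ, 0 < η ∧ 25 ≤ q0 ∧ ∀ (q : ℕ) [Fact q.Prime] (P : XY q), q0 ≤ q →
    ∀ (g : ℕ) (b : Basis (Fin g) ℂ (A0 P j)) (lam : Fin g → ℕ → ℂ),
      (∀ k n, T P.act j n ((b k : A0 P j) : M2 q × Y j → ℂ) =
        lam k n • ((b k : A0 P j) : M2 q × Y j → ℂ)) →
    ∃ F : Fin g → ℂ → ℂ,
      (∀ k, Differentiable ℂ (F k) ∧
        (∀ s : ℂ, (9 + j : ℝ) / 2 < s.re → F k s = ∑' n : ℕ, lam k n * (n : ℂ) ^ (-s)) ∧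
        (∃ w : ℂ, ‖w‖ = 1 ∧ ∀ s : ℂ, s.im ≠ 0 →
          Lam q (F k) s = w * (starRingEnd ℂ) (Lam q (F k) ((j : ℂ) + 2 - (starRingEnd ℂ) s))) ∧
        (∃ s, F k s ≠ 0) ∧ ∀ T : ℝ, 10 ≤ T → (zeroSet (F k) T).Finite) ∧
      ∀ T : ℝ, 40 * Real.log q ^ 2 ≤ T → T ≤ (q : ℝ) ^ η →
        0.6725 * ∑ k, (numZeros (F k) T : ℝ) ≤
          ∑ k, (numSimple (((j : ℝ) + 2) / 2) (F k) T : ℝ) ∧
        0.83625 * ∑ k, (numZeros (F k) T : ℝ) ≤ ∑ k, (numDistinct (F k) T : ℝ) ∧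
        (g : ℝ) * T * Real.log q / 5 ≤ ∑ k, (numZeros (F k) T : ℝ) := by
  obtain ⟨η, q0, hη, hη1, hq0, hmain⟩ := main_core ((j : ℤ) + 2) (by omega) 2 (by norm_num)
  obtain ⟨q1, hq1, hasym⟩ := asym j hη
  refine ⟨η, max q0 q1, hη, hq0.trans (le_max_left _ _), ?_⟩
  intro q _ P hq g b lam hb
  have hqp : q.Prime := Fact.out
  have hqq0 : q0 ≤ q := (le_max_left _ _).trans hq
  have hqq1 : q1 ≤ q := (le_max_right _ _).trans hq
  have hq25 : (25 : ℝ) ≤ q := hq0.trans hqq0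
  have hqn : 25 ≤ q := by exact_mod_cast hq25
  have hodd : Odd q := hqp.odd_of_ne_two (by omega)
  obtain ⟨d1, d2, d3⟩ := hasym q hqq1 P
  have hbasis := exists_basis (j := j) P
  have hg : finrank ℂ (A0 P j) = g := by
    rw [finrank_eq_card_basis b, Fintype.card_fin]
  rw [hg] at d1 d2 d3 hbasis
  obtain ⟨b0, lam0, ch0, k1, k2, k3, k4, k5, k6⟩ := hbasis
  have hne : ∀ k, b0 k ≠ 0 := by
    intro k h0
    have := k2 k k
    rw [h0] at this
    simp at this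
  have hE : ∀ k, Eig P j (b0 k) (lam0 k) (ch0 k) := fun k =>
    ⟨k1 k, hne k, k3 k, k4 k, k5 k, k6 k⟩
  obtain ⟨b', hb'k⟩ := basis_of_on hg b0 k1 k2
  have hTm : ∀ n : ℕ, ∀ Φ ∈ A0 P j, T P.act j n Φ ∈ A0 P j := fun n Φ h => T_mem n h
  obtain ⟨σ, hσ⟩ : ∃ σ : Fin g ≃ Fin g, ∀ k, lam k = lam0 (σ k) := by
    refine exists_perm (fun n => (T P.act j n).restrict (hTm n)) b b' lam lam0 ?_ ?_
    · intro k n
      apply Subtype.ext
      rw [LinearMap.coe_restrict_apply]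
      exact hb k n
    · intro k n
      apply Subtype.ext
      rw [LinearMap.coe_restrict_apply, hb'k, k3]
      simp [hb'k]
  -- the L-functions
  have hsqq : Real.sqrt ((q ^ 2 : ℕ) : ℝ) = q := by
    push_cast
    exact Real.sqrt_sq (by linarith)
  have hL : ∀ k, ∃ F : ℂ → ℂ, LF ((j : ℤ) + 2) 2 (Real.sqrt ((q ^ 2 : ℕ) : ℝ)) (eP (ch0 k))
      (ln j (lam0 k)) F := by
    intro k
    obtain ⟨F, hF1, hF2⟩ := (hE k).exists_L hodd
    rw [hsqq]
    exact ⟨F, ⟨(hE k).hecke, (hE k).ln_le, fun p _ => (hE k).eP_norm p⟩, hF1, hF2⟩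
  choose F hLF using hL
  have hFE : ∀ k, W388.FE2 ((j : ℤ) + 2) 2 q (F k) := by
    intro k
    have := (hLF k).fe
    rwa [hsqq] at this
  have hL1 : 1 ≤ Real.log q := by
    rw [Real.le_log_iff_exp_le (by linarith)]
    linarith [Real.exp_one_lt_d9]
  obtain ⟨A, hA, hgood⟩ := good ((j : ℤ) + 2) (by omega) 2 (by norm_num)
  have hq1' : (1 : ℝ) ≤ Real.sqrt ((q ^ 2 : ℕ) : ℝ) := by rw [hsqq]; linarith
  -- zeros lie in the strip
  have hz : ∀ (i : Fin g) (T : ℝ), 10 ≤ T → ∀ w : ℂ, T < w.im → F i (w - (1 / 2 : ℝ)) = 0 →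
      -4 < w.re ∧ w.re < 6 := by
    intro i T hT10 w hw h0
    have hG := hgood _ hq1' _ _ _ (hLF i)
    have e0 : GF (F i) ((w + 4) / 10) = 0 := by
      unfold GF
      rw [show (10 : ℂ) * ((w + 4) / 10) - 9 / 2 = w - (1 / 2 : ℝ) by push_cast; ring]
      exact h0
    have hre : ((w + 4) / 10 : ℂ).re = (w.re + 4) / 10 := by
      rw [show (10 : ℂ) = ((10 : ℝ) : ℂ) by norm_num, Complex.div_ofReal_re]
      simp
    have him : ((w + 4) / 10 : ℂ).im = w.im / 10 := by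
      rw [show (10 : ℂ) = ((10 : ℝ) : ℂ) by norm_num, Complex.div_ofReal_im]
      simp
    constructor
    · by_contra hcon
      push Not at hcon
      exact hG.nzl _ (by rw [hre]; linarith) (by rw [him]; linarith) e0
    · by_contra hcon
      push Not at hcon
      exact hG.nzr _ (by rw [hre]; linarith) (by rw [him]; linarith) e0
  -- the shift from weight two to weight `j + 2`
  set F2 : Fin g → ℂ → ℂ := fun i s => F i (s - (1 / 2 : ℝ)) with hF2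
  have hsh : ∀ i, (fun s : ℂ => F i (s - (((j : ℝ) + 1) / 2 : ℝ))) =
      fun s : ℂ => F2 i (s - (((j : ℝ) / 2 : ℝ) : ℂ)) := by
    intro i
    funext s
    rw [hF2]
    simp only
    congr 1
    push_cast
    ring
  have hGF : ∀ i, GF (F i) = fun s => F2 i (10 * s - 4) := by
    intro i
    funext s
    rw [hF2]
    unfold GF
    simp only
    congr 1
    push_cast
    ring
  refine ⟨fun k s => F (σ k) (s - (((j : ℝ) + 1) / 2 : ℝ)), fun k => ⟨?_, ?_, ?_, ?_, ?_⟩, ?_⟩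
  · exact (hLF (σ k)).diff.comp (differentiable_id.sub_const _)
  · intro s hs
    change F (σ k) (s - (((j : ℝ) + 1) / 2 : ℝ)) = _
    rw [(hLF (σ k)).ds (s - (((j : ℝ) + 1) / 2 : ℝ)) (by
      rw [sub_re, ofReal_re]; linarith), hσ k]
    refine tsum_congr fun n => ?_
    rw [← ds_eq (hE (σ k)).lam_zero]
    congr 3
    push_cast
    ring
  · exact Lam_fe hqp.pos (hFE (σ k))
  · refine ⟨((11 / 2 : ℝ) : ℂ) + (((j : ℝ) + 1) / 2 : ℝ), ?_⟩
    simp only [add_sub_cancel_right]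
    exact (hLF (σ k)).ne_zero (by rw [ofReal_re])
  · intro T hT
    have hG := hgood _ hq1' _ _ _ (hLF (σ k))
    have h1 := W388.zset_finite_D hA hq1' hG (T / 10) (2 * (T / 10)) (by linarith)
    change (zeroSet (fun s => F (σ k) (s - (((j : ℝ) + 1) / 2 : ℝ))) T).Finite
    rw [hsh, sh_set']
    apply Set.Finite.image
    rw [hGF] at h1
    rw [← zset_image (L := F2 (σ k)) (T := T) (hz (σ k) T hT)]
    exact h1.image _
  · intro T hT1 hT2
    have hL25 : 0 ≤ Real.log q ^ 2 := sq_nonneg _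
    have hT10 : 10 ≤ T := by nlinarith
    have hlog2 : Real.log ((q ^ 2 : ℕ) : ℝ) = 2 * Real.log q := by
      push_cast
      rw [Real.log_pow]
      norm_num
    have hsec : SM (q ^ 2) g (fun k => eP (ch0 k)) (fun k => ln j (lam0 k))
        ((gl q : ℝ) * ((j : ℝ) + 1) / 24) := by
      intro M hM c
      have := second b0 lam0 ch0 hE k2 M hM c
      rwa [dj_eq] at this
    obtain ⟨m1, m2, m3⟩ := hmain (q ^ 2) (by
        push_cast
        nlinarith) g (fun k => eP (ch0 k)) (fun k => ln j (lam0 k))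
      ((gl q : ℝ) * ((j : ℝ) + 1) / 24) d1 d2 d3 hsec F hLF (T / 10) (by
        rw [hlog2]
        nlinarith) (by
        have h1 : T / 10 ≤ T := by linarith
        refine (h1.trans hT2).trans ?_
        apply Real.rpow_le_rpow (by linarith) _ hη.le
        push_cast
        nlinarith)
    have c1 : ∀ i, NN (GF (F i)) (T / 10) (2 * (T / 10)) =
        numZeros (fun s => F i (s - (((j : ℝ) + 1) / 2 : ℝ))) T := by
      intro i
      rw [hsh, sh_N, hGF]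
      exact cnt_N (L := F2 i) (hz i T hT10)
    have c2 : ∀ i, Nd (GF (F i)) (T / 10) (2 * (T / 10)) =
        numDistinct (fun s => F i (s - (((j : ℝ) + 1) / 2 : ℝ))) T := by
      intro i
      rw [hsh, sh_d, hGF]
      exact cnt_d (L := F2 i) (hz i T hT10)
    have c3 : ∀ i, Ns (GF (F i)) (T / 10) (2 * (T / 10)) =
        numSimple (((j : ℝ) + 2) / 2) (fun s => F i (s - (((j : ℝ) + 1) / 2 : ℝ))) T := by
      intro i
      have e : ((j : ℝ) + 2) / 2 = 1 + (j : ℝ) / 2 := by ring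
      rw [hsh, e, sh_s, hGF]
      exact cnt_s' (L := F2 i) (hz i T hT10)
    simp only [c1, c2, c3] at m1 m2 m3
    rw [hlog2] at m3
    rw [Finset.sum_sub_distrib, ← Finset.mul_sum] at m1
    rw [Finset.sum_sub_distrib, ← Finset.mul_sum, ← Finset.mul_sum] at m2
    have r1 : ∑ k, (numZeros (fun s => F (σ k) (s - (((j : ℝ) + 1) / 2 : ℝ))) T : ℝ) =
        ∑ k, (numZeros (fun s => F k (s - (((j : ℝ) + 1) / 2 : ℝ))) T : ℝ) :=
      Equiv.sum_comp σ (fun i => (numZeros (fun s => F i (s - (((j : ℝ) + 1) / 2 : ℝ))) T : ℝ))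
    have r2 : ∑ k, (numSimple (((j : ℝ) + 2) / 2)
          (fun s => F (σ k) (s - (((j : ℝ) + 1) / 2 : ℝ))) T : ℝ) =
        ∑ k, (numSimple (((j : ℝ) + 2) / 2) (fun s => F k (s - (((j : ℝ) + 1) / 2 : ℝ))) T : ℝ) :=
      Equiv.sum_comp σ (fun i => (numSimple (((j : ℝ) + 2) / 2)
        (fun s => F i (s - (((j : ℝ) + 1) / 2 : ℝ))) T : ℝ))
    have r3 : ∑ k, (numDistinct (fun s => F (σ k) (s - (((j : ℝ) + 1) / 2 : ℝ))) T : ℝ) =
        ∑ k, (numDistinct (fun s => F k (s - (((j : ℝ) + 1) / 2 : ℝ))) T : ℝ) :=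
      Equiv.sum_comp σ (fun i => (numDistinct (fun s => F i (s - (((j : ℝ) + 1) / 2 : ℝ))) T : ℝ))
    rw [r1, r2, r3]
    refine ⟨?_, ?_, ?_⟩
    · linarith
    · linarith
    · linarith

end Pool.Agent.Zk20.KS
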