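import Pool.Agent.Zk20.KS.Ops
import Pool.Agent.N880.HQ.Basis

/-! # Functions on the two by two matrices modulo `q` with values in the tensor powers -/

set_option autoImplicit false

open Complex Matrix

namespace Pool.Agent.Zk20.KS

open Pool.Agent.N880.HQ (Hur S mem_S mat mat_mul mat_one mat_natCast mat_conj mat_det mat_intCast sy
  sy_vecMul sy_neg sum_sy sy_sub_left conj_char sum_conj_S conj_mem_S)
open Pool.Agent.N880.HQ.Hur (conj nrm nrm_mul nrm_conj conj_mul_self)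

variable {q : ℕ} [Fact q.Prime]

/-- the two by two matrices modulo `q` -/
abbrev M2 (q : ℕ) : Type := Matrix (Fin 2) (Fin 2) (ZMod q)

/-- the data of a splitting of the Hurwitz order modulo the odd prime `q` -/
structure XY (q : ℕ) [Fact q.Prime] where
  /-- first coordinate -/
  x : ZMod q
  /-- second coordinate -/
  y : ZMod q
  h2 : (2 : ZMod q) ≠ 0
  hxy : x ^ 2 + y ^ 2 = -1

namespace XY
variable (P : XY q)

/-- the matrix of a quaternion -/
def m (α : Hur) : M2 q := mat P.x P.y α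

lemma m_mul (α β : Hur) : P.m (α * β) = P.m α * P.m β := mat_mul P.h2 P.hxy α β
lemma m_one : P.m 1 = 1 := mat_one P.h2
lemma m_natCast (n : ℕ) : P.m (n : Hur) = (n : ZMod q) • 1 := mat_natCast P.h2 n
lemma m_intCast (n : ℤ) : P.m (n : Hur) = (n : ZMod q) • 1 := mat_intCast P.h2 n
lemma m_det (α : Hur) : (P.m α).det = ((nrm α : ℤ) : ZMod q) := mat_det P.h2 P.hxy α
lemma m_conj (α : Hur) : P.m (conj α) = (P.m α).adjugate := mat_conj P.h2 α

/-- the right action on the matrices -/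
def act : Act (M2 q) where
  act g α := g * P.m α
  one g := by rw [P.m_one, mul_one]
  mul g α β := by rw [P.m_mul, mul_assoc]

lemma act_act (g : M2 q) (α : Hur) : P.act.act g α = g * P.m α := rfl

end XY

/-- the pairing of two matrices -/
def BB (g h : M2 q) : ZMod q := sy (g 0) (h 0) + sy (g 1) (h 1)

lemma BB_mul (P : XY q) (g h : M2 q) (α : Hur) : BB g (h * P.m α) = BB (g * P.m (conj α)) h := by
  unfold BB
  have e : ∀ (a b : Fin 2 → ZMod q), sy (a ᵥ* P.m (conj α)) b = sy a (b ᵥ* P.m α) := by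
    intro a b
    rw [P.m_conj, sy_vecMul, Matrix.adjugate_adjugate _ (by decide)]
    simp
  rw [Matrix.mul_apply_eq_vecMul, Matrix.mul_apply_eq_vecMul, Matrix.mul_apply_eq_vecMul,
    Matrix.mul_apply_eq_vecMul, e, e]

lemma BB_sub (a b h : M2 q) : BB (a - b) h = BB a h - BB b h := by
  simp [BB, sy]
  ring

lemma BB_symm (a b : M2 q) : BB a b = - BB b a := by
  simp only [BB, sy]
  ring

lemma BB_smul (c : ZMod q) (a b : M2 q) : BB (c • a) b = BB a (c • b) := by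
  simp [BB, sy]
  ring

lemma sum_mat (f : (Fin 2 → ZMod q) → (Fin 2 → ZMod q) → ℂ) :
    ∑ g : M2 q, f (g 0) (g 1) = ∑ u, ∑ v, f u v := by
  rw [← Fintype.sum_prod_type' (f := f)]
  rw [← (finTwoArrowEquiv (Fin 2 → ZMod q)).sum_comp
    (g := fun p : (Fin 2 → ZMod q) × (Fin 2 → ZMod q) => f p.1 p.2)]
  exact ((Matrix.of (m := Fin 2) (n := Fin 2) (α := ZMod q)).sum_comp
    (fun g : M2 q => f (g 0) (g 1))).symm

lemma sum_BB (a : M2 q) : ∑ h : M2 q, (ZMod.stdAddChar (BB a h) : ℂ) =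
    if a = 0 then (q : ℂ) ^ 4 else 0 := by
  have h1 : ∑ h : M2 q, (ZMod.stdAddChar (BB a h) : ℂ) =
      ∑ u : Fin 2 → ZMod q, ∑ v : Fin 2 → ZMod q,
        (ZMod.stdAddChar (sy (a 0) u) : ℂ) * ZMod.stdAddChar (sy (a 1) v) := by
    rw [← sum_mat]
    refine Finset.sum_congr rfl fun h _ => ?_
    rw [BB, AddChar.map_add_eq_mul]
  rw [h1]
  simp_rw [← Finset.mul_sum, ← Finset.sum_mul, sum_sy]
  by_cases h0 : a 0 = 0 <;> by_cases h1 : a 1 = 0
  · have : a = 0 := by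
      ext i j
      fin_cases i
      · exact congrFun h0 j
      · exact congrFun h1 j
    rw [if_pos h0, if_pos h1, if_pos this]
    ring
  · have : a ≠ 0 := fun h => h1 (by rw [h]; rfl)
    rw [if_neg h1, if_neg this, mul_zero]
  · have : a ≠ 0 := fun h => h0 (by rw [h]; rfl)
    rw [if_neg h0, if_neg this, zero_mul]
  · have : a ≠ 0 := fun h => h0 (by rw [h]; rfl)
    rw [if_neg h0, if_neg this, zero_mul]

/-- the Fourier transform -/
noncomputable def FT (j : ℕ) : (M2 q × Y j → ℂ) →ₗ[ℂ] (M2 q × Y j → ℂ) where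
  toFun Φ p := ∑ g : M2 q, Φ (g, p.2) * ZMod.stdAddChar (BB g p.1)
  map_add' Φ Ψ := by
    funext p
    simp [add_mul, Finset.sum_add_distrib]
  map_smul' c Φ := by
    funext p
    simp only [Pi.smul_apply, smul_eq_mul, RingHom.id_apply, Finset.mul_sum]
    exact Finset.sum_congr rfl fun b _ => by ring

/-- dilation -/
def Dc (j : ℕ) (c : ZMod q) : (M2 q × Y j → ℂ) →ₗ[ℂ] (M2 q × Y j → ℂ) where
  toFun Φ p := Φ (c • p.1, p.2)
  map_add' _ _ := rfl
  map_smul' _ _ := rfl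

variable {j : ℕ}

lemma FT_apply (Φ : M2 q × Y j → ℂ) (p : M2 q × Y j) :
    FT j Φ p = ∑ g : M2 q, Φ (g, p.2) * ZMod.stdAddChar (BB g p.1) := rfl

lemma Dc_apply (c : ZMod q) (Φ : M2 q × Y j → ℂ) (p : M2 q × Y j) :
    Dc j c Φ p = Φ (c • p.1, p.2) := rfl

lemma Dc_Dc (c d : ZMod q) (Φ : M2 q × Y j → ℂ) : Dc j c (Dc j d Φ) = Dc j (c * d) Φ := by
  funext p
  rw [Dc_apply, Dc_apply, Dc_apply, smul_smul, mul_comm]

lemma Dc_one (Φ : M2 q × Y j → ℂ) : Dc j (1 : ZMod q) Φ = Φ := by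
  funext p
  rw [Dc_apply, one_smul]

lemma Dn_eq (P : XY q) (n : ℕ) (Φ : M2 q × Y j → ℂ) : Dn P.act j n Φ = Dc j (n : ZMod q) Φ := by
  funext p
  rw [Dn_apply, Dc_apply, P.act_act, P.m_natCast, Matrix.mul_smul, mul_one]

lemma Dc_R (P : XY q) (c : ZMod q) (α : Hur) (Φ : M2 q × Y j → ℂ) :
    Dc j c (R P.act j α Φ) = R P.act j α (Dc j c Φ) := by
  funext p
  rw [Dc_apply, R_apply, R_apply]
  refine Finset.sum_congr rfl fun b _ => ?_
  rw [Dc_apply, P.act_act, P.act_act, Matrix.smul_mul]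

lemma Dc_T (P : XY q) (c : ZMod q) (n : ℕ) (Φ : M2 q × Y j → ℂ) :
    Dc j c (T P.act j n Φ) = T P.act j n (Dc j c Φ) := by
  rw [T_apply, T_apply, map_smul, map_sum]
  simp_rw [Dc_R]

/-- Fourier inversion -/
lemma FT_FT (Φ : M2 q × Y j → ℂ) : FT j (FT j Φ) = (q : ℂ) ^ 4 • Φ := by
  funext p
  rw [FT_apply]
  simp_rw [FT_apply, Finset.sum_mul]
  rw [Finset.sum_comm]
  have h : ∀ g h : M2 q, Φ (g, p.2) * (ZMod.stdAddChar (BB g h) : ℂ) * ZMod.stdAddChar (BB h p.1) =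
      Φ (g, p.2) * ZMod.stdAddChar (BB (g - p.1) h) := by
    intro g h
    rw [mul_assoc, ← AddChar.map_add_eq_mul, BB_sub, BB_symm h p.1, ← sub_eq_add_neg]
  simp_rw [h, ← Finset.mul_sum, sum_BB, sub_eq_zero]
  simp [mul_comm]

/-- multiplication by the conjugate as a bijection -/
noncomputable def cE (P : XY q) (α : Hur) (hα : ((nrm α : ℤ) : ZMod q) ≠ 0) : M2 q ≃ M2 q where
  toFun g := g * P.m (conj α)
  invFun g := ((nrm α : ℤ) : ZMod q)⁻¹ • (g * P.m α)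
  left_inv g := by
    simp only
    rw [mul_assoc, ← P.m_mul, conj_mul_self, P.m_intCast, Matrix.mul_smul, mul_one, smul_smul,
      inv_mul_cancel₀ hα, one_smul]
  right_inv g := by
    simp only
    rw [Matrix.smul_mul, mul_assoc, ← P.m_mul, Hur.mul_conj, P.m_intCast, Matrix.mul_smul, mul_one,
      smul_smul, inv_mul_cancel₀ hα, one_smul]

lemma cE_apply (P : XY q) (α : Hur) (hα : ((nrm α : ℤ) : ZMod q) ≠ 0) (g : M2 q) :
    cE P α hα g = g * P.m (conj α) := rfl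

lemma cE_act (P : XY q) (α : Hur) (hα : ((nrm α : ℤ) : ZMod q) ≠ 0) (g : M2 q) :
    (((nrm α : ℤ) : ZMod q)⁻¹ • cE P α hα g) * P.m α = g := by
  rw [cE_apply, Matrix.smul_mul, mul_assoc, ← P.m_mul, conj_mul_self, P.m_intCast, Matrix.mul_smul,
    mul_one, smul_smul, inv_mul_cancel₀ hα, one_smul]

/-- `R_α` commutes with the Fourier transform up to a dilation -/
lemma R_FT (P : XY q) {α : Hur} (hα : ((nrm α : ℤ) : ZMod q) ≠ 0) (Φ : M2 q × Y j → ℂ) :
    R P.act j α (FT j Φ) = FT j (Dc j (((nrm α : ℤ) : ZMod q)⁻¹) (R P.act j α Φ)) := by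
  funext p
  rw [R_apply, FT_apply, ← (cE P α hα).sum_comp]
  simp_rw [FT_apply, Finset.mul_sum]
  rw [Finset.sum_comm]
  refine Finset.sum_congr rfl fun g _ => ?_
  rw [Dc_apply, R_apply, Finset.sum_mul]
  refine Finset.sum_congr rfl fun b _ => ?_
  rw [P.act_act, P.act_act, cE_act, BB_mul, cE_apply]
  ring

lemma T_FT (P : XY q) {n : ℕ} (hn : ((n : ℕ) : ZMod q) ≠ 0) (Φ : M2 q × Y j → ℂ) :
    T P.act j n (FT j Φ) = FT j (Dc j ((n : ZMod q)⁻¹) (T P.act j n Φ)) := by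
  rw [T_apply, T_apply, map_smul, map_smul, map_sum, map_sum]
  congr 1
  refine Finset.sum_congr rfl fun α hα => ?_
  have h1 := mem_S.1 hα
  have h3 : ((nrm α : ℤ) : ZMod q) = (n : ZMod q) := by rw [h1]; push_cast; rfl
  rw [R_FT P (by rw [h3]; exact hn), h3]

/-- adjoint of `R_α` -/
lemma R_adj (P : XY q) {α : Hur} (hα : ((nrm α : ℤ) : ZMod q) ≠ 0) (Φ Ψ : M2 q × Y j → ℂ) :
    ∑ p, R P.act j α Φ p * (starRingEnd ℂ) (Ψ p) =
      ∑ p, Φ p * (starRingEnd ℂ) (Dc j (((nrm α : ℤ) : ZMod q)⁻¹) (R P.act j (conj α) Ψ) p) := by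
  rw [Fintype.sum_prod_type, Fintype.sum_prod_type, ← (cE P (conj α) (by rwa [nrm_conj])).symm.sum_comp]
  have e0 : ∀ g : M2 q, (cE P (conj α) (by rwa [nrm_conj])).symm g =
      ((nrm α : ℤ) : ZMod q)⁻¹ • (g * P.m (conj α)) := by
    intro g
    simp only [cE, Equiv.coe_fn_symm_mk, nrm_conj]
  refine Finset.sum_congr rfl fun g _ => ?_
  have e1 : ∀ a : Y j, R P.act j α Φ ((cE P (conj α) (by rwa [nrm_conj])).symm g, a) *
      (starRingEnd ℂ) (Ψ ((cE P (conj α) (by rwa [nrm_conj])).symm g, a)) =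
      ∑ b, rho j α a b * Φ (g, b) *
        (starRingEnd ℂ) (Ψ (((nrm α : ℤ) : ZMod q)⁻¹ • (g * P.m (conj α)), a)) := by
    intro a
    rw [R_apply, e0, Finset.sum_mul]
    refine Finset.sum_congr rfl fun b _ => ?_
    rw [P.act_act]
    simp only
    rw [Matrix.smul_mul, mul_assoc g, ← P.m_mul, conj_mul_self, P.m_intCast, Matrix.mul_smul,
      mul_one, smul_smul, inv_mul_cancel₀ hα, one_smul]
  simp_rw [e1]
  rw [Finset.sum_comm]
  refine Finset.sum_congr rfl fun b _ => ?_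
  rw [Dc_apply, R_apply, map_sum, Finset.mul_sum]
  refine Finset.sum_congr rfl fun a _ => ?_
  rw [map_mul, P.act_act, rho_conj, Complex.conj_conj, Matrix.smul_mul]
  ring

/-- the adjoint of the Hecke operator -/
noncomputable def Ts (P : XY q) (j n : ℕ) : (M2 q × Y j → ℂ) →ₗ[ℂ] (M2 q × Y j → ℂ) :=
  Dc j ((n : ZMod q)⁻¹) ∘ₗ T P.act j n

lemma Ts_apply (P : XY q) (n : ℕ) (Φ : M2 q × Y j → ℂ) :
    Ts P j n Φ = Dc j ((n : ZMod q)⁻¹) (T P.act j n Φ) := rfl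

lemma T_adj (P : XY q) {n : ℕ} (hn : ((n : ℕ) : ZMod q) ≠ 0) (Φ Ψ : M2 q × Y j → ℂ) :
    ∑ p, T P.act j n Φ p * (starRingEnd ℂ) (Ψ p) = ∑ p, Φ p * (starRingEnd ℂ) (Ts P j n Ψ p) := by
  have e1 : ∀ p, T P.act j n Φ p * (starRingEnd ℂ) (Ψ p) = ∑ α ∈ S n, (1 / 24 : ℂ) *
      (R P.act j α Φ p * (starRingEnd ℂ) (Ψ p)) := by
    intro p
    rw [T_apply', Finset.mul_sum, Finset.sum_mul]
    exact Finset.sum_congr rfl fun α _ => by ring
  have e2 : ∀ p, Φ p * (starRingEnd ℂ) (Ts P j n Ψ p) = ∑ α ∈ S n, (1 / 24 : ℂ) *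
      (Φ p * (starRingEnd ℂ) (Dc j ((n : ZMod q)⁻¹) (R P.act j (conj α) Ψ) p)) := by
    intro p
    rw [Ts_apply, Dc_apply, T_apply', ← sum_conj_S n (fun α => R P.act j α Ψ _), Finset.mul_sum,
      map_sum, Finset.mul_sum]
    refine Finset.sum_congr rfl fun α _ => ?_
    rw [map_mul, Dc_apply]
    simp only [map_div₀, map_one, map_ofNat]
    ring
  simp_rw [e1, e2]
  rw [Finset.sum_comm, Finset.sum_comm (s := Finset.univ) (t := S n)]
  refine Finset.sum_congr rfl fun α hα => ?_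
  have h3 : ((nrm α : ℤ) : ZMod q) = (n : ZMod q) := by rw [mem_S.1 hα]; push_cast; rfl
  rw [← Finset.mul_sum, ← Finset.mul_sum, R_adj P (by rw [h3]; exact hn), h3]

lemma Dc_adj {c : ZMod q} (hc : c ≠ 0) (Φ Ψ : M2 q × Y j → ℂ) :
    ∑ p, Dc j c Φ p * (starRingEnd ℂ) (Ψ p) = ∑ p, Φ p * (starRingEnd ℂ) (Dc j c⁻¹ Ψ p) := by
  rw [Fintype.sum_prod_type, Fintype.sum_prod_type]
  have hb : Function.Bijective (fun g : M2 q => c⁻¹ • g) :=
    (Finite.injective_iff_bijective).1 (smul_right_injective _ (inv_ne_zero hc))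
  rw [← (Equiv.ofBijective _ hb).sum_comp]
  refine Finset.sum_congr rfl fun g _ => Finset.sum_congr rfl fun a _ => ?_
  rw [Dc_apply, Dc_apply, Equiv.ofBijective_apply]
  simp only
  rw [smul_smul, mul_inv_cancel₀ hc, one_smul]

end Pool.Agent.Zk20.KS
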