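import Pool.Agent.N615.Wide

/-! # Analytic consequences of the functional equation of weight `k` in wide strips

Adapted from `Pool.Agent.N615.Wide` (weight two). -/

set_option autoImplicit false

open Complex Filter Topology Set MeasureTheory Asymptotics
open H370.DL (refl hasDerivAt_refl analyticAt_refl im_osc re_osc eventually_im_ne
  ne_neg_nat_of_im logDeriv_refl order_refl)
open W388 (GG FE2)
open Pool.Agent.W820.TW
open Pool.Agent.N615.Wide (inv_Gamma_wide digamma_wide Gamma_add_nat)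

namespace Pool.Agent.Zk20.KS.WideK

/-- size of the factor on the line `Re s = (1 - n) / 2` -/
theorem norm_LX_wide (n : ℕ) (hn : 2 ≤ n) (c : ℝ) (hc : 1 / 2 ≤ c) (w : ℂ) (hw : ‖w‖ = 1) (κ : ℝ)
    (hκ : 0 < κ) {s : ℂ} (hre : s.re = (1 - (n : ℝ)) / 2) (hs : s.im ≠ 0) :
    ‖LX w κ c s‖ ≤ κ ^ n * ((n : ℝ) / 2 + c + |s.im|) ^ n := by
  have hn2 : (2 : ℝ) ≤ n := by exact_mod_cast hn
  have him2 : (s + (c : ℂ)).im ≠ 0 := by simpa using hs
  have hg2 := Gamma_ne_zero (ne_neg_nat_of_im him2)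
  set u : ℂ := (starRingEnd ℂ) (s + (c : ℂ)) with hu
  have hure : u.re = (1 - (n : ℝ)) / 2 + c := by
    rw [hu, conj_re, add_re, hre, ofReal_re]
  have huim : u.im = - s.im := by
    rw [hu, conj_im, add_im, ofReal_im, add_zero]
  have e1 : (1 + (c : ℂ) - s : ℂ) = u + n := by
    apply Complex.ext
    · simp only [sub_re, add_re, one_re, ofReal_re, hre, hure, natCast_re]; ring
    · simp only [sub_im, add_im, one_im, ofReal_im, huim, natCast_im]; ring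
  have hu0 : u.im ≠ 0 := by rw [huim]; simpa using hs
  have e2 : Gamma (1 + (c : ℂ) - s) = (∏ j ∈ Finset.range n, (u + j)) * Gamma u := by
    rw [e1, Gamma_add_nat u hu0]
  have e3 : ‖Gamma u‖ = ‖Gamma (s + (c : ℂ))‖ := by
    rw [hu, Complex.Gamma_conj, RCLike.norm_conj]
  have e4 : ‖(κ : ℂ) ^ (1 - 2 * s)‖ = κ ^ n := by
    rw [Complex.norm_cpow_eq_rpow_re_of_pos hκ]
    have : (1 - 2 * s).re = n := by
      simp only [sub_re, one_re, mul_re, re_ofNat, im_ofNat, hre]; ring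
    rw [this, Real.rpow_natCast]
  have e5 : ‖∏ j ∈ Finset.range n, (u + (j : ℂ))‖ ≤ ((n : ℝ) / 2 + c + |s.im|) ^ n := by
    rw [norm_prod]
    calc ∏ j ∈ Finset.range n, ‖u + (j : ℂ)‖
        ≤ ∏ j ∈ Finset.range n, ((n : ℝ) / 2 + c + |s.im|) := by
          apply Finset.prod_le_prod (fun _ _ => norm_nonneg _)
          intro j hj
          refine (norm_le_abs_re_add_abs_im (u + j)).trans ?_
          rw [add_re, add_im, hure, huim, natCast_re, natCast_im, add_zero, abs_neg]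
          have hj1 : (j : ℝ) + 1 ≤ n := by exact_mod_cast (Finset.mem_range.mp hj)
          have hj0 : (0 : ℝ) ≤ j := Nat.cast_nonneg j
          have : |(1 - (n : ℝ)) / 2 + c + j| ≤ (n : ℝ) / 2 + c := by
            rw [abs_le]; constructor <;> linarith
          linarith
      _ = _ := by simp
  have hGn : ‖Gamma (s + (c : ℂ))‖ ≠ 0 := norm_ne_zero_iff.mpr hg2
  unfold LX
  rw [norm_div, norm_mul, norm_mul, e4, hw, e2, norm_mul, e3]
  calc κ ^ n * 1 * (‖∏ j ∈ Finset.range n, (u + (j : ℂ))‖ * ‖Gamma (s + (c : ℂ))‖) /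
        ‖Gamma (s + (c : ℂ))‖
      = κ ^ n * ‖∏ j ∈ Finset.range n, (u + (j : ℂ))‖ := by field_simp
    _ ≤ _ := by gcongr

theorem F_left_edge_wide (n : ℕ) (hn : 2 ≤ n) {k : ℤ} {c : ℝ} (hkc : ((k : ℝ) - 1) / 2 = c)
    (hc : 1 / 2 ≤ c) {N Q B : ℝ} (hN : 1 ≤ N) (hQ : 1 ≤ Q)
    {F : ℂ → ℂ} (hF : FE2 k N Q F) (hB : ∀ s : ℂ, ((n : ℝ) + 1) / 2 ≤ s.re → ‖F s‖ ≤ B)
    (s : ℂ) (hs : s.re = (1 - (n : ℝ)) / 2) :
    ‖F s‖ ≤ B * (Real.sqrt N * Q) ^ n * ((n : ℝ) / 2 + c + |s.im|) ^ n := by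
  have hB0 : 0 ≤ B := (norm_nonneg _).trans (hB (((((n : ℝ) + 1) / 2 : ℝ)) : ℂ) (by simp))
  have hsq : 0 < Real.sqrt N := Real.sqrt_pos.mpr (by linarith)
  have hpi := Real.pi_pos
  have hpi3 := Real.pi_gt_three
  have hκ : 0 < Real.sqrt N * Q / (2 * Real.pi) := by positivity
  obtain ⟨w, hw, hfe⟩ := fe_asym hN hQ hF
  rw [hkc] at hfe
  have hκ2 : (Real.sqrt N * Q / (2 * Real.pi)) ^ n ≤ (Real.sqrt N * Q) ^ n := by
    apply pow_le_pow_left₀ hκ.le
    apply div_le_self (by positivity)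
    linarith
  have key : ∀ z : ℂ, z.re = (1 - (n : ℝ)) / 2 → z.im ≠ 0 →
      ‖F z‖ ≤ B * (Real.sqrt N * Q) ^ n * ((n : ℝ) / 2 + c + |z.im|) ^ n := by
    intro z hz him
    rw [hfe z him, norm_mul]
    have e1 := norm_LX_wide n hn c hc w hw _ hκ hz him
    have e2 : ‖refl F z‖ ≤ B := by
      unfold H370.DL.refl
      rw [RCLike.norm_conj]
      apply hB
      rw [re_osc, hz]
      linarith
    calc ‖LX w (Real.sqrt N * Q / (2 * Real.pi)) c z‖ * ‖refl F z‖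
        ≤ ((Real.sqrt N * Q / (2 * Real.pi)) ^ n * ((n : ℝ) / 2 + c + |z.im|) ^ n) * B := by gcongr
      _ ≤ ((Real.sqrt N * Q) ^ n * ((n : ℝ) / 2 + c + |z.im|) ^ n) * B := by gcongr
      _ = _ := by ring
  have hsv : s = (((1 - (n : ℝ)) / 2 : ℝ) : ℂ) + (s.im : ℂ) * I := by
    apply Complex.ext
    · simp only [add_re, ofReal_re, mul_re, I_re, mul_zero, ofReal_im, I_im, mul_one, sub_self,
        add_zero, hs]
    · simp only [add_im, ofReal_im, mul_im, ofReal_re, I_im, mul_one, I_re, mul_zero, add_zero,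
        zero_add]
  have hcont : Continuous F := hF.diff.continuous
  have h1 : Continuous (fun t : ℝ => ‖F ((((1 - (n : ℝ)) / 2 : ℝ) : ℂ) + (t : ℂ) * I)‖) := by
    fun_prop
  have h2 : Continuous (fun t : ℝ => B * (Real.sqrt N * Q) ^ n * ((n : ℝ) / 2 + c + |t|) ^ n) := by
    fun_prop
  have h3 : ∀ t ∈ closure ({0}ᶜ : Set ℝ), ‖F ((((1 - (n : ℝ)) / 2 : ℝ) : ℂ) + (t : ℂ) * I)‖ ≤
      B * (Real.sqrt N * Q) ^ n * ((n : ℝ) / 2 + c + |t|) ^ n := by
    intro t ht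
    refine closure_minimal ?_ (isClosed_le h1 h2) ht
    intro t ht
    have him : ((((1 - (n : ℝ)) / 2 : ℝ) : ℂ) + (t : ℂ) * I).im = t := by
      simp only [add_im, ofReal_im, mul_im, ofReal_re, I_im, mul_one, I_re, mul_zero, add_zero,
        zero_add]
    have hre : ((((1 - (n : ℝ)) / 2 : ℝ) : ℂ) + (t : ℂ) * I).re = (1 - (n : ℝ)) / 2 := by
      simp only [add_re, ofReal_re, mul_re, I_re, mul_zero, ofReal_im, I_im, mul_one, sub_self,
        add_zero]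
    have := key ((((1 - (n : ℝ)) / 2 : ℝ) : ℂ) + (t : ℂ) * I) hre (by rw [him]; exact ht)
    rw [him] at this
    exact this
  have h4 : closure ({0}ᶜ : Set ℝ) = univ := by
    rw [closure_compl_singleton]
  have h5 := h3 s.im (by rw [h4]; trivial)
  rwa [← hsv] at h5

/-- the auxiliary function -/
noncomputable def HW (n : ℕ) (Q : ℝ) (F : ℂ → ℂ) (s : ℂ) : ℂ :=
  F s * (Q : ℂ) ^ (s - ((n : ℂ) + 1) / 2) * ((s + (n + 3)) ^ n)⁻¹

theorem HW_bound (n : ℕ) (hn : 2 ≤ n) {k : ℤ} {c : ℝ} (hkc : ((k : ℝ) - 1) / 2 = c)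
    (hc : 1 / 2 ≤ c) {N Q B : ℝ} (hN : 1 ≤ N) (hQ : 1 ≤ Q) (hB1 : 1 ≤ B)
    {F : ℂ → ℂ} (hF : FE2 k N Q F) (hB : ∀ s : ℂ, ((n : ℝ) + 1) / 2 ≤ s.re → ‖F s‖ ≤ B) (s : ℂ)
    (h1 : (1 - (n : ℝ)) / 2 ≤ s.re) (h2 : s.re ≤ ((n : ℝ) + 1) / 2) :
    ‖HW n Q F s‖ ≤ B * ((2 + c) * Real.sqrt N) ^ n := by
  have hn2 : (2 : ℝ) ≤ n := by exact_mod_cast hn
  have hsq1 : 1 ≤ Real.sqrt N := by
    rw [Real.one_le_sqrt]; exact hN
  have hQ0 : (0 : ℝ) < Q := by linarith
  have hQC : (Q : ℂ) ≠ 0 := by exact_mod_cast hQ0.ne'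
  have hree : ∀ z : ℂ, (z - ((n : ℂ) + 1) / 2).re = z.re - ((n : ℝ) + 1) / 2 := by
    intro z
    have : (((n : ℂ) + 1) / 2) = ((((n : ℝ) + 1) / 2 : ℝ) : ℂ) := by push_cast; ring
    rw [Complex.sub_re, this, ofReal_re]
  have hqn : ∀ z : ℂ, ‖(Q : ℂ) ^ (z - ((n : ℂ) + 1) / 2)‖ = Q ^ (z.re - ((n : ℝ) + 1) / 2) := by
    intro z
    rw [Complex.norm_cpow_eq_rpow_re_of_pos hQ0, hree]
  have hs3 : ∀ z : ℂ, ‖((z + (n + 3)) ^ n)⁻¹‖ = (‖z + (n + 3)‖ ^ n)⁻¹ := by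
    intro z; rw [norm_inv, norm_pow]
  have hre3 : ∀ z : ℂ, (z + (n + 3)).re = z.re + (n + 3) := by
    intro z; simp
  have him3 : ∀ z : ℂ, (z + (n + 3)).im = z.im := by
    intro z; simp
  refine PhragmenLindelof.vertical_strip (f := HW n Q F) (a := (1 - (n : ℝ)) / 2)
    (b := ((n : ℝ) + 1) / 2) ?_ ?_ ?_ ?_ h1 h2
  · -- differentiability
    have hd : DifferentiableOn ℂ (HW n Q F) {z : ℂ | -((n : ℝ) + 3) < z.re} := by
      intro z hz
      have hz' : -((n : ℝ) + 3) < z.re := hz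
      have hz3 : (z + (n + 3)) ^ n ≠ 0 := by
        apply pow_ne_zero
        intro h
        have := congrArg Complex.re h
        rw [hre3] at this
        simp at this
        linarith
      apply DifferentiableAt.differentiableWithinAt
      unfold HW
      refine ((hF.diff z).mul ?_).mul ?_
      · exact DifferentiableAt.const_cpow (by fun_prop) (Or.inl hQC)
      · exact DifferentiableAt.inv (by fun_prop) hz3
    apply DifferentiableOn.diffContOnCl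
    apply hd.mono
    refine (Complex.continuous_re.closure_preimage_subset _).trans ?_
    intro z hz
    have hz' : z.re ∈ closure (Ioo ((1 - (n : ℝ)) / 2) (((n : ℝ) + 1) / 2)) := hz
    rw [closure_Ioo (by linarith)] at hz'
    have := hz'.1
    change -((n : ℝ) + 3) < z.re
    linarith
  · -- growth
    obtain ⟨M, D, hM0, hD0, hM⟩ := inv_Gamma_wide n
    obtain ⟨C, hC'⟩ := hF.vert ((1 - (n : ℝ)) / 2) (((n : ℝ) + 1) / 2)
    have hsq : 0 < Real.sqrt N := Real.sqrt_pos.mpr (by linarith)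
    have hpi := Real.pi_pos
    set κ : ℝ := Real.sqrt N * Q / (2 * Real.pi) with hκd
    have hκ : 0 < κ := by positivity
    have hκc : (κ : ℂ) ≠ 0 := ofReal_ne_zero.mpr hκ.ne'
    refine ⟨1 / (n : ℝ), ?_, D * n, ?_⟩
    · rw [show (((n : ℝ) + 1) / 2 - (1 - (n : ℝ)) / 2) = n by ring]
      apply div_lt_div_of_pos_right _ (by linarith)
      linarith [Real.pi_gt_three]
    set a1 : ℝ := (1 - (n : ℝ)) / 2 with ha1
    set b1 : ℝ := ((n : ℝ) + 1) / 2 with hb1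
    refine IsBigO.of_bound (M * (κ ^ (-a1) + κ ^ (-b1)) * C) ?_
    rw [eventually_inf_principal]
    have hev : ∀ᶠ z : ℂ in comap (abs ∘ Complex.im) atTop, 1 ≤ |z.im| := by
      have := (eventually_ge_atTop (1 : ℝ)).comap (abs ∘ Complex.im)
      exact this
    filter_upwards [hev] with z hz1 hz2
    have hz2' : z.re ∈ Ioo a1 b1 := hz2
    have hre : (z + (c : ℂ)).re = z.re + c := by
      rw [add_re, ofReal_re]
    have him : (z + (c : ℂ)).im = z.im := by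
      rw [add_im, ofReal_im, add_zero]
    have e1 := hM (z + (c : ℂ)) (by rw [hre]; linarith [hz2'.1]) (by rw [him]; exact hz1)
    rw [him] at e1
    have e2 := hC' z hz2'.1.le hz2'.2.le hz1
    have hz0 : z.im ≠ 0 := by
      intro h; rw [h, abs_zero] at hz1; linarith
    have hGG : GG k N Q z = (κ : ℂ) ^ z * Gamma (z + (c : ℂ)) := by
      have hcc : ((k : ℂ) - 1) / 2 = (c : ℂ) := by rw [← hkc]; push_cast; ring
      unfold GG; rw [hcc]
    have hg : Gamma (z + (c : ℂ)) ≠ 0 :=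
      Gamma_ne_zero (ne_neg_nat_of_im (by rw [him]; exact hz0))
    have hp : (κ : ℂ) ^ z ≠ 0 := by
      rw [Ne, cpow_eq_zero_iff]
      exact fun h => hκc h.1
    have e3 : ‖((κ : ℂ) ^ z)⁻¹‖ ≤ κ ^ (-a1) + κ ^ (-b1) := by
      rw [norm_inv, Complex.norm_cpow_eq_rpow_re_of_pos hκ, ← Real.rpow_neg hκ.le]
      rcases le_total 1 κ with h | h
      · have := Real.rpow_le_rpow_of_exponent_le h (show -z.re ≤ -a1 by linarith [hz2'.1])
        have h5 : 0 ≤ κ ^ (-b1) := by positivity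
        linarith
      · have := Real.rpow_le_rpow_of_exponent_ge hκ h
          (show -b1 ≤ -z.re by linarith [hz2'.2])
        have h5 : 0 ≤ κ ^ (-a1) := by positivity
        linarith
    have e4 : Q ^ (z.re - b1) ≤ 1 :=
      Real.rpow_le_one_of_one_le_of_nonpos hQ (by linarith [hz2'.2])
    have e5 : (‖z + (n + 3)‖ ^ n)⁻¹ ≤ 1 := by
      apply inv_le_one_of_one_le₀
      have h5 := Complex.abs_re_le_norm (z + (n + 3))
      rw [hre3, abs_of_pos (by linarith [hz2'.1])] at h5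
      apply one_le_pow₀
      linarith [hz2'.1]
    have hC0' : 0 ≤ C := (norm_nonneg _).trans e2
    have e7 : F z = (Gamma (z + (c : ℂ)))⁻¹ * ((κ : ℂ) ^ z)⁻¹ * (GG k N Q z * F z) := by
      rw [hGG]
      field_simp
    unfold HW
    rw [norm_mul, norm_mul, hqn, hs3, e7, norm_mul, norm_mul, Real.norm_eq_abs,
      abs_of_pos (Real.exp_pos _)]
    have e6 : Real.exp (D * |z.im|) ≤ Real.exp (D * n * Real.exp (1 / n * |z.im|)) := by
      apply Real.exp_le_exp.mpr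
      rw [mul_assoc]
      apply mul_le_mul_of_nonneg_left _ hD0
      have h8 := Real.add_one_le_exp (1 / n * |z.im|)
      have h9 : |z.im| = n * (1 / n * |z.im|) := by field_simp
      calc |z.im| = n * (1 / n * |z.im|) := h9
        _ ≤ n * Real.exp (1 / n * |z.im|) := by
          apply mul_le_mul_of_nonneg_left _ (by linarith)
          linarith
    have hE := (Real.exp_pos (D * |z.im|)).le
    calc ‖(Gamma (z + (c : ℂ)))⁻¹‖ * ‖((κ : ℂ) ^ z)⁻¹‖ * ‖GG k N Q z * F z‖ *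
          Q ^ (z.re - b1) * (‖z + (n + 3)‖ ^ n)⁻¹
        ≤ (M * Real.exp (D * |z.im|)) * (κ ^ (-a1) + κ ^ (-b1)) * C * 1 * 1 := by
          gcongr
      _ = M * (κ ^ (-a1) + κ ^ (-b1)) * C * Real.exp (D * |z.im|) := by ring
      _ ≤ M * (κ ^ (-a1) + κ ^ (-b1)) * C *
          Real.exp (D * n * Real.exp (1 / n * |z.im|)) := by
          apply mul_le_mul_of_nonneg_left e6
          positivity
  · intro z hz
    have e1 := F_left_edge_wide n hn hkc hc hN hQ hF hB z hz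
    unfold HW
    rw [norm_mul, norm_mul, hqn, hs3, hz]
    have e2 : Q ^ ((1 - (n : ℝ)) / 2 - ((n : ℝ) + 1) / 2) = (Q ^ n)⁻¹ := by
      rw [show (1 - (n : ℝ)) / 2 - ((n : ℝ) + 1) / 2 = -(n : ℝ) by ring, Real.rpow_neg hQ0.le,
        Real.rpow_natCast]
    rw [e2]
    have hpos : 0 < ‖z + (n + 3)‖ := by
      have h5 := Complex.abs_re_le_norm (z + (n + 3))
      rw [hre3, hz, abs_of_pos (by linarith)] at h5
      linarith
    have e3 : (n : ℝ) / 2 + c + |z.im| ≤ (2 + c) * ‖z + (n + 3)‖ := by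
      have h5 := Complex.abs_re_le_norm (z + (n + 3))
      rw [hre3, hz, abs_of_pos (by linarith)] at h5
      have h6 := Complex.abs_im_le_norm (z + (n + 3))
      rw [him3] at h6
      have h7 : c * 1 ≤ c * ‖z + (n + 3)‖ := mul_le_mul_of_nonneg_left (by linarith) (by linarith)
      linarith
    have e3' : ((n : ℝ) / 2 + c + |z.im|) ^ n ≤ (2 + c) ^ n * ‖z + (n + 3)‖ ^ n := by
      rw [← mul_pow]
      exact pow_le_pow_left₀ (by positivity) e3 n
    have e4 : 0 < ‖z + (n + 3)‖ ^ n := by positivity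
    calc ‖F z‖ * (Q ^ n)⁻¹ * (‖z + (n + 3)‖ ^ n)⁻¹
        ≤ (B * (Real.sqrt N * Q) ^ n * ((n : ℝ) / 2 + c + |z.im|) ^ n) * (Q ^ n)⁻¹ *
            (‖z + (n + 3)‖ ^ n)⁻¹ := by gcongr
      _ = (B * Real.sqrt N ^ n) * (((n : ℝ) / 2 + c + |z.im|) ^ n * (‖z + (n + 3)‖ ^ n)⁻¹) := by
          rw [mul_pow]
          have : Q ^ n * (Q ^ n)⁻¹ = 1 := mul_inv_cancel₀ (by positivity)
          calc _ = (B * Real.sqrt N ^ n) * (((n : ℝ) / 2 + c + |z.im|) ^ n * (‖z + (n + 3)‖ ^ n)⁻¹) *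
                (Q ^ n * (Q ^ n)⁻¹) := by ring
            _ = _ := by rw [this, mul_one]
      _ ≤ (B * Real.sqrt N ^ n) * (2 + c) ^ n := by
          apply mul_le_mul_of_nonneg_left _ (by positivity)
          rw [← div_eq_mul_inv, div_le_iff₀ e4]
          exact e3'
      _ = B * ((2 + c) * Real.sqrt N) ^ n := by rw [mul_pow]; ring
  · intro z hz
    have e1 := hB z (by rw [hz])
    unfold HW
    rw [norm_mul, norm_mul, hqn, hs3, hz, sub_self, Real.rpow_zero, mul_one]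
    have e4 : 1 ≤ ‖z + (n + 3)‖ ^ n := by
      have h5 := Complex.abs_re_le_norm (z + (n + 3))
      rw [hre3, hz, abs_of_pos (by linarith)] at h5
      apply one_le_pow₀
      linarith
    have h6 : 1 ≤ ((2 + c) * Real.sqrt N) ^ n := by
      apply one_le_pow₀
      nlinarith
    calc ‖F z‖ * (‖z + (n + 3)‖ ^ n)⁻¹ ≤ B * 1 := by
          apply mul_le_mul e1 (inv_le_one_of_one_le₀ e4) (by positivity) (by linarith)
      _ ≤ B * ((2 + c) * Real.sqrt N) ^ n := by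
          apply mul_le_mul_of_nonneg_left h6 (by linarith)

theorem F_growth_wide (n : ℕ) (hn : 2 ≤ n) {k : ℤ} {c : ℝ} (hkc : ((k : ℝ) - 1) / 2 = c)
    (hc : 1 / 2 ≤ c) {N Q B : ℝ} (hN : 1 ≤ N) (hQ : 1 ≤ Q) (hB1 : 1 ≤ B)
    {F : ℂ → ℂ} (hF : FE2 k N Q F) (hB : ∀ s : ℂ, ((n : ℝ) + 1) / 2 ≤ s.re → ‖F s‖ ≤ B) {A : ℝ}
    (hA : n + B * ((2 + c) * Real.sqrt N) ^ n * (2 * (n : ℝ) + 5) ^ n ≤ A)
    (s : ℂ) (h1 : (1 - (n : ℝ)) / 2 ≤ s.re) (h3 : 1 ≤ s.im) :
    ‖F s‖ ≤ A * (Q * s.im) ^ A := by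
  have hn2 : (2 : ℝ) ≤ n := by exact_mod_cast hn
  have hsq1 : 1 ≤ Real.sqrt N := by
    rw [Real.one_le_sqrt]; exact hN
  have hQ0 : (0 : ℝ) < Q := by linarith
  have hqt : 1 ≤ Q * s.im := by nlinarith
  have hM0 : 0 ≤ B * ((2 + c) * Real.sqrt N) ^ n * (2 * (n : ℝ) + 5) ^ n := by positivity
  have hAn : (n : ℝ) ≤ A := by linarith
  have hpow : (Q * s.im) ^ n ≤ (Q * s.im) ^ A := by
    rw [← Real.rpow_natCast]
    exact Real.rpow_le_rpow_of_exponent_le hqt hAn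
  have key : ‖F s‖ ≤ B * ((2 + c) * Real.sqrt N) ^ n * (2 * (n : ℝ) + 5) ^ n * (Q * s.im) ^ n := by
    rcases le_total s.re (((n : ℝ) + 1) / 2) with h | h
    · have e1 := HW_bound n hn hkc hc hN hQ hB1 hF hB s h1 h
      unfold HW at e1
      have hree : (s - ((n : ℂ) + 1) / 2).re = s.re - ((n : ℝ) + 1) / 2 := by
        have : (((n : ℂ) + 1) / 2) = ((((n : ℝ) + 1) / 2 : ℝ) : ℂ) := by push_cast; ring
        rw [Complex.sub_re, this, ofReal_re]
      rw [norm_mul, norm_mul, norm_inv, norm_pow, Complex.norm_cpow_eq_rpow_re_of_pos hQ0,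
        hree] at e1
      have hre' : (s + (n + 3)).re = s.re + (n + 3) := by simp
      have him' : (s + (n + 3)).im = s.im := by simp
      have hpos : 0 < ‖s + (n + 3)‖ := by
        have h5 := Complex.abs_re_le_norm (s + (n + 3))
        rw [hre', abs_of_pos (by linarith)] at h5
        linarith
      have e2 : 0 < ‖s + (n + 3)‖ ^ n := by positivity
      have e3 : ‖s + (n + 3)‖ ^ n ≤ ((2 * (n : ℝ) + 5) * s.im) ^ n := by
        apply pow_le_pow_left₀ (norm_nonneg _)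
        refine (norm_le_abs_re_add_abs_im _).trans ?_
        rw [hre', him', abs_of_nonneg (by linarith), abs_of_nonneg (by linarith)]
        nlinarith
      have e4 : (Q ^ n)⁻¹ ≤ Q ^ (s.re - ((n : ℝ) + 1) / 2) := by
        rw [← Real.rpow_natCast, ← Real.rpow_neg hQ0.le]
        apply Real.rpow_le_rpow_of_exponent_le hQ
        linarith
      have e5 : ‖F s‖ * (Q ^ n)⁻¹ * (‖s + (n + 3)‖ ^ n)⁻¹ ≤ B * ((2 + c) * Real.sqrt N) ^ n := by
        refine le_trans ?_ e1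
        gcongr
      have e6 : ‖F s‖ ≤ B * ((2 + c) * Real.sqrt N) ^ n * (‖s + (n + 3)‖ ^ n) * Q ^ n := by
        have hq2 : (0 : ℝ) < Q ^ n := by positivity
        have : ‖F s‖ = (‖F s‖ * (Q ^ n)⁻¹ * (‖s + (n + 3)‖ ^ n)⁻¹) *
            (‖s + (n + 3)‖ ^ n) * Q ^ n := by
          have e2' := e2.ne'
          have hq2' := hq2.ne'
          generalize ‖s + (n + 3)‖ ^ n = N at e2' ⊢
          generalize Q ^ n = P at hq2' ⊢
          field_simp
        rw [this]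
        gcongr
      calc ‖F s‖ ≤ B * ((2 + c) * Real.sqrt N) ^ n * (‖s + (n + 3)‖ ^ n) * Q ^ n := e6
        _ ≤ B * ((2 + c) * Real.sqrt N) ^ n * (((2 * (n : ℝ) + 5) * s.im) ^ n) * Q ^ n := by gcongr
        _ = B * ((2 + c) * Real.sqrt N) ^ n * (2 * (n : ℝ) + 5) ^ n * (Q * s.im) ^ n := by
          rw [mul_pow, mul_pow]; ring
    · have e1 := hB s h
      have e2 : 1 ≤ (Q * s.im) ^ n := one_le_pow₀ hqt
      have e3 : 1 ≤ ((2 + c) * Real.sqrt N) ^ n := one_le_pow₀ (by nlinarith)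
      have e4 : 1 ≤ (2 * (n : ℝ) + 5) ^ n := one_le_pow₀ (by linarith)
      calc ‖F s‖ ≤ B * 1 * 1 * 1 := by simpa using e1
        _ ≤ _ := by gcongr
  calc ‖F s‖ ≤ B * ((2 + c) * Real.sqrt N) ^ n * (2 * (n : ℝ) + 5) ^ n * (Q * s.im) ^ n := key
    _ ≤ A * (Q * s.im) ^ A := by
      apply mul_le_mul (by linarith) hpow (by positivity) (by linarith)

theorem F_left_wide (n : ℕ) (hn : 2 ≤ n) {k : ℤ} {c : ℝ} (hkc : ((k : ℝ) - 1) / 2 = c)
    (hc : 1 / 2 ≤ c) {N Q : ℝ} (hN : 1 ≤ N) (hQ : 1 ≤ Q)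
    {F : ℂ → ℂ} (hF : FE2 k N Q F) {C : ℝ}
    (hC : ∀ w : ℂ, -(n : ℝ) - 1 / 2 ≤ w.re → w.re ≤ (n : ℝ) + 1 + c → 1 ≤ |w.im| →
      ‖logDeriv Gamma w - Real.log |w.im|‖ ≤ C)
    (s : ℂ) (h1 : (1 - (n : ℝ)) / 2 ≤ s.re) (h2 : s.re ≤ ((n : ℝ) + 1) / 2) (h3 : 1 ≤ s.im)
    (h4 : F s ≠ 0) :
    ‖deriv F s / F s + ((2 * Real.log (Q * s.im) : ℝ) : ℂ) +
        (starRingEnd ℂ) (deriv F (1 - (starRingEnd ℂ) s) / F (1 - (starRingEnd ℂ) s))‖ ≤
      |2 * Real.log (Real.sqrt N / (2 * Real.pi))| + C + C := by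
  have hn2 : (2 : ℝ) ≤ n := by exact_mod_cast hn
  have hs : s.im ≠ 0 := by linarith
  have hQ0 : (0 : ℝ) < Q := by linarith
  have hpi := Real.pi_pos
  have hsq : 0 < Real.sqrt N := Real.sqrt_pos.mpr (by linarith)
  have hκ : 0 < Real.sqrt N * Q / (2 * Real.pi) := by positivity
  obtain ⟨w, hw, hfe⟩ := fe_asym hN hQ hF
  rw [hkc] at hfe
  have hw0 : w ≠ 0 := by
    intro h
    rw [h, norm_zero] at hw
    exact zero_ne_one hw
  set κ : ℝ := Real.sqrt N * Q / (2 * Real.pi) with hκd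
  have hd : Differentiable ℂ F := hF.diff
  have ha : AnalyticAt ℂ F (1 - (starRingEnd ℂ) s) :=
    (hd.differentiableOn).analyticAt Filter.univ_mem
  have e1 : F =ᶠ[𝓝 s] fun z => LX w κ c z * refl F z := by
    filter_upwards [eventually_im_ne hs] with z hz
    exact hfe z hz
  have hr : refl F s ≠ 0 := by
    intro h
    apply h4
    rw [hfe s hs, h, mul_zero]
  have e2 : logDeriv F s = logDeriv (LX w κ c) s + logDeriv (refl F) s := by
    rw [(logDeriv_congr_nhds e1).eq_of_nhds]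
    exact logDeriv_mul s (LX_ne_zero w hw0 κ c hκ hs) hr (LX_analytic w κ c hκ hs).differentiableAt
      (analyticAt_refl ha).differentiableAt
  rw [logDeriv_refl ha.differentiableAt, logDeriv_LX w hw0 κ c hκ hs] at e2
  change ‖logDeriv F s + ((2 * Real.log (Q * s.im) : ℝ) : ℂ) +
    (starRingEnd ℂ) (logDeriv F (1 - (starRingEnd ℂ) s))‖ ≤ _
  rw [e2]
  have i1 : |(1 + (c : ℂ) - s).im| = s.im := by
    simp [abs_of_nonneg (by linarith : 0 ≤ s.im)]
  have i2 : |(s + (c : ℂ)).im| = s.im := by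
    simp [abs_of_nonneg (by linarith : 0 ≤ s.im)]
  have r1 : (1 + (c : ℂ) - s).re = 1 + c - s.re := by
    rw [sub_re, add_re, one_re, ofReal_re]
  have r2 : (s + (c : ℂ)).re = s.re + c := by
    rw [add_re, ofReal_re]
  have b1 := hC (1 + c - s) (by rw [r1]; linarith) (by rw [r1]; linarith) (by rw [i1]; exact h3)
  have b2 := hC (s + c) (by rw [r2]; linarith) (by rw [r2]; linarith) (by rw [i2]; exact h3)
  rw [i1] at b1
  rw [i2] at b2
  have hlogκ : Real.log κ = Real.log (Real.sqrt N / (2 * Real.pi)) + Real.log Q := by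
    rw [← Real.log_mul (by positivity) hQ0.ne', hκd]
    congr 1
    ring
  have hlogq : Real.log (Q * s.im) = Real.log Q + Real.log s.im :=
    Real.log_mul hQ0.ne' hs
  have e3 : -(2 * Real.log κ : ℂ) - logDeriv Gamma (1 + c - s) - logDeriv Gamma (s + c) +
      -(starRingEnd ℂ) (logDeriv F (1 - (starRingEnd ℂ) s)) +
        ((2 * Real.log (Q * s.im) : ℝ) : ℂ) +
      (starRingEnd ℂ) (logDeriv F (1 - (starRingEnd ℂ) s)) =
      -((2 * Real.log (Real.sqrt N / (2 * Real.pi)) : ℝ) : ℂ) -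
        (logDeriv Gamma (1 + c - s) - Real.log s.im) -
      (logDeriv Gamma (s + c) - Real.log s.im) := by
    rw [hlogq, hlogκ]
    push_cast
    ring
  rw [e3]
  refine (norm_sub_le _ _).trans ?_
  have n1 := norm_sub_le (-((2 * Real.log (Real.sqrt N / (2 * Real.pi)) : ℝ) : ℂ))
    (logDeriv Gamma (1 + c - s) - Real.log s.im)
  rw [norm_neg, Complex.norm_real, Real.norm_eq_abs] at n1
  linarith

open Complex in
/-- analytic consequences of the functional equation of weight `k` in wide strips -/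
theorem wide (n : ℕ) (hn : 2 ≤ n) (k : ℤ) (hk : 2 ≤ k) (N B : ℝ) (hN : 1 ≤ N) (hB : 1 ≤ B) :
  ∃ A : ℝ, 1 ≤ A ∧ ∀ Q : ℝ, 1 ≤ Q → ∀ F : ℂ → ℂ, W388.FE2 k N Q F →
  (∀ s : ℂ, ((n : ℝ) + 1) / 2 ≤ s.re → ‖F s‖ ≤ B) →
  (∀ s : ℂ, (1 - (n : ℝ)) / 2 ≤ s.re → 1 ≤ s.im → ‖F s‖ ≤ A * (Q * s.im) ^ A) ∧
  (∀ s : ℂ, s.im ≠ 0 → analyticOrderAt F (1 - (starRingEnd ℂ) s) = analyticOrderAt F s) ∧
  (∀ s : ℂ, s.im ≠ 0 → (F s = 0 ↔ F (1 - (starRingEnd ℂ) s) = 0)) ∧
  (∀ s : ℂ, (1 - (n : ℝ)) / 2 ≤ s.re → s.re ≤ ((n : ℝ) + 1) / 2 → 1 ≤ s.im → F s ≠ 0 →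
    ‖deriv F s / F s + ((2 * Real.log (Q * s.im) : ℝ) : ℂ) +
      (starRingEnd ℂ) (deriv F (1 - (starRingEnd ℂ) s) / F (1 - (starRingEnd ℂ) s))‖ ≤ A) := by
  have hn2 : (2 : ℝ) ≤ n := by exact_mod_cast hn
  set c : ℝ := ((k : ℝ) - 1) / 2 with hkc'
  have hkc : ((k : ℝ) - 1) / 2 = c := rfl
  have hc : 1 / 2 ≤ c := by
    have : (2 : ℝ) ≤ k := by exact_mod_cast hk
    rw [hkc']
    linarith
  obtain ⟨C, hC0, hC⟩ := digamma_wide ((n : ℝ) + 1 + c) (by linarith) n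
  have h2 := abs_nonneg (2 * Real.log (Real.sqrt N / (2 * Real.pi)))
  have hM0 : 0 ≤ B * ((2 + c) * Real.sqrt N) ^ n * (2 * (n : ℝ) + 5) ^ n := by positivity
  refine ⟨(n + B * ((2 + c) * Real.sqrt N) ^ n * (2 * (n : ℝ) + 5) ^ n) +
    (|2 * Real.log (Real.sqrt N / (2 * Real.pi))| + C + C), by linarith, ?_⟩
  intro Q hQ F hF hBF
  have hsq : 0 < Real.sqrt N := Real.sqrt_pos.mpr (by linarith)
  have hpi := Real.pi_pos
  have hκ : 0 < Real.sqrt N * Q / (2 * Real.pi) := by positivity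
  obtain ⟨w, hw, hfe⟩ := fe_asym hN hQ hF
  rw [hkc] at hfe
  have hw0 : w ≠ 0 := by
    intro h
    rw [h, norm_zero] at hw
    exact zero_ne_one hw
  refine ⟨?_, ?_, ?_, ?_⟩
  · intro s h1 h3
    exact F_growth_wide n hn hkc hc hN hQ hB hF hBF (by linarith) s h1 h3
  · intro s hs
    have ha : AnalyticAt ℂ F (1 - (starRingEnd ℂ) s) := hF.diff.analyticAt _
    have h1 : F =ᶠ[𝓝 s] (LX w (Real.sqrt N * Q / (2 * Real.pi)) c) * refl F := by
      filter_upwards [eventually_im_ne hs] with z hz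
      exact hfe z hz
    have hX := LX_analytic w _ c hκ hs
    rw [analyticOrderAt_congr h1, analyticOrderAt_mul hX (analyticAt_refl ha),
      hX.analyticOrderAt_eq_zero.mpr (LX_ne_zero w hw0 _ _ hκ hs), zero_add, order_refl ha]
  · intro s hs
    have hX := LX_ne_zero w hw0 (Real.sqrt N * Q / (2 * Real.pi)) c hκ hs
    rw [hfe s hs, mul_eq_zero, or_iff_right hX]
    unfold H370.DL.refl
    rw [map_eq_zero]
  · intro s h1 h2' h3 h4
    have h5 := F_left_wide n hn hkc hc hN hQ hF hC s h1 h2' h3 h4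
    have h6 : (0 : ℝ) ≤ n := by linarith
    linarith

end Pool.Agent.Zk20.KS.WideK
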