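import Pool.Agent.Zk20.KS.EigFE
import Pool.Agent.N880.HQ.HS

/-! # The Hilbert-Schmidt bound (only the diagonal is present for small norms) -/

set_option autoImplicit false

open Complex Matrix Filter Topology Module

namespace Pool.Agent.Zk20.KS

open Pool.Agent.N880.HQ (Hur S mem_S mat mat_sub mat_eq_zero bessel nrm_sub_le)
open Pool.Agent.N880.HQ.Hur (conj nrm nrm_mul nrm_conj conj_mul_self nrm_nonneg nrm_eq_zero nrm_natCast)

variable {q : ℕ} [Fact q.Prime] {j : ℕ}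

/-- the size of the class of `b` -/
def cls (b : Y j) : Finset (Y j) := Finset.univ.filter (fun b' : Y j => cnt b' = cnt b)

lemma mem_cls {b b' : Y j} : b' ∈ cls b ↔ cnt b' = cnt b := by simp [cls]

lemma cls_pos (b : Y j) : 0 < (cls b).card := Finset.card_pos.2 ⟨b, mem_cls.2 rfl⟩

lemma cls_eq {b b' : Y j} (h : cnt b' = cnt b) : cls b' = cls b := by
  ext x
  rw [mem_cls, mem_cls, h]

/-- the dimension of the space of symmetric tensors -/
noncomputable def dj (j : ℕ) : ℝ := ∑ b : Y j, 1 / ((cls b).card : ℝ)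

lemma exists_cnt {m : ℕ} (hm : m ≤ j) : ∃ a : Y j, cnt a = m := by
  refine ⟨fun i => if (i : ℕ) < m then 1 else 0, ?_⟩
  unfold cnt
  have : ∀ i : Fin j, (((if (i : ℕ) < m then 1 else 0 : Fin 2) : ℕ)) = if (i : ℕ) < m then 1 else 0 := by
    intro i
    split_ifs <;> rfl
  simp_rw [this]
  rw [Finset.sum_ite, Finset.sum_const, Finset.sum_const_zero, add_zero, smul_eq_mul, mul_one,
    Fin.card_filter_val_lt, min_eq_right hm]

lemma dj_eq (j : ℕ) : dj j = j + 1 := by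
  classical
  unfold dj
  rw [← Finset.sum_fiberwise_of_maps_to (s := Finset.univ) (t := Finset.range (j + 1))
    (g := fun b : Y j => cnt b) (fun b _ => Finset.mem_range.2 (Nat.lt_succ_of_le (cnt_le b)))]
  have h : ∀ m ∈ Finset.range (j + 1), ∑ b ∈ Finset.univ.filter (fun b : Y j => cnt b = m),
      1 / ((cls b).card : ℝ) = 1 := by
    intro m hm
    obtain ⟨a, ha⟩ := exists_cnt (j := j) (m := m) (by have := Finset.mem_range.1 hm; omega)
    have e1 : ∀ b ∈ Finset.univ.filter (fun b : Y j => cnt b = m),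
        1 / ((cls b).card : ℝ) = 1 / ((cls a).card : ℝ) := by
      intro b hb
      rw [Finset.mem_filter] at hb
      rw [cls_eq (hb.2.trans ha.symm)]
    rw [Finset.sum_congr rfl e1, Finset.sum_const, nsmul_eq_mul]
    have e2 : Finset.univ.filter (fun b : Y j => cnt b = m) = cls a := by
      ext b
      rw [Finset.mem_filter, mem_cls, ha]
      simp
    rw [e2]
    have := cls_pos a
    field_simp
  rw [Finset.sum_congr rfl h]
  simp

/-- the symmetrised matrix of `α` -/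
noncomputable def rs (j : ℕ) (α : Hur) (a b : Y j) : ℂ :=
  (1 / ((cls b).card : ℂ)) * ∑ b' ∈ cls b, rho j α a b'

lemma rs_sum (α : Hur) {ξ : Y j → ℂ} (hξ : Sy ξ) (a : Y j) :
    ∑ b, rho j α a b * ξ b = ∑ b, rs j α a b * ξ b := by
  have e1 : ∀ b : Y j, rs j α a b * ξ b =
      ∑ b' : Y j, (if cnt b' = cnt b then (1 / ((cls b').card : ℂ)) * (rho j α a b' * ξ b') else 0) := by
    intro b
    unfold rs
    rw [← Finset.sum_filter]
    change _ = ∑ b' ∈ cls b, _
    rw [mul_assoc, Finset.sum_mul, Finset.mul_sum]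
    refine Finset.sum_congr rfl fun b' hb' => ?_
    rw [mem_cls] at hb'
    rw [cls_eq hb', hξ b' b hb']
  simp_rw [e1]
  rw [Finset.sum_comm]
  refine Finset.sum_congr rfl fun b' _ => ?_
  have e2 : ∀ b : Y j, (if cnt b' = cnt b then (1 / ((cls b').card : ℂ)) * (rho j α a b' * ξ b') else 0) =
      if cnt b = cnt b' then (1 / ((cls b').card : ℂ)) * (rho j α a b' * ξ b') else 0 := by
    intro b
    congr 1
    exact propext eq_comm
  simp_rw [e2]
  rw [← Finset.sum_filter, Finset.sum_const, nsmul_eq_mul]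
  change _ = ((cls b').card : ℂ) * _
  have h0 : ((cls b').card : ℂ) ≠ 0 := by
    exact_mod_cast (cls_pos b').ne'
  field_simp

lemma rs_norm (α : Hur) : ∑ a : Y j, ∑ b : Y j, ‖rs j α a b‖ ^ 2 =
    ((nrm α : ℤ) : ℝ) ^ j * dj j := by
  rw [Finset.sum_comm, dj, Finset.mul_sum]
  refine Finset.sum_congr rfl fun b _ => ?_
  have h0 : ((cls b).card : ℂ) ≠ 0 := by exact_mod_cast (cls_pos b).ne'
  have h1 : ((∑ a : Y j, ‖rs j α a b‖ ^ 2 : ℝ) : ℂ) =
      ((((nrm α : ℤ) : ℝ) ^ j * (1 / ((cls b).card : ℝ)) : ℝ) : ℂ) := by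
    push_cast
    have e1 : ∀ a : Y j, ((‖rs j α a b‖ : ℂ)) ^ 2 = (1 / ((cls b).card : ℂ)) ^ 2 *
        ∑ b1 ∈ cls b, ∑ b2 ∈ cls b, (starRingEnd ℂ) (rho j α a b1) * rho j α a b2 := by
      intro a
      rw [← Complex.ofReal_pow, ← Complex.normSq_eq_norm_sq, ← Complex.mul_conj]
      unfold rs
      rw [map_mul, map_sum, map_div₀, map_one, map_natCast, ← Finset.sum_mul_sum]
      ring
    simp_rw [e1]
    rw [← Finset.mul_sum, Finset.sum_comm]
    have e2 : ∀ b1 ∈ cls b, ∑ a : Y j, ∑ b2 ∈ cls b, (starRingEnd ℂ) (rho j α a b1) * rho j α a b2 =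
        ((nrm α : ℤ) : ℂ) ^ j := by
      intro b1 hb1
      rw [Finset.sum_comm]
      simp_rw [rho_unitary]
      rw [Finset.sum_ite_eq, if_pos hb1]
    rw [Finset.sum_congr rfl e2, Finset.sum_const, nsmul_eq_mul]
    field_simp
  exact_mod_cast h1

lemma small_inj (P : XY q) {g : M2 q} (hg : g.det ≠ 0) {α β : Hur} (hα : 4 * nrm α < q ^ 2)
    (hβ : 4 * nrm β < q ^ 2) (h : g * P.m α = g * P.m β) : α = β := by
  have hu : IsUnit g := (Matrix.isUnit_iff_isUnit_det g).2 (isUnit_iff_ne_zero.2 hg)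
  have h0 : mat P.x P.y (α - β) = 0 := by
    rw [mat_sub]
    have := hu.mul_left_cancel h
    exact sub_eq_zero.2 this
  obtain ⟨δ, hδ⟩ := (mat_eq_zero P.h2 P.hxy _).1 h0
  have h1 : nrm (α - β) = (q : ℤ) ^ 2 * nrm δ := by
    rw [hδ, nrm_mul, nrm_natCast]
  have h3 := nrm_sub_le α β
  have h4 := nrm_nonneg (α - β)
  have h5 : nrm (α - β) = 0 := by
    by_contra hne
    have hδ1 : 1 ≤ nrm δ := by
      have h6 := nrm_nonneg δ
      rcases lt_or_ge 0 (nrm δ) with h7 | h7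
      · omega
      · have : nrm δ = 0 := le_antisymm h7 h6
        rw [this, mul_zero] at h1
        exact absurd h1 hne
    have hq2 : (0 : ℤ) < (q : ℤ) ^ 2 := by
      have : (0 : ℤ) < q := by exact_mod_cast (Fact.out : q.Prime).pos
      positivity
    nlinarith
  have h6 := nrm_eq_zero.1 h5
  exact sub_eq_zero.1 h6

/-- the number of invertible matrices -/
def gl (q : ℕ) [Fact q.Prime] : ℕ := (Finset.univ.filter (fun g : M2 q => g.det ≠ 0)).card

/-- the Hilbert-Schmidt bound -/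
theorem hs_bound (P : XY q) (𝒮 : Finset Hur) (h𝒮 : ∀ α ∈ 𝒮, 4 * nrm α < q ^ 2) (G : Hur → ℂ) {g : ℕ}
    (b : Fin g → M2 q × Y j → ℂ) (hb0 : ∀ k g a, g.det = 0 → b k (g, a) = 0)
    (hbs : ∀ k g, Sy (fun a => b k (g, a)))
    (hb : ∀ k l, ∑ v, b k v * (starRingEnd ℂ) (b l v) = if k = l then 1 else 0) :
    ∑ k, ∑ v, ‖∑ α ∈ 𝒮, G α * R P.act j α (b k) v‖ ^ 2 ≤
      (gl q : ℝ) * dj j * ∑ α ∈ 𝒮, ‖G α‖ ^ 2 * ((nrm α : ℤ) : ℝ) ^ j := by
  classical
  rw [Finset.sum_comm, Fintype.sum_prod_type]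
  have hrow : ∀ (h : M2 q) (a : Y j), ∑ k, ‖∑ α ∈ 𝒮, G α * R P.act j α (b k) (h, a)‖ ^ 2 ≤
      if h.det = 0 then 0 else ∑ α ∈ 𝒮, ‖G α‖ ^ 2 * ∑ b : Y j, ‖rs j α a b‖ ^ 2 := by
    intro h a
    split_ifs with hv
    · refine le_of_eq (Finset.sum_eq_zero fun k _ => ?_)
      rw [Finset.sum_eq_zero fun α _ => by rw [R_supp (hb0 k) α h a hv, mul_zero]]
      simp
    · set H : M2 q × Y j → ℂ := fun w => ∑ α ∈ 𝒮.filter (fun α => h * P.m α = w.1),
        G α * rs j α a w.2 with hH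
      have e1 : ∀ k, ∑ α ∈ 𝒮, G α * R P.act j α (b k) (h, a) = ∑ w, H w * b k w := by
        intro k
        rw [← Finset.sum_fiberwise_of_maps_to (s := 𝒮) (t := Finset.univ)
          (g := fun α => h * P.m α) (fun _ _ => Finset.mem_univ _), Fintype.sum_prod_type]
        refine Finset.sum_congr rfl fun w _ => ?_
        rw [hH]
        simp only
        simp_rw [Finset.sum_mul]
        rw [Finset.sum_comm]
        refine Finset.sum_congr rfl fun α hα => ?_
        rw [R_apply]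
        simp only
        rw [P.act_act, (Finset.mem_filter.1 hα).2, rs_sum α (hbs k w) a, Finset.mul_sum]
        refine Finset.sum_congr rfl fun b' _ => ?_
        ring
      simp_rw [e1]
      refine (bessel b hb H).trans (le_of_eq ?_)
      rw [← Finset.sum_fiberwise_of_maps_to (s := 𝒮) (t := Finset.univ)
          (g := fun α => h * P.m α) (fun _ _ => Finset.mem_univ _), Fintype.sum_prod_type]
      refine Finset.sum_congr rfl fun w _ => ?_
      rw [hH]
      simp only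
      -- the fibre has at most one element
      rcases (𝒮.filter (fun α => h * P.m α = w)).eq_empty_or_nonempty with h0 | ⟨α, hα⟩
      · rw [h0]; simp
      · have : 𝒮.filter (fun α => h * P.m α = w) = {α} := by
          rw [Finset.eq_singleton_iff_unique_mem]
          refine ⟨hα, fun β hβ => ?_⟩
          rw [Finset.mem_filter] at hα hβ
          exact small_inj P hv (h𝒮 β hβ.1) (h𝒮 α hα.1) (by rw [hα.2, hβ.2])
        rw [this, Finset.sum_singleton, Finset.mul_sum]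
        refine Finset.sum_congr rfl fun b' _ => ?_
        rw [Finset.sum_singleton, norm_mul, mul_pow]
  refine (Finset.sum_le_sum fun h _ => Finset.sum_le_sum fun a _ => hrow h a).trans (le_of_eq ?_)
  have e3 : ∀ h : M2 q, ∑ a : Y j, (if h.det = 0 then 0 else
      ∑ α ∈ 𝒮, ‖G α‖ ^ 2 * ∑ b : Y j, ‖rs j α a b‖ ^ 2) =
      if h.det ≠ 0 then dj j * ∑ α ∈ 𝒮, ‖G α‖ ^ 2 * ((nrm α : ℤ) : ℝ) ^ j else 0 := by
    intro h
    by_cases hh : h.det = 0
    · simp [hh]
    · rw [if_pos hh]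
      simp only [if_neg hh]
      rw [Finset.sum_comm, Finset.mul_sum]
      refine Finset.sum_congr rfl fun α _ => ?_
      rw [← Finset.mul_sum, rs_norm]
      ring
  simp_rw [e3]
  rw [← Finset.sum_filter, Finset.sum_const, nsmul_eq_mul]
  unfold gl
  ring

/-- bound for eigenvalues -/
theorem hs_eig (P : XY q) (𝒮 : Finset Hur) (h𝒮 : ∀ α ∈ 𝒮, 4 * nrm α < q ^ 2) (G : Hur → ℂ) {g : ℕ}
    (b : Fin g → M2 q × Y j → ℂ) (hb0 : ∀ k g a, g.det = 0 → b k (g, a) = 0)
    (hbs : ∀ k g, Sy (fun a => b k (g, a)))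
    (hb : ∀ k l, ∑ v, b k v * (starRingEnd ℂ) (b l v) = if k = l then 1 else 0) (μ : Fin g → ℂ)
    (hμ : ∀ k v, ∑ α ∈ 𝒮, G α * R P.act j α (b k) v = μ k * b k v) :
    ∑ k, ‖μ k‖ ^ 2 ≤ (gl q : ℝ) * dj j * ∑ α ∈ 𝒮, ‖G α‖ ^ 2 * ((nrm α : ℤ) : ℝ) ^ j := by
  refine le_trans (le_of_eq ?_) (hs_bound P 𝒮 h𝒮 G b hb0 hbs hb)
  refine Finset.sum_congr rfl fun k _ => ?_
  simp_rw [hμ, norm_mul, mul_pow]
  rw [← Finset.mul_sum]
  have h := hb k k
  rw [if_pos rfl] at h
  have h3 : ((∑ v, ‖b k v‖ ^ 2 : ℝ) : ℂ) = 1 := by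
    rw [← h]
    push_cast
    refine Finset.sum_congr rfl fun v _ => ?_
    rw [Complex.mul_conj, Complex.normSq_eq_norm_sq]
    push_cast
    rfl
  have h4 : ∑ v, ‖b k v‖ ^ 2 = 1 := by exact_mod_cast h3
  rw [h4, mul_one]

end Pool.Agent.Zk20.KS
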