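import Pool.Agent.Zk20.KS.MeanA
import Pool.Agent.N880.HQ.Main2

/-! # The main inequality for an abstract family with a second moment inequality -/

set_option autoImplicit false

open Complex Filter Topology Module MeasureTheory Set
open Pool.Agent.N7.MainC (inner_summable inner_continuous inner_nonneg inner_le main_c)
open H385 (bt wt Rw Rw_nonneg fa_Rw_cont fa_Rw_le Rw_const_d2)
open H370 (zset mult NN Nd Ns)
open Pool.Agent.N880.HQ (Seq aG GF innT Y_int nl1 nl2 nl3 nl4 nl5 nl6 nl7 nl8 nl9 pa1 pb1 pb3 pd4 pd6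
  nm1 nm3 nm4 nm5 nm6)

namespace Pool.Agent.Zk20.KS

/-- choice of the small parameter -/
lemma choose_s' {R J κ0 : ℝ} (hR : 0 ≤ R) (hJ : 0 ≤ J) (h : R + 2 * J < κ0) :
    ∃ s : ℝ, 0 < s ∧ s ≤ 1 / 10 ∧
      R * (1 + 2 * s) ^ 2 / (1 - s) + 2 * (1 + s) ^ 2 * (J + s) ≤ κ0 - (κ0 - (R + 2 * J)) / 2 := by
  set e := κ0 - (R + 2 * J) with he
  have he0 : 0 < e := by rw [he]; linarith
  refine ⟨min (1 / 10) (e / (2 * (6 * R + 5 * J + 3))), by positivity, min_le_left _ _, ?_⟩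
  set s := min (1 / 10) (e / (2 * (6 * R + 5 * J + 3))) with hs
  have hs0 : 0 < s := by rw [hs]; positivity
  have hs1 : s ≤ 1 / 10 := min_le_left _ _
  have hs2 : s * (6 * R + 5 * J + 3) ≤ e / 2 := by
    have h1 : s ≤ e / (2 * (6 * R + 5 * J + 3)) := min_le_right _ _
    calc s * (6 * R + 5 * J + 3) ≤ e / (2 * (6 * R + 5 * J + 3)) * (6 * R + 5 * J + 3) := by
          gcongr
      _ = e / 2 := by
          have : (6 * R + 5 * J + 3) ≠ 0 := by positivity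
          field_simp
  have h1 : R * (1 + 2 * s) ^ 2 / (1 - s) ≤ R * (1 + 6 * s) := by
    rw [div_le_iff₀ (by linarith), mul_assoc]
    refine mul_le_mul_of_nonneg_left ?_ hR
    nlinarith
  have h2 : (1 + s) ^ 2 ≤ 1 + 21 / 10 * s := by nlinarith
  have h3 : 2 * (1 + s) ^ 2 * (J + s) ≤ 2 * J + s * (5 * J + 3) := by
    have h4 : 2 * (1 + s) ^ 2 * (J + s) ≤ 2 * (1 + 21 / 10 * s) * (J + s) := by
      have : 0 ≤ J + s := by linarith
      nlinarith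
    have h5 : 0 ≤ s * J := by positivity
    nlinarith
  nlinarith

lemma pb2' {g G L T s J Λ : ℝ} (hs : 0 < s) (hJ : 0 ≤ J)
    (hT : 0 < T) (hg : 0 < g) (hG0 : 0 < G) (hG : G ≤ (1 + s) * g) (hΛ0 : 0 < Λ)
    (hΛ10 : Λ ≤ 10 * L) :
    (T / (2 * Real.pi)) * Λ * G * (2 * (1 + s) * (J + s)) ≤
      g * (T / (2 * Real.pi) * (10 * L)) * (2 * (1 + s) ^ 2 * (J + s)) + g * T * (4 * (J + 1)) := by
  have hpi := Real.pi_pos
  have hL : 0 < 10 * L := by linarith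
  have h1 : (T / (2 * Real.pi)) * Λ * G * (2 * (1 + s) * (J + s)) ≤
      (T / (2 * Real.pi)) * (10 * L) * ((1 + s) * g) * (2 * (1 + s) * (J + s)) := by gcongr
  have h3 : (T / (2 * Real.pi)) * (10 * L) * ((1 + s) * g) * (2 * (1 + s) * (J + s)) =
      g * (T / (2 * Real.pi) * (10 * L)) * (2 * (1 + s) ^ 2 * (J + s)) := by ring
  have h4 : 0 ≤ g * T * (4 * (J + 1)) := by positivity
  linarith

/-- the numerical part -/
lemma num_core {L T g G R J s κ0 C1 CM Ci C2 SM N Λ y1 y2 : ℝ} (hs : 0 < s) (hs1 : s ≤ 1 / 10)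
    (hR : 0 ≤ R) (hJ : 0 ≤ J) (hκ0 : 0 ≤ κ0)
    (hch : R * (1 + 2 * s) ^ 2 / (1 - s) + 2 * (1 + s) ^ 2 * (J + s) ≤ κ0 - (κ0 - (R + 2 * J)) / 2)
    (hC1 : 0 ≤ C1) (hCM : 0 ≤ CM) (hCi : 0 ≤ Ci) (hL : 1 ≤ L) (hT : L ^ 2 ≤ T)
    (hg0 : 0 < g) (hgG : g ≤ G) (hG : G ≤ (1 + s) * g) (hΛ : Λ = 10 * (1 - s) * L)
    (hy1 : y1 = G * (2 * Ci + CM)) (hy2 : y2 = CM * G)
    (hbig : 4 * (J + 1) + 48 * CM * R + 3 * C1 + 2 * C1 * (2 * Ci + 2 * CM + 2) + 5 * κ0 * C2 ≤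
      5 * (κ0 - (R + 2 * J)) / (2 * Real.pi) * L)
    (hSM : SM ≤ g * (20 * ((1 / 2 + s) * L)) ^ 2 * R * T / (2 * Real.pi * Λ) +
      (2 / (Real.sqrt Real.pi * Λ)) * (((1 + s) * G * (T / (2 * Real.pi))) *
        (Real.sqrt Real.pi * Λ ^ 2 * (J + s)) + (CM * G) * (R * Λ * (T + L * (Λ + 1)))) +
      C1 * (g * (((1 / 2 + s) * L) ^ 2 * L / Λ + ((1 / 2 + s) * L) * T / Λ +
        L * ((1 / 2 + s) * L)) + Real.sqrt g * ((1 / 2 + s) * L) * T *
          (Real.sqrt y1 + Real.sqrt y2) / Λ))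
    (hN : g * (T / (2 * Real.pi) * (10 * L) - 5 * C2 * T) ≤ N) : SM ≤ κ0 * N := by
  have hpi := Real.pi_pos
  have hL0 : 0 < L := by linarith
  have hT0 : 0 < T := by linarith [nl3 hL hT]
  have hG0 : 0 < G := by linarith
  have hG2 : G ≤ 2 * g := by nlinarith
  have hs1' : 0 < 1 - s := by linarith
  have hΛ9 : 9 * L ≤ Λ := by rw [hΛ]; exact nl1 hs1 hL
  have hΛ10 : Λ ≤ 10 * L := by rw [hΛ]; exact nl2 hs hL
  have hΛ0 : 0 < Λ := by linarith
  have hLΛ : L ≤ Λ := by linarith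
  have hLT : L ≤ T := nl3 hL hT
  -- (a)
  have a1 : g * (20 * ((1 / 2 + s) * L)) ^ 2 * R * T / (2 * Real.pi * Λ) =
      g * (T / (2 * Real.pi) * (10 * L)) * (R * (1 + 2 * s) ^ 2 / (1 - s)) := by
    rw [hΛ]
    exact pa1 hL0.ne' hs1'.ne'
  have b1 := pb1 (G := G) (L := L) (T := T) (R := R) (s := s) (J := J) (CM := CM) hΛ0.ne'
  have b2 := pb2' hs hJ hT0 hg0 hG0 hG hΛ0 hΛ10
  have b3 := pb3 hR hCM hL hT hg0 hG2 hG0 hΛ0 hΛ10
  -- (d)
  obtain ⟨a, ha⟩ : ∃ a, a = (1 / 2 + s) * L := ⟨_, rfl⟩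
  have hh1 : a ≤ L := by rw [ha]; exact nl6 hs1 hL
  have hh0 : 0 ≤ a := by rw [ha]; positivity
  have d1 : a ^ 2 * L / Λ ≤ T := by
    rw [div_le_iff₀ hΛ0]
    calc a ^ 2 * L ≤ L ^ 2 * L :=
          mul_le_mul_of_nonneg_right (pow_le_pow_left₀ hh0 hh1 2) hL0.le
      _ ≤ T * Λ := mul_le_mul hT hLΛ hL0.le hT0.le
  have d2 : a * T / Λ ≤ T := by
    rw [div_le_iff₀ hΛ0]
    exact nl7 hh0 hh1 hLΛ hT0.le
  have d3 : L * a ≤ T := nl8 hL0.le hh1 hT
  have d4 : Real.sqrt g * Real.sqrt y1 ≤ G * (2 * Ci + CM + 1) := by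
    rw [hy1]; exact pd4 hg0 hgG (by positivity)
  have d5 : Real.sqrt g * Real.sqrt y2 ≤ G * (CM + 1) := by
    rw [hy2, mul_comm CM G]; exact pd4 hg0 hgG hCM
  have d5' : Real.sqrt g * (Real.sqrt y1 + Real.sqrt y2) ≤ G * (2 * Ci + 2 * CM + 2) := by
    have : G * (2 * Ci + CM + 1) + G * (CM + 1) = G * (2 * Ci + 2 * CM + 2) := by ring
    rw [mul_add]; linarith
  have d6 : Real.sqrt g * a * T * (Real.sqrt y1 + Real.sqrt y2) / Λ ≤
      g * T * (2 * (2 * Ci + 2 * CM + 2)) :=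
    pd6 hT0 hΛ0 hh0 (hh1.trans hLΛ) hG2 (Real.sqrt_nonneg _) (Real.sqrt_nonneg _)
      (Real.sqrt_nonneg _) (by positivity) hg0 d5' hL0
  have d7 : C1 * (g * (a ^ 2 * L / Λ + a * T / Λ + L * a) +
        Real.sqrt g * a * T * (Real.sqrt y1 + Real.sqrt y2) / Λ) ≤
        g * T * (3 * C1 + 2 * C1 * (2 * Ci + 2 * CM + 2)) := by
    have h1 : g * (a ^ 2 * L / Λ + a * T / Λ + L * a) ≤ g * (T + T + T) :=
      mul_le_mul_of_nonneg_left (by linarith) hg0.le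
    calc _ ≤ C1 * (g * (T + T + T) + g * T * (2 * (2 * Ci + 2 * CM + 2))) :=
          mul_le_mul_of_nonneg_left (by linarith) hC1
      _ = _ := by ring
  -- collect
  rw [a1, b1, ← ha] at hSM
  have hX : 0 ≤ g * (T / (2 * Real.pi) * (10 * L)) := by positivity
  have e1 : SM ≤ g * (T / (2 * Real.pi) * (10 * L)) * (κ0 - (κ0 - (R + 2 * J)) / 2) +
      g * T * (4 * (J + 1) + 48 * CM * R + 3 * C1 + 2 * C1 * (2 * Ci + 2 * CM + 2)) := by
    have h1 := mul_le_mul_of_nonneg_left hch hX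
    rw [mul_add] at h1
    linarith
  have e2 : g * T * (4 * (J + 1) + 48 * CM * R + 3 * C1 + 2 * C1 * (2 * Ci + 2 * CM + 2) +
      5 * κ0 * C2) ≤ g * T * (5 * (κ0 - (R + 2 * J)) / (2 * Real.pi) * L) :=
    mul_le_mul_of_nonneg_left hbig (by positivity)
  have e3 : g * T * (5 * (κ0 - (R + 2 * J)) / (2 * Real.pi) * L) =
      g * (T / (2 * Real.pi) * (10 * L)) * ((κ0 - (R + 2 * J)) / 2) := by
    field_simp
    ring
  have e4 := mul_le_mul_of_nonneg_left hN hκ0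
  have e5 : κ0 * (g * (T / (2 * Real.pi) * (10 * L) - 5 * C2 * T)) =
      g * (T / (2 * Real.pi) * (10 * L)) * κ0 - g * T * (5 * κ0 * C2) := by ring
  rw [e5] at e4
  rw [e3] at e2
  linarith

theorem main_core (k0 : ℤ) (hk0 : 2 ≤ k0) (N0 : ℝ) (hN0 : 1 ≤ N0) :
    ∃ η q0 : ℝ, 0 < η ∧ η ≤ 1 / 10 ∧ 25 ≤ q0 ∧ ∀ (q : ℕ), q0 ≤ q →
    ∀ (g : ℕ) (e lam : Fin g → ℕ → ℂ) (G : ℝ), 0 < g → (g : ℝ) ≤ G → G ≤ (1 + η) * g →
      SM q g e lam G →
    ∀ F : Fin g → ℂ → ℂ,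
      (∀ k, LF k0 N0 (Real.sqrt q) (e k) (lam k) (F k)) →
    ∀ T : ℝ, Real.log q ^ 2 ≤ T → T ≤ (q : ℝ) ^ η →
      ∑ k, (2 * (NN (GF (F k)) T (2 * T) : ℝ) - (Ns (GF (F k)) T (2 * T) : ℝ)) ≤
        1.3275 * ∑ k, (NN (GF (F k)) T (2 * T) : ℝ) ∧
      ∑ k, (3 * (NN (GF (F k)) T (2 * T) : ℝ) - 2 * (Nd (GF (F k)) T (2 * T) : ℝ)) ≤
        1.3275 * ∑ k, (NN (GF (F k)) T (2 * T) : ℝ) ∧
      (g : ℝ) * T * Real.log q ≤ ∑ k, (NN (GF (F k)) T (2 * T) : ℝ) := by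
  set γ : ℝ := 1.414 with hγ
  have h0 : 0 < γ := by norm_num
  have hπ : γ < Real.pi := by rw [hγ]; linarith [Real.pi_gt_three]
  set R : ℝ := Rw γ 0 with hR
  have hR0 : 0 ≤ R := Rw_nonneg γ h0 hπ 0
  set J : ℝ := ∫ α in (0 : ℝ)..1, α * Rw γ α with hJ
  have hJ0 : 0 ≤ J := by
    apply intervalIntegral.integral_nonneg zero_le_one
    intro α hα
    exact mul_nonneg hα.1 (Rw_nonneg γ h0 hπ α)
  have hRJ : R + 2 * J < 1.3275 := Rw_const_d2
  obtain ⟨s, hs0, hs1, hch⟩ := choose_s' hR0 hJ0 hRJ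
  obtain ⟨A, hA, hgood⟩ := good k0 hk0 N0 hN0
  obtain ⟨C1, hC1, hfam⟩ := W388.fam_abstract_D γ h0 hπ 20 A (by norm_num) hA
  obtain ⟨C1', hC1', hfam'⟩ := W388.fam_abstract_d_D γ h0 hπ 20 A (by norm_num) hA
  obtain ⟨C2, hC2, hlow⟩ := W388.N_lower_D 20 A (by norm_num) hA
  obtain ⟨CM, hCM, hmean⟩ := mean_sq hs0 hs0 (by linarith : s ≤ 1)
  obtain ⟨Ci, hCi, hinn⟩ := inner_le 10 (by norm_num)
  obtain ⟨LY, hLY, hYint⟩ := Y_int γ h0 hπ hs0
  have hpi := Real.pi_pos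
  set CC : ℝ := max C1 C1' with hCC
  have hCC0 : 0 < CC := lt_max_of_lt_left hC1
  set e0 : ℝ := 1.3275 - (R + 2 * J) with he0
  have he0p : 0 < e0 := by rw [he0]; linarith
  set X : ℝ := 4 * (J + 1) + 48 * CM * R + 3 * CC + 2 * CC * (2 * Ci + 2 * CM + 2) +
    5 * 1.3275 * C2 with hX
  have hX0 : 0 ≤ X := by rw [hX]; positivity
  set L0 : ℝ := 60 + LY + 10 * C2 + X / (5 * e0 / (2 * Real.pi)) with hL0
  have hL0' : 0 ≤ X / (5 * e0 / (2 * Real.pi)) := by positivity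
  refine ⟨s, max 25 (Real.exp L0), hs0, hs1, le_max_left _ _, ?_⟩
  intro q hq g e lam G hg0 hgG hGg hsec F hLF T hT1 hT2
  have hq25 : (25 : ℝ) ≤ q := (le_max_left _ _).trans hq
  have hqn : 25 ≤ q := by exact_mod_cast hq25
  have hq0 : (0 : ℝ) < q := by linarith
  set L : ℝ := Real.log q with hL
  have hLL0 : L0 ≤ L := by
    rw [hL, Real.le_log_iff_exp_le hq0]
    exact (le_max_right _ _).trans hq
  have hL60 : 60 ≤ L := by linarith
  have hqexp : (q : ℝ) = Real.exp L := by rw [hL, Real.exp_log hq0]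
  have hT2' : T ≤ Real.exp (s * L) := by
    rw [mul_comm, Real.exp_mul, ← hqexp]; exact hT2
  set Λ : ℝ := 10 * (1 - s) * L with hΛ
  have hβ0 : 0 < 10 * (1 - s) := by linarith
  obtain ⟨p1, p2, p3, p4, p5, p6⟩ := H385.param_ok (10 * (1 - s)) L T s hβ0 (by linarith)
    (by linarith) (by rw [div_le_iff₀ hβ0]; exact nm1 hs1 hL60) hT1 hT2'
  have hTpos : 0 < T := by linarith
  have hT1' : 1 ≤ T := by linarith
  have hg0R : (0 : ℝ) < g := by exact_mod_cast hg0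
  have hG0 : 0 ≤ G := le_trans hg0R.le hgG
  -- Lm
  have hsq1 : 1 ≤ Real.sqrt q := Real.one_le_sqrt.2 (by linarith)
  have hlogsq : Real.log (Real.sqrt q) = L / 2 := by
    rw [Real.log_sqrt hq0.le]
  have hlogT : Real.log T ≤ s * L := by
    have := Real.log_le_log hTpos hT2'
    rwa [Real.log_exp] at this
  have hlogT0 : 0 ≤ Real.log T := Real.log_nonneg hT1'
  have hlogQT : Real.log (Real.sqrt q * T) = L / 2 + Real.log T := by
    rw [Real.log_mul (by positivity) hTpos.ne', hlogsq]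
  have hLm : Real.log (Real.sqrt q * T) ≤ (1 / 2 + s) * L := by rw [hlogQT]; linarith
  have hLm1 : 1 ≤ (1 / 2 + s) * L := nm3 hs0 hL60
  have hLmL : (1 / 2 + s) * L ≤ 3 * L := nm4 hs1 hL60
  have hLm2 : ((1 / 2 + s) * L) ^ 2 ≤ 9 * L ^ 2 := by
    have h0 : ((1 / 2 + s) * L) ^ 2 ≤ (3 * L) ^ 2 := pow_le_pow_left₀ (by linarith) hLmL 2
    linarith [show (3 * L) ^ 2 = 9 * L ^ 2 by ring]
  have hexp : ((1 / 2 + s) * L) ^ 2 * Real.exp (Λ - L ^ 2 / 2) ≤ Real.exp (-Λ) :=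
    le_trans (mul_le_mul_of_nonneg_right hLm2 (Real.exp_pos _).le) p5
  have hTL : T ≤ Real.exp (L ^ 2) := p3.trans (Real.exp_le_exp.2 (half_le_self (sq_nonneg L)))
  -- family data
  have hgoodk : ∀ k : Fin g, W388.GoodE 20 A (Real.sqrt q) (GF (F k)) (aG (e k) (lam k)) :=
    fun k => hgood _ hsq1 _ _ _ (hLF k)
  have hdata : ∀ k ∈ (Finset.univ : Finset (Fin g)), 0 ≤ (1 : ℝ) ∧ (1 : ℝ) ≤ Real.sqrt q ∧
      W388.GoodE 20 A (Real.sqrt q) (GF (F k)) (aG (e k) (lam k)) ∧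
      Real.log (Real.sqrt q * T) ≤ (1 / 2 + s) * L :=
    fun k _ => ⟨zero_le_one, hsq1, hgoodk k, hLm⟩
  -- mean square
  set Y : ℝ → ℝ := fun u => ((1 + s) * G * (T / (2 * Real.pi))) * innT u +
    (CM * G) * (T + L * (u + 1)) with hY
  have hms : ∀ u ∈ Set.Icc 0 Λ,
      ∫ t : ℝ, ∑ k : Fin g, (1 : ℝ) * ‖∑' n : ℕ, aG (e k) (lam k) n *
        ((Real.sqrt n : ℂ)⁻¹ * bt T u t (Real.log n))‖ ^ 2 ≤ Y u := by
    intro u hu
    simp only [one_mul]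
    exact hmean q (by omega) g e lam G (fun k => (hLF k).seq) hsec hgG T L u (by linarith) hT1' hTL hu.1 hu.2
  set y1 : ℝ := G * (2 * Ci + CM) with hy1
  set y2 : ℝ := CM * G with hy2
  have hy10 : 0 ≤ y1 := by positivity
  have hy20 : 0 ≤ y2 := by positivity
  have hLT : L ≤ T := by linarith
  have hYb : ∀ u ∈ Set.Icc 0 Λ, Y u ≤ T * (y1 * (u + 1) + y2) := by
    intro u hu
    have hu1 : 0 ≤ u + 1 := by linarith [hu.1]
    have h1 := hinn u hu.1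
    have h3 : T / (2 * Real.pi) ≤ T / 6 := by
      apply div_le_div_of_nonneg_left hTpos.le (by norm_num) (by linarith [Real.pi_gt_three])
    have h4 : 0 ≤ T / (2 * Real.pi) := by positivity
    have h5 := nm5 hs0 hs1 hG0 hTpos h4 h3 (inner_nonneg 10 u) h1
    exact nm6 hG0 hCM.le hLT hu1 h5 rfl
  have hYi : IntervalIntegrable Y volume 0 Λ := by
    have hc2 : Continuous innT := inner_continuous (by norm_num)
    have : Continuous Y := by
      rw [hY]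
      exact (continuous_const.mul hc2).add (by fun_prop)
    exact this.intervalIntegrable _ _
  have k1 := hfam (Finset.univ : Finset (Fin g)) (fun _ => (1 : ℝ)) (fun _ => Real.sqrt q)
    (fun k => GF (F k)) (fun k => aG (e k) (lam k)) T L Λ ((1 / 2 + s) * L) y1 y2 Y
    hdata p1 p2 p3 p4 hLm1 hexp hy10 hy20 hms hYb hYi
  have k2 := hfam' (Finset.univ : Finset (Fin g)) (fun _ => (1 : ℝ)) (fun _ => Real.sqrt q)
    (fun k => GF (F k)) (fun k => aG (e k) (lam k)) T L Λ ((1 / 2 + s) * L) y1 y2 Y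
    hdata p1 p2 p3 p4 hLm1 hexp hy10 hy20 hms hYb hYi
  simp only [one_mul, Finset.sum_const, Finset.card_univ, Fintype.card_fin, nsmul_eq_mul,
    mul_one] at k1 k2
  -- the integral of Y
  have hΛY : LY ≤ Λ := by
    have : 9 * L ≤ Λ := nl1 hs1 (by linarith)
    linarith
  have hYI := hYint Λ ((1 + s) * G * (T / (2 * Real.pi))) (CM * G) T L hΛY (by positivity)
    (by positivity) hTpos.le (by linarith)
  -- lower bound for the number of zeros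
  have hN : (g : ℝ) * (T / (2 * Real.pi) * (10 * L) - 5 * C2 * T) ≤
      ∑ k, (NN (GF (F k)) T (2 * T) : ℝ) := by
    have : (g : ℝ) * (T / (2 * Real.pi) * (10 * L) - 5 * C2 * T) =
        ∑ _k : Fin g, (T / (2 * Real.pi) * (10 * L) - 5 * C2 * T) := by
      rw [Finset.sum_const, Finset.card_univ, Fintype.card_fin, nsmul_eq_mul]
    rw [this]
    refine Finset.sum_le_sum fun k _ => ?_
    have hl := hlow (Real.sqrt q) (GF (F k)) _ hsq1 (hgoodk k) T L p1 p2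
    refine le_trans ?_ hl
    have a1 : T / (2 * Real.pi) * (10 * L) ≤
        T / (2 * Real.pi) * (20 * Real.log (Real.sqrt q * T)) := by
      apply mul_le_mul_of_nonneg_left _ (by positivity)
      rw [hlogQT]; linarith
    have a2 : L * Real.log (Real.sqrt q * T) ≤ 3 * T := by
      have : L * Real.log (Real.sqrt q * T) ≤ L * (3 * L) :=
        mul_le_mul_of_nonneg_left (hLm.trans hLmL) (by linarith)
      linarith [show L * (3 * L) = 3 * L ^ 2 by ring]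
    have hlog0 : 0 ≤ Real.log (Real.sqrt q * T) := by rw [hlogQT]; linarith
    have a3 : T * Real.log (Real.sqrt q * T) ^ 2 * Real.exp (-L ^ 2 / 2) ≤ T := by
      have b1 : Real.log (Real.sqrt q * T) ^ 2 ≤ (3 * L) ^ 2 :=
        pow_le_pow_left₀ hlog0 (hLm.trans hLmL) 2
      have b2 : Real.log (Real.sqrt q * T) ^ 2 * Real.exp (-L ^ 2 / 2) ≤ 1 := by
        refine le_trans (mul_le_mul_of_nonneg_right b1 (Real.exp_pos _).le) ?_
        rw [show (3 * L) ^ 2 = 9 * L ^ 2 by ring]; exact p6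
      calc _ = T * (Real.log (Real.sqrt q * T) ^ 2 * Real.exp (-L ^ 2 / 2)) := by ring
        _ ≤ T * 1 := mul_le_mul_of_nonneg_left b2 hTpos.le
        _ = T := mul_one T
    have a4 : C2 * (T + L * Real.log (Real.sqrt q * T) +
        T * Real.log (Real.sqrt q * T) ^ 2 * Real.exp (-L ^ 2 / 2)) ≤ C2 * (5 * T) :=
      mul_le_mul_of_nonneg_left (by linarith) hC2.le
    linarith
  have hbig : X ≤ 5 * e0 / (2 * Real.pi) * L := by
    have h5 : 0 < 5 * e0 / (2 * Real.pi) := by positivity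
    have : X / (5 * e0 / (2 * Real.pi)) ≤ L := by linarith
    rw [div_le_iff₀ h5] at this
    linarith
  have core : ∀ (D SM : ℝ), 0 < D → D ≤ CC →
      SM ≤ (g : ℝ) * (20 * ((1 / 2 + s) * L)) ^ 2 * Rw γ 0 * T / (2 * Real.pi * Λ) +
        (2 / (Real.sqrt Real.pi * Λ)) * (∫ u in (0 : ℝ)..Λ, Rw γ (u / Λ) * Y u) +
        D * ((g : ℝ) * (((1 / 2 + s) * L) ^ 2 * L / Λ + ((1 / 2 + s) * L) * T / Λ +
          L * ((1 / 2 + s) * L)) + Real.sqrt g * ((1 / 2 + s) * L) * T *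
            (Real.sqrt y1 + Real.sqrt y2) / Λ) →
      SM ≤ 1.3275 * ∑ k, (NN (GF (F k)) T (2 * T) : ℝ) := by
    intro D SM hD hDC hSM
    have hpos : 0 ≤ (g : ℝ) * (((1 / 2 + s) * L) ^ 2 * L / Λ + ((1 / 2 + s) * L) * T / Λ +
          L * ((1 / 2 + s) * L)) + Real.sqrt g * ((1 / 2 + s) * L) * T *
            (Real.sqrt y1 + Real.sqrt y2) / Λ := by positivity
    have h1 := mul_le_mul_of_nonneg_right hDC hpos
    have h3 : (2 / (Real.sqrt Real.pi * Λ)) * (∫ u in (0 : ℝ)..Λ, Rw γ (u / Λ) * Y u) ≤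
        (2 / (Real.sqrt Real.pi * Λ)) * (((1 + s) * G * (T / (2 * Real.pi))) *
        (Real.sqrt Real.pi * Λ ^ 2 * (J + s)) + (CM * G) * (R * Λ * (T + L * (Λ + 1)))) :=
      mul_le_mul_of_nonneg_left hYI (by positivity)
    exact num_core (L := L) (T := T) (g := (g : ℝ)) (G := G) (R := R) (J := J) (s := s)
      (κ0 := 1.3275) (C1 := CC) (CM := CM) (Ci := Ci) (C2 := C2) (Λ := Λ) (y1 := y1) (y2 := y2)
      hs0 hs1 hR0 hJ0 (by norm_num) hch hCC0.le hCM.le hCi.le (by linarith) hT1 hg0R hgG hGg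
      rfl rfl rfl hbig (hSM.trans (add_le_add (add_le_add le_rfl h3) h1)) hN
  have hlow2 : (g : ℝ) * T * L ≤ ∑ k, (NN (GF (F k)) T (2 * T) : ℝ) := by
    refine le_trans ?_ hN
    have h10 : 10 * C2 ≤ L := by linarith
    have h11 : 8 / 5 * L ≤ 1 / (2 * Real.pi) * (10 * L) + 1 / 10 * L := by
      have h12 : 3 / 20 ≤ 1 / (2 * Real.pi) := by
        rw [le_div_iff₀ (by positivity)]
        have := Real.pi_lt_d2
        linarith
      have : 3 / 20 * (10 * L) ≤ 1 / (2 * Real.pi) * (10 * L) :=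
        mul_le_mul_of_nonneg_right h12 (by linarith)
      linarith
    have h13 : L ≤ 1 / (2 * Real.pi) * (10 * L) - 5 * C2 := by linarith
    have h14 := mul_le_mul_of_nonneg_left h13 hTpos.le
    have h15 : T * (1 / (2 * Real.pi) * (10 * L) - 5 * C2) =
        T / (2 * Real.pi) * (10 * L) - 5 * C2 * T := by ring
    rw [h15] at h14
    calc (g : ℝ) * T * L = g * (T * L) := by ring
      _ ≤ _ := mul_le_mul_of_nonneg_left h14 hg0R.le
  exact ⟨core C1 _ hC1 (le_max_left _ _) k1, core C1' _ hC1' (le_max_right _ _) k2, hlow2⟩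

end Pool.Agent.Zk20.KS
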