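import Pool.Agent.N880.HQ.Main
import Pool.Agent.Zk20.KS.GoodK

/-! # The mean square of the prime sums over an abstract family -/

set_option autoImplicit false

open Complex Filter Topology Module MeasureTheory Set
open Pool.Agent.N7.HeckeId (HeckeC cC cC_prime cC_pow)
open Pool.Agent.N7.MainC (inner inner_summable inner_continuous inner_nonneg inner_le main_c)
open H385 (bt wt Rw bt_norm wt_nonneg wt_le_one bt_sq_int wt_sq_int)
open Pool.Agent.N880.HQ (Seq aG GF vH vH_nonneg tail_le' K0 K0_nonneg cf Pf_eq sq_add_le sum1 sum2)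

namespace Pool.Agent.Zk20.KS

/-- the second moment inequality -/
def SM (q g : ℕ) (e lam : Fin g → ℕ → ℂ) (G : ℝ) : Prop :=
  ∀ M : ℕ, 4 * M ≤ q + 3 → ∀ c : ℕ → ℂ,
    ∑ k, ‖∑ m ∈ Finset.range M, c m * ((ArithmeticFunction.vonMangoldt m : ℂ) *
        cC (e k) (lam k) m)‖ ^ 2 ≤
      G * ∑ m ∈ Finset.range M, ‖c m‖ ^ 2 * ArithmeticFunction.vonMangoldt m ^ 2 * m * vH m

theorem mean_sq {δ ε : ℝ} (hδ : 0 < δ) (hε : 0 < ε) (hε1 : ε ≤ 1) : ∃ C : ℝ, 0 < C ∧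
    ∀ (q : ℕ), 1 ≤ q → ∀ (g : ℕ) (e lam : Fin g → ℕ → ℂ) (G : ℝ), (∀ k, Seq (e k) (lam k)) →
      SM q g e lam G → (g : ℝ) ≤ G →
    ∀ T κ u : ℝ, 1 ≤ κ → 1 ≤ T → T ≤ Real.exp (κ ^ 2) → 0 ≤ u → u ≤ 10 * (1 - ε) * Real.log q →
    ∫ t : ℝ, ∑ k : Fin g, ‖∑' n : ℕ, aG (e k) (lam k) n *
      ((Real.sqrt n : ℂ)⁻¹ * bt T u t (Real.log n))‖ ^ 2 ≤
      (1 + δ) * G * (T / (2 * Real.pi)) * inner 10 u +
        C * G * (T + κ * (u + 1)) := by
  obtain ⟨C1, hC1, htail⟩ := tail_le' hε hε1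
  obtain ⟨C3, hC3, hwt⟩ := wt_sq_int
  obtain ⟨C4, hC4, hbt⟩ := bt_sq_int
  obtain ⟨C5, hC5, hs2⟩ := sum2
  have hK0 := K0_nonneg
  refine ⟨(1 + δ) * K0 + (1 + δ) * C4 * C5 + (1 + 1 / δ) * C1 ^ 2 * (1 + C3), by positivity, ?_⟩
  intro q hq1 g e lam G hS hsec hg T κ u hκ hT hTκ hu0 hu
  have hG0 : 0 ≤ G := le_trans (Nat.cast_nonneg g) hg
  set M : ℕ := (q + 3) / 4 with hM
  have hM1 : 4 * M ≤ q + 3 := by omega
  have hM2 : q ≤ 4 * M := by omega
  have hT0 : 0 ≤ T := by linarith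
  set A : Fin g → ℝ → ℂ := fun k t => ∑ m ∈ Finset.range M, cf T u t m *
    ((ArithmeticFunction.vonMangoldt m : ℂ) * cC (e k) (lam k) m) with hA
  have hpt : ∀ t : ℝ, ∑ k : Fin g, ‖∑' n : ℕ, aG (e k) (lam k) n *
      ((Real.sqrt n : ℂ)⁻¹ * bt T u t (Real.log n))‖ ^ 2 ≤
      (1 + δ) * G * (∑ m ∈ Finset.range M, 100 * (ArithmeticFunction.vonMangoldt m ^ 2 / m) * vH m *
        ‖bt T u t (10 * Real.log m)‖ ^ 2) + (1 + 1 / δ) * G * C1 ^ 2 * wt T t ^ 2 := by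
    intro t
    have hk : ∀ k : Fin g, ‖∑' n : ℕ, aG (e k) (lam k) n *
        ((Real.sqrt n : ℂ)⁻¹ * bt T u t (Real.log n))‖ ^ 2 ≤ (1 + δ) * ‖A k t‖ ^ 2 +
        (1 + 1 / δ) * (C1 * wt T t) ^ 2 := by
      intro k
      rw [Pf_eq]
      have h1 := htail _ _ (hS k) T u t hT0 q M hq1 hM2 hu
      have h3 : ‖∑' m : ℕ, cf T u t m * ((ArithmeticFunction.vonMangoldt m : ℂ) *
          cC (e k) (lam k) m)‖ ≤ ‖A k t‖ + C1 * wt T t := by
        have := norm_le_norm_add_norm_sub' (∑' m : ℕ, cf T u t m *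
          ((ArithmeticFunction.vonMangoldt m : ℂ) * cC (e k) (lam k) m)) (A k t)
        linarith
      exact (pow_le_pow_left₀ (norm_nonneg _) h3 2).trans (sq_add_le hδ _ _)
    refine (Finset.sum_le_sum fun k _ => hk k).trans ?_
    rw [Finset.sum_add_distrib, ← Finset.mul_sum, Finset.sum_const, Finset.card_univ,
      Fintype.card_fin, nsmul_eq_mul]
    have h4 := hsec M hM1 (cf T u t)
    have h5 : ∑ m ∈ Finset.range M, ‖cf T u t m‖ ^ 2 * ArithmeticFunction.vonMangoldt m ^ 2 * m *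
        vH m = ∑ m ∈ Finset.range M, 100 * (ArithmeticFunction.vonMangoldt m ^ 2 / m) * vH m *
        ‖bt T u t (10 * Real.log m)‖ ^ 2 := by
      refine Finset.sum_congr rfl fun m _ => ?_
      unfold cf
      rw [norm_mul, norm_div, Complex.norm_natCast]
      have : ‖(10 : ℂ)‖ = 10 := by norm_num
      rw [this]
      rcases Nat.eq_zero_or_pos m with rfl | hm
      · simp
      · have hm0 : (0 : ℝ) < m := by exact_mod_cast hm
        field_simp
        ring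
    rw [h5] at h4
    have h6 : (g : ℝ) * ((1 + 1 / δ) * (C1 * wt T t) ^ 2) ≤ G * ((1 + 1 / δ) * (C1 * wt T t) ^ 2) :=
      mul_le_mul_of_nonneg_right hg (by positivity)
    have h7 : (1 + δ) * ∑ k : Fin g, ‖A k t‖ ^ 2 ≤ (1 + δ) * (G * ∑ m ∈ Finset.range M,
        100 * (ArithmeticFunction.vonMangoldt m ^ 2 / m) * vH m *
        ‖bt T u t (10 * Real.log m)‖ ^ 2) := mul_le_mul_of_nonneg_left h4 (by linarith)
    nlinarith
  -- integrate
  have hbti : ∀ m : ℕ, Integrable (fun t => ‖bt T u t (10 * Real.log m)‖ ^ 2) := fun m =>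
    (hbt T κ u (10 * Real.log m) hκ hT hTκ).1
  have hi1 : Integrable (fun t => ∑ m ∈ Finset.range M, 100 *
      (ArithmeticFunction.vonMangoldt m ^ 2 / m) * vH m * ‖bt T u t (10 * Real.log m)‖ ^ 2) :=
    integrable_finsetSum _ fun m _ => (hbti m).const_mul _
  have hi2 : Integrable (fun t => wt T t ^ 2) := (hwt T hT0).1
  have hint : Integrable (fun t => (1 + δ) * G * (∑ m ∈ Finset.range M, 100 *
      (ArithmeticFunction.vonMangoldt m ^ 2 / m) * vH m * ‖bt T u t (10 * Real.log m)‖ ^ 2) +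
      (1 + 1 / δ) * G * C1 ^ 2 * wt T t ^ 2) := (hi1.const_mul _).add (hi2.const_mul _)
  refine (integral_mono_of_nonneg (Eventually.of_forall fun t =>
    Finset.sum_nonneg fun k _ => by positivity) hint (Eventually.of_forall hpt)).trans ?_
  rw [integral_add (hi1.const_mul _) (hi2.const_mul _), integral_const_mul, integral_const_mul,
    integral_finsetSum _ (fun m _ => (hbti m).const_mul _)]
  simp_rw [integral_const_mul]
  have hb1 : ∀ m ∈ Finset.range M, 100 * (ArithmeticFunction.vonMangoldt m ^ 2 / m) * vH m *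
      ∫ t : ℝ, ‖bt T u t (10 * Real.log m)‖ ^ 2 ≤
      (T / (2 * Real.pi)) * (100 * (ArithmeticFunction.vonMangoldt m ^ 2 / m) * vH m *
        Real.exp (-(u - 10 * Real.log m) ^ 2)) +
      C4 * κ * (100 * (ArithmeticFunction.vonMangoldt m ^ 2 / m) * vH m *
        Real.exp (-(u - 10 * Real.log m) ^ 2 / 2)) := by
    intro m _
    have h1 := (hbt T κ u (10 * Real.log m) hκ hT hTκ).2
    have h3 : 0 ≤ 100 * (ArithmeticFunction.vonMangoldt m ^ 2 / m) * vH m := by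
      have := vH_nonneg m
      positivity
    refine (mul_le_mul_of_nonneg_left h1 h3).trans (le_of_eq ?_)
    ring
  have hb2 := Finset.sum_le_sum hb1
  rw [Finset.sum_add_distrib, ← Finset.mul_sum, ← Finset.mul_sum] at hb2
  have h8 := sum1 M u
  have h9 := hs2 M u hu0
  have hTp : 0 ≤ T / (2 * Real.pi) := by positivity
  have hTp' : T / (2 * Real.pi) ≤ T := div_le_self hT0 (by nlinarith [Real.pi_gt_three])
  have h10 : (∑ m ∈ Finset.range M, 100 * (ArithmeticFunction.vonMangoldt m ^ 2 / m) * vH m *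
      ∫ t : ℝ, ‖bt T u t (10 * Real.log m)‖ ^ 2) ≤ (T / (2 * Real.pi)) * (inner 10 u + K0) +
      C4 * κ * (C5 * (u + 1)) := by
    refine hb2.trans (add_le_add ?_ ?_)
    · exact mul_le_mul_of_nonneg_left h8 hTp
    · exact mul_le_mul_of_nonneg_left h9 (by positivity)
  have h11 := (hwt T hT0).2
  have h12 : (1 + δ) * G * (∑ m ∈ Finset.range M, 100 * (ArithmeticFunction.vonMangoldt m ^ 2 / m) *
      vH m * ∫ t : ℝ, ‖bt T u t (10 * Real.log m)‖ ^ 2) ≤ (1 + δ) * G *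
      ((T / (2 * Real.pi)) * (inner 10 u + K0) + C4 * κ * (C5 * (u + 1))) :=
    mul_le_mul_of_nonneg_left h10 (by positivity)
  have h13 : (1 + 1 / δ) * G * C1 ^ 2 * ∫ t : ℝ, wt T t ^ 2 ≤ (1 + 1 / δ) * G * C1 ^ 2 * (T + C3) :=
    mul_le_mul_of_nonneg_left h11 (by positivity)
  refine (add_le_add h12 h13).trans ?_
  have h14 : T + C3 ≤ (1 + C3) * T := by nlinarith
  have h15 : 0 ≤ κ * (u + 1) := by positivity
  have h16 : (1 + 1 / δ) * G * C1 ^ 2 * (T + C3) ≤ (1 + 1 / δ) * G * C1 ^ 2 * ((1 + C3) * T) :=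
    mul_le_mul_of_nonneg_left h14 (by positivity)
  have h17 : (1 + δ) * G * ((T / (2 * Real.pi)) * K0) ≤ (1 + δ) * G * (T * K0) := by
    gcongr
  have a1 : 0 ≤ (1 + δ) * K0 * G * (κ * (u + 1)) := by positivity
  have a2 : 0 ≤ (1 + δ) * C4 * C5 * G * T := by positivity
  have a3 : 0 ≤ (1 + 1 / δ) * C1 ^ 2 * (1 + C3) * G * (κ * (u + 1)) := by positivity
  calc (1 + δ) * G * (T / (2 * Real.pi) * (inner 10 u + K0) + C4 * κ * (C5 * (u + 1))) +
      (1 + 1 / δ) * G * C1 ^ 2 * (T + C3) =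
      (1 + δ) * G * (T / (2 * Real.pi)) * inner 10 u + (1 + δ) * G * ((T / (2 * Real.pi)) * K0) +
      (1 + δ) * C4 * C5 * G * (κ * (u + 1)) + (1 + 1 / δ) * G * C1 ^ 2 * (T + C3) := by ring
    _ ≤ (1 + δ) * G * (T / (2 * Real.pi)) * inner 10 u + (1 + δ) * G * (T * K0) +
      (1 + δ) * C4 * C5 * G * (κ * (u + 1)) + (1 + 1 / δ) * G * C1 ^ 2 * ((1 + C3) * T) := by
        linarith
    _ ≤ _ := by nlinarith

end Pool.Agent.Zk20.KS
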