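import Pool.Agent.Zk20.KS.WPois
import Pool.Agent.N880.HQ.Ops

/-! # Hecke operators on tensor valued functions on a set with an action of the Hurwitz order -/

set_option autoImplicit false

open Complex

namespace Pool.Agent.Zk20.KS

open Pool.Agent.N880.HQ (Hur S mem_S card_S_one card_S_prime sum_coprime sum_prime unit_mul_mem
  conj_mem_S mul_unit_mem pi2 nrm_pi2 sum_two)
open Pool.Agent.N880.HQ.Hur

/-- a set with a right action of the multiplicative monoid of the Hurwitz order -/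
structure Act (Ω : Type*) where
  /-- the action -/
  act : Ω → Hur → Ω
  one : ∀ ω, act ω 1 = ω
  mul : ∀ ω α β, act ω (α * β) = act (act ω α) β

variable {Ω : Type*} (A : Act Ω) (j : ℕ)

/-- the operator `(R_α Φ)(ω) = ρ(α) Φ(ω α)` -/
noncomputable def R (α : Hur) : (Ω × Y j → ℂ) →ₗ[ℂ] (Ω × Y j → ℂ) where
  toFun Φ p := ∑ b : Y j, rho j α p.2 b * Φ (A.act p.1 α, b)
  map_add' Φ Ψ := by
    funext p
    simp [mul_add, Finset.sum_add_distrib]
  map_smul' c Φ := by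
    funext p
    simp only [Pi.smul_apply, smul_eq_mul, RingHom.id_apply, Finset.mul_sum]
    exact Finset.sum_congr rfl fun b _ => by ring

/-- the Hecke operator `T_n = (1/24) ∑_{N(α) = n} R_α` -/
noncomputable def T (n : ℕ) : (Ω × Y j → ℂ) →ₗ[ℂ] (Ω × Y j → ℂ) :=
  (1 / 24 : ℂ) • ∑ α ∈ S n, R A j α

/-- the operator `Φ(ω, a) ↦ Φ(ω n, a)` -/
noncomputable def Dn (n : ℕ) : (Ω × Y j → ℂ) →ₗ[ℂ] (Ω × Y j → ℂ) where
  toFun Φ p := Φ (A.act p.1 (n : Hur), p.2)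
  map_add' _ _ := rfl
  map_smul' _ _ := rfl

variable {A j}

lemma R_apply (α : Hur) (Φ : Ω × Y j → ℂ) (p : Ω × Y j) :
    R A j α Φ p = ∑ b : Y j, rho j α p.2 b * Φ (A.act p.1 α, b) := rfl

lemma Dn_apply (n : ℕ) (Φ : Ω × Y j → ℂ) (p : Ω × Y j) :
    Dn A j n Φ p = Φ (A.act p.1 (n : Hur), p.2) := rfl

lemma T_apply (n : ℕ) (Φ : Ω × Y j → ℂ) : T A j n Φ = (1 / 24 : ℂ) • ∑ α ∈ S n, R A j α Φ := by
  simp [T, LinearMap.sum_apply]

lemma T_apply' (n : ℕ) (Φ : Ω × Y j → ℂ) (p : Ω × Y j) :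
    T A j n Φ p = (1 / 24 : ℂ) * ∑ α ∈ S n, R A j α Φ p := by
  rw [T_apply, Pi.smul_apply, Finset.sum_apply, smul_eq_mul]

lemma R_R (α β : Hur) (Φ : Ω × Y j → ℂ) : R A j α (R A j β Φ) = R A j (α * β) Φ := by
  funext p
  simp only [R_apply, Finset.mul_sum, rho_mul, Finset.sum_mul]
  rw [Finset.sum_comm]
  refine Finset.sum_congr rfl fun c _ => Finset.sum_congr rfl fun b _ => ?_
  rw [A.mul]
  ring

lemma R_one (Φ : Ω × Y j → ℂ) : R A j 1 Φ = Φ := by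
  funext p
  rw [R_apply]
  simp_rw [rho_one, ite_mul, one_mul, zero_mul]
  rw [Finset.sum_ite_eq, if_pos (Finset.mem_univ _), A.one]

lemma R_nat_mul (n : ℕ) (γ : Hur) (Φ : Ω × Y j → ℂ) :
    R A j ((n : Hur) * γ) Φ = ((n : ℂ) ^ j) • Dn A j n (R A j γ Φ) := by
  funext p
  rw [R_apply, Pi.smul_apply, Dn_apply, R_apply, smul_eq_mul, Finset.mul_sum]
  refine Finset.sum_congr rfl fun b _ => ?_
  rw [rho_natCast_mul, A.mul]
  ring

lemma Dn_R (n : ℕ) (γ : Hur) (Φ : Ω × Y j → ℂ) : Dn A j n (R A j γ Φ) = R A j γ (Dn A j n Φ) := by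
  funext p
  rw [Dn_apply, R_apply, R_apply]
  refine Finset.sum_congr rfl fun b _ => ?_
  rw [Dn_apply]
  simp only
  rw [← A.mul, ← A.mul]
  have : ((n : ℕ) : Hur) * γ = γ * ((n : ℕ) : Hur) := Nat.cast_comm n γ
  rw [this]

lemma Dn_T (n m : ℕ) (Φ : Ω × Y j → ℂ) : Dn A j n (T A j m Φ) = T A j m (Dn A j n Φ) := by
  rw [T_apply, T_apply, map_smul, map_sum]
  simp_rw [Dn_R]

lemma T_T (m n : ℕ) (Φ : Ω × Y j → ℂ) : T A j m (T A j n Φ) = (1 / 24 : ℂ) • ((1 / 24 : ℂ) •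
    ∑ α ∈ S m, ∑ β ∈ S n, R A j (α * β) Φ) := by
  have h : ∀ α : Hur, R A j α (T A j n Φ) = (1 / 24 : ℂ) • ∑ β ∈ S n, R A j (α * β) Φ := by
    intro α
    rw [T_apply, map_smul, map_sum]
    simp_rw [R_R]
  rw [T_apply]
  simp_rw [h]
  rw [← Finset.smul_sum]

lemma T_T' (m n : ℕ) (Φ : Ω × Y j → ℂ) (v : Ω × Y j) : T A j m (T A j n Φ) v =
    (1 / 576 : ℂ) * ∑ α ∈ S m, ∑ β ∈ S n, R A j (α * β) Φ v := by
  rw [T_T, Pi.smul_apply, Pi.smul_apply, Finset.sum_apply, smul_eq_mul, smul_eq_mul, ← mul_assoc]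
  simp_rw [Finset.sum_apply]
  norm_num

lemma T_mul {m n : ℕ} (hm : 0 < m) (hn : 0 < n) (hc : Nat.Coprime m n) (Φ : Ω × Y j → ℂ) :
    T A j m (T A j n Φ) = T A j (m * n) Φ := by
  funext v
  rw [T_T', sum_coprime hm hn hc (fun γ => R A j γ Φ v), T_apply', nsmul_eq_mul]
  push_cast
  ring

lemma T_prime {p : ℕ} (hp : p.Prime) (hp2 : p ≠ 2) (k : ℕ) (Φ : Ω × Y j → ℂ) :
    T A j p (T A j (p ^ (k + 1)) Φ) =
      T A j (p ^ (k + 2)) Φ + ((p : ℂ) * (p : ℂ) ^ j) • Dn A j p (T A j (p ^ k) Φ) := by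
  have : Fact p.Prime := ⟨hp⟩
  funext v
  have h := sum_prime hp k (fun γ => R A j γ Φ v)
  rw [card_S_prime hp2] at h
  have e : ∑ γ ∈ S (p ^ k), R A j ((p : Hur) * γ) Φ v =
      (p : ℂ) ^ j * ∑ γ ∈ S (p ^ k), R A j γ Φ (A.act v.1 (p : Hur), v.2) := by
    rw [Finset.mul_sum]
    refine Finset.sum_congr rfl fun γ _ => ?_
    rw [R_nat_mul, Pi.smul_apply, smul_eq_mul, Dn_apply]
  rw [e, nsmul_eq_mul, nsmul_eq_mul, nsmul_eq_mul] at h
  rw [T_T', Pi.add_apply, Pi.smul_apply, smul_eq_mul, Dn_apply, T_apply', T_apply']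
  push_cast at h ⊢
  linear_combination (1 / 576 : ℂ) * h

/-- invariance under the units -/
def UInv (A : Act Ω) (Φ : Ω × Y j → ℂ) : Prop := ∀ u ∈ S 1, R A j u Φ = Φ

lemma UInv.dn {Φ : Ω × Y j → ℂ} (h : UInv A Φ) (n : ℕ) : UInv A (Dn A j n Φ) := by
  intro u hu
  rw [← Dn_R, h u hu]

lemma T_one {Φ : Ω × Y j → ℂ} (hΦ : UInv A Φ) : T A j 1 Φ = Φ := by
  rw [T_apply, Finset.sum_congr rfl (fun α hα => hΦ α hα), Finset.sum_const, card_S_one,
    ← Nat.cast_smul_eq_nsmul ℂ, smul_smul]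
  norm_num

lemma T_uinv (n : ℕ) (Φ : Ω × Y j → ℂ) : UInv A (T A j n Φ) := by
  intro u hu
  have hu' : nrm u = 1 := by have := mem_S.1 hu; simpa using this
  rw [T_apply, map_smul, map_sum]
  congr 1
  simp_rw [R_R]
  refine Finset.sum_bij (fun α _ => u * α) (fun α hα => unit_mul_mem hu hα) ?_ ?_ ?_
  · intro a _ b _ h
    exact mul_left_cancel' (by rintro rfl; rw [nrm_zero] at hu'; omega) h
  · intro b hb
    refine ⟨conj u * b, unit_mul_mem (conj_mem_S hu) hb, ?_⟩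
    rw [← mul_assoc, (isUnit_of_nrm hu').2, one_mul]
  · intro a _
    rfl

lemma sum_two' {M : Type*} [AddCommMonoid M] (n : ℕ) (f : Hur → M) :
    ∑ γ ∈ S (2 * n), f γ = ∑ ε ∈ S n, f (pi2 * ε) := by
  symm
  have hpi0 : pi2 ≠ 0 := by
    intro h
    have := congrArg Hur.a h
    simp [pi2] at this
  refine Finset.sum_bij (fun ε _ => pi2 * ε) ?_ ?_ ?_ (fun _ _ => rfl)
  · intro ε hε
    rw [mem_S] at hε ⊢
    rw [nrm_mul, nrm_pi2, hε]
    push_cast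
    ring
  · intro a _ b _ h
    exact mul_left_cancel' hpi0 h
  · intro γ hγ
    rw [mem_S] at hγ
    push_cast at hγ
    obtain ⟨ε, hε⟩ := Pool.Agent.N880.HQ.exists_left_pi2 (γ := γ) ⟨n, hγ⟩
    refine ⟨ε, ?_, hε.symm⟩
    rw [mem_S]
    rw [hε, nrm_mul, nrm_pi2] at hγ
    omega

lemma T_two (n : ℕ) (Φ : Ω × Y j → ℂ) : T A j (2 * n) Φ = R A j pi2 (T A j n Φ) := by
  rw [T_apply, T_apply, sum_two', map_smul, map_sum]
  simp_rw [R_R]

lemma T_two_comp (n : ℕ) (Φ : Ω × Y j → ℂ) : T A j 2 (T A j n Φ) = T A j (2 * n) Φ := by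
  have h : ∀ m : ℕ, m = 1 → T A j (2 * m) (T A j n Φ) = R A j pi2 (T A j n Φ) := by
    intro m hm
    rw [T_two, hm, T_one (T_uinv n Φ)]
  have h1 := h 1 rfl
  rw [T_two n Φ, ← h1, mul_one]

lemma T_comm_prime {p l : ℕ} (hp : p.Prime) (hl : l.Prime) (Φ : Ω × Y j → ℂ) :
    T A j p (T A j l Φ) = T A j l (T A j p Φ) := by
  by_cases hpl : p = l
  · rw [hpl]
  · have c1 := (Nat.coprime_primes hp hl).2 hpl
    rw [T_mul hp.pos hl.pos c1, T_mul hl.pos hp.pos c1.symm, mul_comm]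

/-- an operator which commutes with the `T_p` and the `Dn p` commutes with all `T_n` -/
lemma comm_all (X : (Ω × Y j → ℂ) →ₗ[ℂ] (Ω × Y j → ℂ)) (hX : ∀ Φ, UInv A Φ → UInv A (X Φ))
    (hT : ∀ p : ℕ, p.Prime → ∀ Φ, UInv A Φ → X (T A j p Φ) = T A j p (X Φ))
    (hD : ∀ p : ℕ, p.Prime → ∀ Φ, UInv A Φ → X (Dn A j p Φ) = Dn A j p (X Φ)) {n : ℕ} (hn0 : 0 < n)
    {Φ : Ω × Y j → ℂ} (h : UInv A Φ) : X (T A j n Φ) = T A j n (X Φ) := by
  induction n using Nat.recOnPosPrimePosCoprime generalizing Φ with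
  | prime_pow p n hp hn =>
    have key : ∀ k : ℕ, ∀ Φ : Ω × Y j → ℂ, UInv A Φ →
        X (T A j (p ^ k) Φ) = T A j (p ^ k) (X Φ) ∧
        X (T A j (p ^ (k + 1)) Φ) = T A j (p ^ (k + 1)) (X Φ) := by
      intro k
      induction k with
      | zero =>
        intro Φ h
        rw [pow_zero, T_one h, T_one (hX Φ h), zero_add, pow_one]
        exact ⟨rfl, hT p hp Φ h⟩
      | succ k ih =>
        intro Φ h
        obtain ⟨i1, i2⟩ := ih Φ h
        refine ⟨i2, ?_⟩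
        by_cases hp2 : p = 2
        · subst hp2
          have e : ∀ Ψ : Ω × Y j → ℂ, T A j (2 ^ (k + 1 + 1)) Ψ = T A j 2 (T A j (2 ^ (k + 1)) Ψ) := by
            intro Ψ
            rw [T_two_comp, ← pow_succ']
          rw [e, e, hT 2 hp _ (T_uinv _ _), i2]
        · have e : ∀ Ψ : Ω × Y j → ℂ, T A j (p ^ (k + 1 + 1)) Ψ = T A j p (T A j (p ^ (k + 1)) Ψ) -
              ((p : ℂ) * (p : ℂ) ^ j) • Dn A j p (T A j (p ^ k) Ψ) := by
            intro Ψ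
            rw [T_prime hp hp2, add_sub_cancel_right]
          rw [e, e, map_sub, map_smul, hT p hp _ (T_uinv _ _), i2, hD p hp _ (T_uinv _ _), i1]
    exact (key n Φ h).1
  | zero => omega
  | one => rw [T_one h, T_one (hX Φ h)]
  | coprime a b ha hb hab iha ihb =>
    rw [← T_mul (by omega : 0 < a) (by omega : 0 < b) hab, iha (by omega) (T_uinv _ _),
      ihb (by omega) h, T_mul (by omega : 0 < a) (by omega : 0 < b) hab]

/-- the Hecke operators commute on forms -/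
lemma T_comm {m n : ℕ} (hm : 0 < m) (hn : 0 < n) {Φ : Ω × Y j → ℂ} (h : UInv A Φ) :
    T A j m (T A j n Φ) = T A j n (T A j m Φ) := by
  have hpn : ∀ p : ℕ, p.Prime → ∀ k : ℕ, 0 < k → ∀ Φ : Ω × Y j → ℂ, UInv A Φ →
      T A j p (T A j k Φ) = T A j k (T A j p Φ) := fun p hp k hk Φ h =>
    comm_all (T A j p) (fun Φ _ => T_uinv p Φ) (fun l hl Φ _ => T_comm_prime hp hl Φ)
      (fun l _ Φ _ => (Dn_T l p Φ).symm) hk h
  exact comm_all (T A j m) (fun Φ _ => T_uinv m Φ)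
    (fun p hp Φ h => (hpn p hp m hm Φ h).symm) (fun l _ Φ _ => (Dn_T l m Φ).symm) hn h

end Pool.Agent.Zk20.KS
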