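import Pool.Agent.N880.HQ.HPois
import Pool.Agent.Zk20.KS.Extr

/-! # Poisson summation for the Hurwitz order with an additive character and an isotropic
exponential -/

set_option autoImplicit false

open Complex

namespace Pool.Agent.Zk20.KS

open Pool.Agent.N880.HQ
open Pool.Agent.N880.HQ.Hur

/-- one variable term, complex shift -/
noncomputable def gaC (t : ℝ) (β : ℂ) (s : ℝ) (n : ℤ) : ℂ :=
  cexp (2 * Real.pi * I * (n + s) * β - Real.pi * t * (n + s) ^ 2)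

/-- the dual term -/
noncomputable def gdC (t : ℝ) (β : ℂ) (s : ℝ) (m : ℤ) : ℂ :=
  cexp (2 * Real.pi * I * m * s - Real.pi / t * (m - β) ^ 2)

lemma gaC_eq {t : ℝ} (β : ℂ) (s : ℝ) (n : ℤ) : gaC t β s n =
    cexp (2 * Real.pi * I * s * β - Real.pi * t * s ^ 2) *
      jacobiTheta₂_term n (β + I * t * s) (I * t) := by
  unfold gaC jacobiTheta₂_term
  rw [← Complex.exp_add]
  congr 1
  linear_combination (-(Real.pi * t * (n : ℂ) ^ 2 + 2 * Real.pi * n * t * s)) * (I_sq)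

lemma gdC_eq {t : ℝ} (ht : 0 < t) (β : ℂ) (s : ℝ) (m : ℤ) : gdC t β s m =
    cexp (- Real.pi / t * β ^ 2) *
      jacobiTheta₂_term m (s - I * β / t) (I / t) := by
  unfold gdC jacobiTheta₂_term
  rw [← Complex.exp_add]
  congr 1
  have : (t : ℂ) ≠ 0 := by exact_mod_cast ht.ne'
  field_simp
  linear_combination (2 * (m : ℂ) * β - (m : ℂ) ^ 2) * (I_sq)

lemma gaC_summable {t : ℝ} (ht : 0 < t) (β : ℂ) (s : ℝ) : Summable (fun n => ‖gaC t β s n‖) := by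
  have h : Summable (fun n : ℤ => jacobiTheta₂_term n (β + I * t * s) (I * t)) := by
    rw [summable_jacobiTheta₂_term_iff]
    simpa using ht
  have h2 := h.norm.mul_left ‖cexp (2 * Real.pi * I * s * β - Real.pi * t * s ^ 2)‖
  refine h2.congr fun n => ?_
  rw [gaC_eq, norm_mul]

lemma gdC_summable {t : ℝ} (ht : 0 < t) (β : ℂ) (s : ℝ) : Summable (fun n => ‖gdC t β s n‖) := by
  have h : Summable (fun n : ℤ => jacobiTheta₂_term n (s - I * β / t) (I / t)) := by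
    rw [summable_jacobiTheta₂_term_iff]
    have : (I / (t : ℂ)).im = t⁻¹ := by
      rw [Complex.div_ofReal_im]
      simp
    rw [this]
    positivity
  have h2 := h.norm.mul_left ‖cexp (- Real.pi / t * β ^ 2)‖
  refine h2.congr fun n => ?_
  rw [gdC_eq ht, norm_mul]

lemma pois1C {t : ℝ} (ht : 0 < t) (β : ℂ) (s : ℝ) :
    ∑' n : ℤ, gaC t β s n = 1 / ((t : ℂ) ^ (1 / 2 : ℂ)) * ∑' m : ℤ, gdC t β s m := by
  have h := Complex.tsum_exp_neg_quadratic (a := (t : ℂ)) (by simpa using ht) (I * β - t * s)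
  have htc : (t : ℂ) ≠ 0 := by exact_mod_cast ht.ne'
  have e1 : ∀ n : ℤ, gaC t β s n = cexp (2 * Real.pi * I * s * β - Real.pi * t * s ^ 2) *
      cexp (-Real.pi * t * n ^ 2 + 2 * Real.pi * (I * β - t * s) * n) := by
    intro n
    unfold gaC
    rw [← Complex.exp_add]
    congr 1
    ring
  have e2 : ∀ m : ℤ, gdC t β s m = cexp (2 * Real.pi * I * s * β - Real.pi * t * s ^ 2) *
      cexp (-Real.pi / t * (m + I * (I * β - t * s)) ^ 2) := by
    intro m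
    unfold gdC
    rw [← Complex.exp_add]
    congr 1
    field_simp
    have h4 : (I : ℂ) ^ 4 = 1 := I_pow_four
    have h3 : (I : ℂ) ^ 3 = -I := by rw [pow_succ, I_sq]; ring
    ring_nf
    rw [h4, h3, I_sq]
    ring
  simp_rw [e1, e2]
  rw [tsum_mul_left, tsum_mul_left, h]
  ring

/-- Poisson summation over `ℤ⁴` -/
theorem pois4C {t : ℝ} (ht : 0 < t) (β : Fin 4 → ℂ) (s : ℝ) :
    ∑' p : ℤ × ℤ × ℤ × ℤ, gaC t (β 0) s p.1 * (gaC t (β 1) s p.2.1 *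
      (gaC t (β 2) s p.2.2.1 * gaC t (β 3) s p.2.2.2)) =
    1 / (t : ℂ) ^ 2 * ∑' p : ℤ × ℤ × ℤ × ℤ, gdC t (β 0) s p.1 * (gdC t (β 1) s p.2.1 *
      (gdC t (β 2) s p.2.2.1 * gdC t (β 3) s p.2.2.2)) := by
  rw [(prod4 (gaC_summable ht _ _) (gaC_summable ht _ _) (gaC_summable ht _ _)
    (gaC_summable ht _ _)).2, (prod4 (gdC_summable ht _ _) (gdC_summable ht _ _)
    (gdC_summable ht _ _) (gdC_summable ht _ _)).2, pois1C ht, pois1C ht, pois1C ht, pois1C ht]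
  have hr : ((t : ℂ) ^ (1 / 2 : ℂ)) ^ 2 = t := by
    rw [← Complex.cpow_nat_mul]
    norm_num
  have h4 : ((t : ℂ) ^ (1 / 2 : ℂ)) ^ 4 = (t : ℂ) ^ 2 := by
    rw [show (4 : ℕ) = 2 * 2 by norm_num, pow_mul, hr]
  rw [← h4]
  ring

/-- a linear form in the coordinates with respect to `1, i, j, k` -/
noncomputable def ell (l : Fin 4 → ℂ) (x : Hur) : ℂ :=
  l 0 * ((x.a : ℂ) / 2) + l 1 * ((x.a : ℂ) / 2 + x.b) + l 2 * ((x.a : ℂ) / 2 + x.c) +
    l 3 * ((x.a : ℂ) / 2 + x.d)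

lemma ell_eH (l : Fin 4 → ℂ) (e : Fin 2) (n0 n1 n2 n3 : ℤ) :
    ell l (eH (e, (n0, n1, n2, n3))) = l 0 * ((n0 : ℂ) + (e : ℕ) / 2) +
      l 1 * ((n1 : ℂ) + (e : ℕ) / 2) + l 2 * ((n2 : ℂ) + (e : ℕ) / 2) +
      l 3 * ((n3 : ℂ) + (e : ℕ) / 2) := by
  have ha : (eH (e, (n0, n1, n2, n3))).a = 2 * n0 + (e : ℕ) := rfl
  have hb : (eH (e, (n0, n1, n2, n3))).b = n1 - n0 := rfl
  have hc : (eH (e, (n0, n1, n2, n3))).c = n2 - n0 := rfl
  have hd : (eH (e, (n0, n1, n2, n3))).d = n3 - n0 := rfl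
  unfold ell
  rw [ha, hb, hc, hd]
  push_cast
  ring

lemma ell_jH (l : Fin 4 → ℂ) (q : ℤ) (β : Fin 4 → ℤ) (m0 m1 m2 m3 : ℤ) :
    ell l (jH q β (m0, m1, m2, m3)) = l 0 * ((β 0 : ℂ) - q * m0) +
      l 1 * ((β 1 : ℂ) - q * m1) + l 2 * ((β 2 : ℂ) - q * m2) +
      l 3 * ((β 3 : ℂ) - q * m3) := by
  unfold ell jH
  simp only
  push_cast
  ring

variable {q : ℕ} [Fact q.Prime]

theorem hpoisC (hq : Odd q) (lh li lj lk : ZMod q) {t : ℝ} (ht : 0 < t) (l : Fin 4 → ℂ)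
    (hl : l 0 ^ 2 + l 1 ^ 2 + l 2 ^ 2 + l 3 ^ 2 = 0) :
    ∑' x : Hur, Gp lh li lj lk t x * cexp (ell l x) =
      (2 / (t : ℂ) ^ 2) * ∑' μ : Hur, Gd lh li lj lk t μ * cexp (I / (q * t) * ell l μ) := by
  classical
  have hqp : q.Prime := Fact.out
  have hq0 : (q : ℤ) ≠ 0 := by exact_mod_cast hqp.ne_zero
  have hqR : (q : ℝ) ≠ 0 := by exact_mod_cast hqp.ne_zero
  have hqC : (q : ℂ) ≠ 0 := by exact_mod_cast hqp.ne_zero
  have htC : (t : ℂ) ≠ 0 := by exact_mod_cast ht.ne'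
  have hpiC : (Real.pi : ℂ) ≠ 0 := by exact_mod_cast Real.pi_ne_zero
  have h2 : (2 : ZMod q) ≠ 0 := by
    intro h
    have h' : ((2 : ℕ) : ZMod q) = 0 := by exact_mod_cast h
    rw [ZMod.natCast_eq_zero_iff] at h'
    have := (Nat.prime_dvd_prime_iff_eq hqp Nat.prime_two).1 h'
    rw [this] at hq
    exact absurd hq (by decide)
  obtain ⟨β, hb0, hb1, hb2, hb3, B, hB⟩ := exists_lift hq (2 * lh - li - lj - lk) li lj lk
  have hBZ : (B : ZMod q) = lh := by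
    have h3 : (((β 0 + β 1 + β 2 + β 3 : ℤ)) : ZMod q) = ((2 * B : ℤ) : ZMod q) := by rw [hB]
    push_cast at h3
    rw [hb0, hb1, hb2, hb3] at h3
    have : (2 : ZMod q) * B = 2 * lh := by rw [← h3]; ring
    exact mul_left_cancel₀ h2 this
  -- the complex shifts
  set b : Fin 4 → ℂ := fun i => (β i : ℂ) / q + l i / (2 * Real.pi * I) with hb
  have hb' : ∀ i, b i = (β i : ℂ) / q + l i / (2 * Real.pi * I) := fun _ => rfl
  -- the primal side
  have key : ∀ (e : Fin 2) (n : ℤ × ℤ × ℤ × ℤ), Gp lh li lj lk t (eH (e, n)) *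
      cexp (ell l (eH (e, n))) =
      gaC t (b 0) ((e : ℕ) / 2) n.1 * (gaC t (b 1) ((e : ℕ) / 2) n.2.1 *
      (gaC t (b 2) ((e : ℕ) / 2) n.2.2.1 * gaC t (b 3) ((e : ℕ) / 2) n.2.2.2)) := by
    rintro e ⟨n0, n1, n2, n3⟩
    set J : ℤ := n0 * β 0 + n1 * β 1 + n2 * β 2 + n3 * β 3 + (e : ℕ) * B with hJ
    have hL : Lf lh li lj lk (eH (e, (n0, n1, n2, n3))) = (J : ZMod q) := by
      have ha : (eH (e, (n0, n1, n2, n3))).a = 2 * n0 + (e : ℕ) := rfl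
      have hb : (eH (e, (n0, n1, n2, n3))).b = n1 - n0 := rfl
      have hc : (eH (e, (n0, n1, n2, n3))).c = n2 - n0 := rfl
      have hd : (eH (e, (n0, n1, n2, n3))).d = n3 - n0 := rfl
      unfold Lf
      rw [ha, hb, hc, hd, hJ]
      push_cast
      rw [hb0, hb1, hb2, hb3, hBZ]
      ring
    unfold Gp gaC
    rw [hL, ZMod.stdAddChar_coe, Complex.ofReal_exp, ← Complex.exp_add, ← Complex.exp_add,
      ← Complex.exp_add, ← Complex.exp_add, ← Complex.exp_add, ell_eH]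
    congr 1
    have hn := eH_nrm e n0 n1 n2 n3
    have hn' : ((-Real.pi * t * (nrm (eH (e, (n0, n1, n2, n3))) : ℤ) : ℝ) : ℂ) =
        -Real.pi * t * (((n0 : ℂ) + (e : ℕ) / 2) ^ 2 + ((n1 : ℂ) + (e : ℕ) / 2) ^ 2 +
          ((n2 : ℂ) + (e : ℕ) / 2) ^ 2 + ((n3 : ℂ) + (e : ℕ) / 2) ^ 2) := by
      rw [hn]; push_cast; ring
    rw [hn']
    have hBc : (β 0 : ℂ) + β 1 + β 2 + β 3 = 2 * B := by exact_mod_cast congrArg (Int.cast (R := ℂ)) hB
    rw [hJ]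
    simp only [hb']
    push_cast
    field_simp
    linear_combination (-(4 * I * Real.pi * (e : ℕ) : ℂ)) * hBc
  have hsumP : ∀ e : Fin 2, Summable (fun n : ℤ × ℤ × ℤ × ℤ => ‖Gp lh li lj lk t (eH (e, n)) *
      cexp (ell l (eH (e, n)))‖) := by
    intro e
    simp_rw [key e]
    exact (prod4 (gaC_summable ht _ _) (gaC_summable ht _ _) (gaC_summable ht _ _)
      (gaC_summable ht _ _)).1
  have hS1 : Summable (fun x => ‖Gp lh li lj lk t x * cexp (ell l x)‖) := by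
    rw [← eH.summable_iff]
    refine (summable_prod_of_nonneg (f := (fun x => ‖Gp lh li lj lk t x * cexp (ell l x)‖) ∘ eH)
      (fun p => norm_nonneg _)).2 ⟨fun e => hsumP e, ?_⟩
    exact summable_of_hasFiniteSupport (Set.toFinite _)
  -- the dual side
  have keyd : ∀ m : ℤ × ℤ × ℤ × ℤ, ∀ e : Fin 2,
      gdC t (b 0) ((e : ℕ) / 2) m.1 * (gdC t (b 1) ((e : ℕ) / 2) m.2.1 *
      (gdC t (b 2) ((e : ℕ) / 2) m.2.2.1 * gdC t (b 3) ((e : ℕ) / 2) m.2.2.2)) =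
      cexp (Real.pi * I * (e : ℕ) * (m.1 + m.2.1 + m.2.2.1 + m.2.2.2)) *
        (((Real.exp (-Real.pi * nrm (jH q β m) / (q ^ 2 * t)) : ℝ) : ℂ) *
          cexp (I / (q * t) * ell l (jH q β m))) := by
    rintro ⟨m0, m1, m2, m3⟩ e
    unfold gdC
    rw [Complex.ofReal_exp, ← Complex.exp_add, ← Complex.exp_add, ← Complex.exp_add,
      ← Complex.exp_add, ← Complex.exp_add, ell_jH]
    congr 1
    rw [jH_nrm]
    simp only [hb']
    push_cast
    have hI2 : I ^ 2 = -1 := I_sq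
    have hII : (I : ℂ) ≠ 0 := I_ne_zero
    field_simp
    ring_nf
    simp only [hI2, show (I : ℂ) ^ 3 = -I by rw [pow_succ, I_sq]; ring]
    ring_nf
    linear_combination (-(q : ℂ) ^ 2) * hl
  have hcond : ∀ m : ℤ × ℤ × ℤ × ℤ, Cond lh li lj lk (jH q β m) := by
    rintro ⟨m0, m1, m2, m3⟩
    refine ⟨?_, ?_, ?_, ?_⟩ <;> simp only [jH] <;> push_cast <;> simp only [hb0, hb1, hb2, hb3,
      CharP.cast_eq_zero] <;> ring
  have hpar : ∀ m : ℤ × ℤ × ℤ × ℤ, (2 ∣ nrm (jH q β m) ↔ Even (m.1 + m.2.1 + m.2.2.1 + m.2.2.2)) := by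
    rintro ⟨m0, m1, m2, m3⟩
    rw [jH_nrm]
    obtain ⟨k, hk⟩ := hq
    have ev : ∀ z : ℤ, 2 ∣ z ^ 2 - z := fun z => by
      rcases Int.even_or_odd z with hz | hz
      · exact ⟨z ^ 2 / 2 - z / 2, by obtain ⟨w, hw⟩ := hz; subst hw; ring_nf; omega⟩
      · obtain ⟨w, hw⟩ := hz
        exact ⟨2 * w ^ 2 + w, by subst hw; ring⟩
    have h0 := ev (β 0 - q * m0)
    have h1 := ev (β 1 - q * m1)
    have h2' := ev (β 2 - q * m2)
    have h3 := ev (β 3 - q * m3)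
    have hqz : (q : ℤ) = 2 * k + 1 := by exact_mod_cast hk
    have hs : (β 0 - q * m0) + (β 1 - q * m1) + (β 2 - q * m2) + (β 3 - q * m3) =
        2 * (B - k * (m0 + m1 + m2 + m3)) - (m0 + m1 + m2 + m3) := by
      rw [hqz]; linear_combination hB
    rw [even_iff_two_dvd]
    simp only
    constructor
    · intro h; omega
    · intro h; omega
  set Ex : Hur → ℂ := fun μ => cexp (I / (q * t) * ell l μ) with hEx
  have hGd : ∀ m : ℤ × ℤ × ℤ × ℤ, 2 * (Gd lh li lj lk t (jH q β m) * Ex (jH q β m)) =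
      (1 + cexp (Real.pi * I * (m.1 + m.2.1 + m.2.2.1 + m.2.2.2))) *
        (((Real.exp (-Real.pi * nrm (jH q β m) / (q ^ 2 * t)) : ℝ) : ℂ) * Ex (jH q β m)) := by
    intro m
    have hz : cexp (Real.pi * I * (m.1 + m.2.1 + m.2.2.1 + m.2.2.2)) =
        (-1 : ℂ) ^ (m.1 + m.2.1 + m.2.2.1 + m.2.2.2) := by
      rw [← Complex.exp_pi_mul_I, ← Complex.exp_int_mul]
      congr 1
      push_cast
      ring
    unfold Gd
    rw [hz]
    by_cases h : Even (m.1 + m.2.1 + m.2.2.1 + m.2.2.2)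
    · rw [if_pos ⟨(hpar m).2 h, hcond m⟩, h.neg_one_zpow]
      ring
    · rw [if_neg (fun h' => h ((hpar m).1 h'.1)), (Int.not_even_iff_odd.1 h).neg_one_zpow]
      ring
  have hsupp : Function.support (fun μ => Gd lh li lj lk t μ * Ex μ) ⊆ Set.range (jH q β) := by
    intro μ hμ
    rw [Function.mem_support] at hμ
    unfold Gd at hμ
    have hc : 2 ∣ nrm μ ∧ Cond lh li lj lk μ := by
      by_contra h
      rw [if_neg h, zero_mul] at hμ
      exact hμ rfl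
    obtain ⟨hev, hc0, hc1, hc2, hc3⟩ := hc
    obtain ⟨⟨s, hs⟩, -⟩ := even_nrm hev
    have f0 : ((β 0 - s : ℤ) : ZMod q) = 0 := by
      push_cast
      rw [hb0]
      rw [hs] at hc0
      push_cast at hc0
      rw [mul_left_cancel₀ h2 hc0]
      ring
    have f1 : ((β 1 - (s + μ.b) : ℤ) : ZMod q) = 0 := by
      push_cast
      rw [hb1]
      rw [hs] at hc1
      push_cast at hc1
      have : (2 : ZMod q) * (s + μ.b) = 2 * li := by rw [← hc1]; ring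
      rw [mul_left_cancel₀ h2 this]
      ring
    have f2 : ((β 2 - (s + μ.c) : ℤ) : ZMod q) = 0 := by
      push_cast
      rw [hb2]
      rw [hs] at hc2
      push_cast at hc2
      have : (2 : ZMod q) * (s + μ.c) = 2 * lj := by rw [← hc2]; ring
      rw [mul_left_cancel₀ h2 this]
      ring
    have f3 : ((β 3 - (s + μ.d) : ℤ) : ZMod q) = 0 := by
      push_cast
      rw [hb3]
      rw [hs] at hc3
      push_cast at hc3
      have : (2 : ZMod q) * (s + μ.d) = 2 * lk := by rw [← hc3]; ring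
      rw [mul_left_cancel₀ h2 this]
      ring
    rw [ZMod.intCast_zmod_eq_zero_iff_dvd] at f0 f1 f2 f3
    obtain ⟨m0, hm0⟩ := f0
    obtain ⟨m1, hm1⟩ := f1
    obtain ⟨m2, hm2⟩ := f2
    obtain ⟨m3, hm3⟩ := f3
    refine ⟨(m0, m1, m2, m3), ?_⟩
    ext <;> simp only [jH] <;> linarith
  have hsd : ∀ e : Fin 2, Summable (fun m : ℤ × ℤ × ℤ × ℤ =>
      cexp (Real.pi * I * (e : ℕ) * (m.1 + m.2.1 + m.2.2.1 + m.2.2.2)) *
        (((Real.exp (-Real.pi * nrm (jH q β m) / (q ^ 2 * t)) : ℝ) : ℂ) * Ex (jH q β m))) := by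
    intro e
    have := (prod4 (gdC_summable ht (b 0) ((e : ℕ) / 2)) (gdC_summable ht (b 1) ((e : ℕ) / 2))
      (gdC_summable ht (b 2) ((e : ℕ) / 2)) (gdC_summable ht (b 3) ((e : ℕ) / 2))).1.of_norm
    exact this.congr fun m => (keyd m e)
  have hL : ∑' x : Hur, Gp lh li lj lk t x * cexp (ell l x) = ∑ e : Fin 2,
      ∑' n : ℤ × ℤ × ℤ × ℤ, Gp lh li lj lk t (eH (e, n)) * cexp (ell l (eH (e, n))) := by
    rw [← eH.tsum_eq]
    exact (Summable.tsum_prod ((eH.summable_iff).2 hS1.of_norm)).trans (tsum_fintype _)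
  rw [hL]
  simp_rw [key]
  rw [Fin.sum_univ_two, pois4C ht b, pois4C ht b, ← mul_add]
  have hR : ∑' μ : Hur, Gd lh li lj lk t μ * Ex μ =
      ∑' m : ℤ × ℤ × ℤ × ℤ, Gd lh li lj lk t (jH q β m) * Ex (jH q β m) := by
    exact ((jH_inj hq0 β).tsum_eq hsupp).symm
  rw [hR]
  have h2R : (2 / (t : ℂ) ^ 2) * ∑' m : ℤ × ℤ × ℤ × ℤ, Gd lh li lj lk t (jH q β m) *
        Ex (jH q β m) =
      1 / (t : ℂ) ^ 2 * ∑' m : ℤ × ℤ × ℤ × ℤ, 2 * (Gd lh li lj lk t (jH q β m) *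
        Ex (jH q β m)) := by
    rw [tsum_mul_left]; ring
  rw [h2R]
  congr 1
  simp_rw [hGd]
  have k0 : ∀ m : ℤ × ℤ × ℤ × ℤ, (1 + cexp (Real.pi * I * (m.1 + m.2.1 + m.2.2.1 + m.2.2.2))) *
        (((Real.exp (-Real.pi * nrm (jH q β m) / (q ^ 2 * t)) : ℝ) : ℂ) * Ex (jH q β m)) =
      cexp (Real.pi * I * ((0 : Fin 2) : ℕ) * (m.1 + m.2.1 + m.2.2.1 + m.2.2.2)) *
        (((Real.exp (-Real.pi * nrm (jH q β m) / (q ^ 2 * t)) : ℝ) : ℂ) * Ex (jH q β m)) +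
      cexp (Real.pi * I * ((1 : Fin 2) : ℕ) * (m.1 + m.2.1 + m.2.2.1 + m.2.2.2)) *
        (((Real.exp (-Real.pi * nrm (jH q β m) / (q ^ 2 * t)) : ℝ) : ℂ) * Ex (jH q β m)) := by
    intro m
    simp
    ring
  simp_rw [k0]
  rw [(hsd 0).tsum_add (hsd 1)]
  congr 1
  · exact tsum_congr fun m => keyd m 0
  · exact tsum_congr fun m => keyd m 1

end Pool.Agent.Zk20.KS
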