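import Pool.Agent.Zk20.KS.Final

/-! # All weights at once; products -/

set_option autoImplicit false

open Complex Filter Topology Module Set
open H370 (zset mult NN Nd Ns)

namespace Pool.Agent.Zk20.KS

open Pool.Agent.N880.HQ (zeroSet numZeros numDistinct)
open Pool.Agent.W354.HW (cnt_prod)

/-- the properties of the L-functions -/
structure Facts (q j : ℕ) (lam : ℕ → ℂ) (F : ℂ → ℂ) : Prop where
  diff : Differentiable ℂ F
  ds : ∀ s : ℂ, (9 + j : ℝ) / 2 < s.re → F s = ∑' n : ℕ, lam n * (n : ℂ) ^ (-s)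
  fe : ∃ w : ℂ, ‖w‖ = 1 ∧ ∀ s : ℂ, s.im ≠ 0 →
    Lam q F s = w * (starRingEnd ℂ) (Lam q F ((j : ℂ) + 2 - (starRingEnd ℂ) s))
  ne : ∃ s, F s ≠ 0
  fin : ∀ T : ℝ, 10 ≤ T → (zeroSet F T).Finite

/-- the inequalities -/
structure Ineq (q j g : ℕ) (F : Fin g → ℂ → ℂ) (T : ℝ) : Prop where
  s : 0.6725 * ∑ k, (numZeros (F k) T : ℝ) ≤ ∑ k, (numSimple (((j : ℝ) + 2) / 2) (F k) T : ℝ)
  d : 0.83625 * ∑ k, (numZeros (F k) T : ℝ) ≤ ∑ k, (numDistinct (F k) T : ℝ)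
  low : (g : ℝ) * T * Real.log q / 5 ≤ ∑ k, (numZeros (F k) T : ℝ)

/-- the statement for one weight -/
def Body (j : ℕ) (η q0 : ℝ) : Prop := ∀ (q : ℕ) [Fact q.Prime] (P : XY q), q0 ≤ q →
    ∀ (g : ℕ) (b : Basis (Fin g) ℂ (A0 P j)) (lam : Fin g → ℕ → ℂ),
      (∀ k n, T P.act j n ((b k : A0 P j) : M2 q × Y j → ℂ) =
        lam k n • ((b k : A0 P j) : M2 q × Y j → ℂ)) →
    ∃ F : Fin g → ℂ → ℂ, (∀ k, Facts q j (lam k) (F k)) ∧
      ∀ T : ℝ, 40 * Real.log q ^ 2 ≤ T → T ≤ (q : ℝ) ^ η → Ineq q j g F T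

lemma Body.mono {j : ℕ} {η q0 η' q0' : ℝ} (h : Body j η q0) (hq0 : 25 ≤ q0) (h1 : η' ≤ η)
    (h2 : q0 ≤ q0') : Body j η' q0' := by
  intro q _ P hq g b lam hb
  obtain ⟨F, h3, h4⟩ := h q P (h2.trans hq) g b lam hb
  refine ⟨F, h3, fun T hT1 hT2 => h4 T hT1 (hT2.trans ?_)⟩
  exact Real.rpow_le_rpow_of_exponent_le (by linarith) h1

theorem body (j : ℕ) : ∃ η q0 : ℝ, 0 < η ∧ 25 ≤ q0 ∧ Body j η q0 := by
  obtain ⟨η, q0, hη, hq0, h⟩ := final j
  refine ⟨η, q0, hη, hq0, ?_⟩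
  intro q _ P hq g b lam hb
  obtain ⟨F, h1, h2⟩ := h q P hq g b lam hb
  exact ⟨F, fun k => ⟨(h1 k).1, (h1 k).2.1, (h1 k).2.2.1, (h1 k).2.2.2.1, (h1 k).2.2.2.2⟩,
    fun T hT1 hT2 => ⟨(h2 T hT1 hT2).1, (h2 T hT1 hT2).2.1, (h2 T hT1 hT2).2.2⟩⟩

theorem bodyJ (J : ℕ) : ∃ η q0 : ℝ, 0 < η ∧ 25 ≤ q0 ∧ ∀ j ≤ J, Body j η q0 := by
  induction J with
  | zero =>
    obtain ⟨η, q0, hη, hq0, h⟩ := body 0
    exact ⟨η, q0, hη, hq0, fun j hj => by
      have : j = 0 := by omega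
      rw [this]; exact h⟩
  | succ J ih =>
    obtain ⟨η, q0, hη, hq0, h⟩ := ih
    obtain ⟨η', q0', hη', hq0', h'⟩ := body (J + 1)
    refine ⟨min η η', max q0 q0', lt_min hη hη', hq0.trans (le_max_left _ _), ?_⟩
    intro j hj
    rcases Nat.lt_or_ge j (J + 1) with h1 | h1
    · exact (h j (by omega)).mono hq0 (min_le_left _ _) (le_max_left _ _)
    · have : j = J + 1 := by omega
      rw [this]
      exact h'.mono hq0' (min_le_right _ _) (le_max_right _ _)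

/-! ### products -/

lemma numZeros_eq (F : ℂ → ℂ) (T : ℝ) :
    numZeros F T = W354.HW.cnt F {s : ℂ | T < s.im ∧ s.im ≤ 2 * T} := by
  unfold numZeros W354.HW.cnt mult
  have h : zeroSet F T = {s : ℂ | s ∈ {s : ℂ | T < s.im ∧ s.im ≤ 2 * T} ∧ F s = 0} := by
    ext s
    simp only [zeroSet, mem_ofPred_eq, and_assoc]
  rw [h]

lemma numLine_eq (c : ℝ) (F : ℂ → ℂ) (T : ℝ) :
    numLine c F T = W354.HW.cnt F {s : ℂ | T < s.im ∧ s.im ≤ 2 * T ∧ s.re = c} := by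
  unfold numLine W354.HW.cnt mult
  have h : {s : ℂ | s ∈ zeroSet F T ∧ s.re = c} =
      {s : ℂ | s ∈ {s : ℂ | T < s.im ∧ s.im ≤ 2 * T ∧ s.re = c} ∧ F s = 0} := by
    ext s
    simp only [zeroSet, mem_ofPred_eq]
    tauto
  rw [h]

lemma numSimple_le (c : ℝ) {F : ℂ → ℂ} {T : ℝ} (hfin : (zeroSet F T).Finite) :
    numSimple c F T ≤ numLine c F T := by
  classical
  unfold numSimple numLine
  have hA : {s : ℂ | s ∈ zeroSet F T ∧ s.re = c}.Finite := hfin.subset fun s hs => hs.1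
  have hB : {s : ℂ | s ∈ zeroSet F T ∧ s.re = c ∧ analyticOrderNatAt F s = 1}.Finite :=
    hfin.subset fun s hs => hs.1
  rw [finsum_mem_eq_finite_toFinset_sum _ hA, Set.ncard_eq_toFinset_card _ hB,
    Finset.card_eq_sum_ones]
  refine le_trans (le_of_eq ?_) (Finset.sum_le_sum_of_subset_of_nonneg (s := hB.toFinset) ?_
    (fun s _ _ => Nat.zero_le _))
  · refine Finset.sum_congr rfl fun s hs => ?_
    rw [Set.Finite.mem_toFinset] at hs
    exact hs.2.2.symm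
  · intro s hs
    rw [Set.Finite.mem_toFinset] at hs ⊢
    exact ⟨hs.1, hs.2.1⟩

lemma order_ne_top {F : ℂ → ℂ} (hd : Differentiable ℂ F) (hne : ∃ s, F s ≠ 0) (s : ℂ) :
    analyticOrderAt F s ≠ ⊤ := by
  obtain ⟨z, hz⟩ := hne
  exact H370.Loc.order_ne_top (K := Set.univ) isPreconnected_univ
    (fun w _ => hd.analyticAt w) (Set.mem_univ z) hz (Set.mem_univ s)

/-- the zeros of a product -/
theorem prod_ineq {ι : Type*} (S : Finset ι) (f : ι → ℂ → ℂ) (c : ι → ℕ) (x : ℝ) {T : ℝ}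
    (hd : ∀ i ∈ S, Differentiable ℂ (f i)) (hne : ∀ i ∈ S, ∃ s, f i s ≠ 0)
    (hfin : ∀ i ∈ S, (zeroSet (f i) T).Finite) :
    (numZeros (fun s => ∏ i ∈ S, f i s ^ c i) T : ℝ) = ∑ i ∈ S, (c i : ℝ) * numZeros (f i) T ∧
    ∑ i ∈ S, (c i : ℝ) * numSimple x (f i) T ≤ (numLine x (fun s => ∏ i ∈ S, f i s ^ c i) T : ℝ) := by
  constructor
  · rw [numZeros_eq, cnt_prod S f c (fun i hi s _ => (hd i hi).analyticAt s)
      (fun i hi s _ => order_ne_top (hd i hi) (hne i hi) s) (fun i hi => ?_)]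
    · push_cast
      exact Finset.sum_congr rfl fun i _ => by rw [numZeros_eq]
    · refine (hfin i hi).subset ?_
      rintro s ⟨⟨h1, h2⟩, h3⟩
      exact ⟨h1, h2, h3⟩
  · rw [numLine_eq, cnt_prod S f c (fun i hi s _ => (hd i hi).analyticAt s)
      (fun i hi s _ => order_ne_top (hd i hi) (hne i hi) s) (fun i hi => ?_)]
    · push_cast
      refine Finset.sum_le_sum fun i hi => ?_
      rw [← numLine_eq]
      have := numSimple_le x (hfin i hi)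
      have h2 : (numSimple x (f i) T : ℝ) ≤ numLine x (f i) T := by exact_mod_cast this
      exact mul_le_mul_of_nonneg_left h2 (Nat.cast_nonneg _)
    · refine (hfin i hi).subset ?_
      rintro s ⟨⟨h1, h2, h4⟩, h3⟩
      exact ⟨h1, h2, h3⟩

/-- the L-function of degree `i`: the product over `r < (i + 1) / 2` and over the forms of weight
`j + 2`, `j = i - 1 - 2 r`, of `F_{j, k}(s - r)^{m r}` -/
noncomputable def LI (i : ℕ) (m : ℕ → ℕ) (g : ℕ → ℕ) (F : (j : ℕ) → Fin (g j) → ℂ → ℂ) (s : ℂ) : ℂ :=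
  ∏ r ∈ Finset.range ((i + 1) / 2), ∏ k, F (i - 1 - 2 * r) k (s - r) ^ m r

theorem LI_ineq {q : ℕ} (i : ℕ) (m g : ℕ → ℕ) (F : (j : ℕ) → Fin (g j) → ℂ → ℂ)
    (lam : (j : ℕ) → Fin (g j) → ℕ → ℂ) {T : ℝ} (hT : 10 ≤ T)
    (hF : ∀ j, j + 1 ≤ i → ∀ k, Facts q j (lam j k) (F j k))
    (hI : ∀ j, j + 1 ≤ i → Ineq q j (g j) (F j) T) :
    Differentiable ℂ (LI i m g F) ∧
    0.6725 * (numZeros (LI i m g F) T : ℝ) ≤ numLine (((i : ℝ) + 1) / 2) (LI i m g F) T ∧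
    ∑ r ∈ Finset.range ((i + 1) / 2), (m r : ℝ) * ((g (i - 1 - 2 * r) : ℝ) * T * Real.log q / 5) ≤
      (numZeros (LI i m g F) T : ℝ) := by
  have hj : ∀ r ∈ Finset.range ((i + 1) / 2), (i - 1 - 2 * r) + 1 ≤ i := by
    intro r hr
    rw [Finset.mem_range] at hr
    omega
  have hc : ∀ r ∈ Finset.range ((i + 1) / 2), ((i : ℝ) + 1) / 2 =
      (((i - 1 - 2 * r : ℕ) : ℝ) + 2) / 2 + r := by
    intro r hr
    rw [Finset.mem_range] at hr
    have h1 : (i - 1 - 2 * r) + 1 + 2 * r = i := by omega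
    have h2 : (((i - 1 - 2 * r : ℕ) : ℝ) + 1 + 2 * r) = i := by exact_mod_cast h1
    linarith
  set S : Finset (Σ r : ℕ, Fin (g (i - 1 - 2 * r))) :=
    (Finset.range ((i + 1) / 2)).sigma (fun _ => Finset.univ) with hS
  set f : (Σ r : ℕ, Fin (g (i - 1 - 2 * r))) → ℂ → ℂ := fun x s =>
    F (i - 1 - 2 * x.1) x.2 (s - (((x.1 : ℝ)) : ℂ)) with hf
  have hLI : LI i m g F = fun s => ∏ x ∈ S, f x s ^ m x.1 := by
    funext s
    unfold LI
    rw [hS, Finset.prod_sigma]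
    refine Finset.prod_congr rfl fun r _ => Finset.prod_congr rfl fun k _ => ?_
    rw [hf]
    simp
  have hmem : ∀ x ∈ S, x.1 ∈ Finset.range ((i + 1) / 2) := by
    intro x hx
    rw [hS, Finset.mem_sigma] at hx
    exact hx.1
  have hfd : ∀ x ∈ S, Differentiable ℂ (f x) := by
    intro x hx
    exact (hF _ (hj x.1 (hmem x hx)) x.2).diff.comp (differentiable_id.sub_const _)
  have hfn : ∀ x ∈ S, ∃ s, f x s ≠ 0 := by
    intro x hx
    obtain ⟨s, hs⟩ := (hF _ (hj x.1 (hmem x hx)) x.2).ne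
    refine ⟨s + (((x.1 : ℝ)) : ℂ), ?_⟩
    rw [hf]
    simp only [add_sub_cancel_right]
    exact hs
  have hff : ∀ x ∈ S, (zeroSet (f x) T).Finite := by
    intro x hx
    rw [hf]
    simp only
    rw [sh_set' (x.1 : ℝ) (F (i - 1 - 2 * x.1) x.2) T]
    exact ((hF _ (hj x.1 (hmem x hx)) x.2).fin T hT).image _
  obtain ⟨h1, h2⟩ := prod_ineq S f (fun x => m x.1) (((i : ℝ) + 1) / 2) hfd hfn hff
  rw [hLI]
  have e1 : ∑ x ∈ S, (m x.1 : ℝ) * numZeros (f x) T =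
      ∑ r ∈ Finset.range ((i + 1) / 2), (m r : ℝ) * ∑ k, (numZeros (F (i - 1 - 2 * r) k) T : ℝ) := by
    rw [hS, Finset.sum_sigma]
    refine Finset.sum_congr rfl fun r _ => ?_
    rw [Finset.mul_sum]
    refine Finset.sum_congr rfl fun k _ => ?_
    rw [hf]
    simp only
    rw [sh_N (r : ℝ) (F (i - 1 - 2 * r) k) T]
  have e2 : ∑ x ∈ S, (m x.1 : ℝ) * numSimple (((i : ℝ) + 1) / 2) (f x) T =
      ∑ r ∈ Finset.range ((i + 1) / 2), (m r : ℝ) *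
        ∑ k, (numSimple ((((i - 1 - 2 * r : ℕ) : ℝ) + 2) / 2) (F (i - 1 - 2 * r) k) T : ℝ) := by
    rw [hS, Finset.sum_sigma]
    refine Finset.sum_congr rfl fun r hr => ?_
    rw [Finset.mul_sum]
    refine Finset.sum_congr rfl fun k _ => ?_
    rw [hf]
    simp only
    rw [hc r hr, sh_s (r : ℝ) (F (i - 1 - 2 * r) k) T]
  refine ⟨?_, ?_, ?_⟩
  · intro s
    refine DifferentiableAt.fun_finsetProd fun x hx => ?_
    exact ((hfd x hx) s).pow _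
  · rw [h1, e1]
    refine le_trans ?_ h2
    rw [e2, Finset.mul_sum]
    refine Finset.sum_le_sum fun r hr => ?_
    have := (hI _ (hj r hr)).s
    calc 0.6725 * ((m r : ℝ) * ∑ k, (numZeros (F (i - 1 - 2 * r) k) T : ℝ)) =
        (m r : ℝ) * (0.6725 * ∑ k, (numZeros (F (i - 1 - 2 * r) k) T : ℝ)) := by ring
      _ ≤ _ := mul_le_mul_of_nonneg_left this (Nat.cast_nonneg _)
  · rw [h1, e1]
    refine Finset.sum_le_sum fun r hr => ?_
    exact mul_le_mul_of_nonneg_left (hI _ (hj r hr)).low (Nat.cast_nonneg _)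

end Pool.Agent.Zk20.KS
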