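import Pool.Agent.N880.HQ.Rho

/-! # The tensor powers of the standard representation of the Hamilton quaternions

`rho j α` is the matrix of `α` on the `j`-th tensor power of `ℂ²`, a matrix indexed by the
functions `Fin j → Fin 2`; the functions on `Fin j → Fin 2` which depend only on the number of ones
are the symmetric tensors. -/

set_option autoImplicit false

namespace Pool.Agent.Zk20.KS

open Matrix
open Pool.Agent.N880.HQ (Hur mat mat_mul mat_natCast mat_one mat_conj mat_det mat_intCast)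
open Pool.Agent.N880.HQ.Hur (conj nrm nrm_mul nrm_conj mul_conj conj_mul_self)

lemma hI : (Complex.I : ℂ) ^ 2 + (0 : ℂ) ^ 2 = -1 := by simp

lemma two_ne : (2 : ℂ) ≠ 0 := two_ne_zero

/-- the complex `2 × 2` matrix of a Hurwitz quaternion -/
noncomputable def cm (α : Hur) : Matrix (Fin 2) (Fin 2) ℂ := mat Complex.I 0 α

lemma cm_mul (α β : Hur) : cm (α * β) = cm α * cm β := mat_mul two_ne hI α β

lemma cm_natCast (n : ℕ) : cm (n : Hur) = (n : ℂ) • 1 := mat_natCast two_ne n

lemma cm_intCast (n : ℤ) : cm (n : Hur) = (n : ℂ) • 1 := mat_intCast two_ne n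

lemma cm_one : cm 1 = 1 := mat_one two_ne

lemma cm_conj (α : Hur) (i k : Fin 2) : cm (conj α) i k = (starRingEnd ℂ) (cm α k i) := by
  have e : (starRingEnd ℂ) (2 : ℂ) = 2 := by simpa using Complex.conj_ofReal 2
  unfold cm
  fin_cases i <;> fin_cases k <;> simp [mat, e] <;> ring

/-- the index set of the tensor power -/
abbrev Y (j : ℕ) : Type := Fin j → Fin 2

/-- the matrix of `α` on the `j`-th tensor power -/
noncomputable def rho (j : ℕ) (α : Hur) (a b : Y j) : ℂ := ∏ i, cm α (a i) (b i)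

variable {j : ℕ}

lemma rho_mul (α β : Hur) (a c : Y j) : rho j (α * β) a c = ∑ b : Y j, rho j α a b * rho j β b c := by
  unfold rho
  simp_rw [cm_mul, Matrix.mul_apply, ← Finset.prod_mul_distrib]
  rw [Finset.prod_univ_sum]
  simp

lemma rho_intCast (n : ℤ) (a b : Y j) : rho j (n : Hur) a b = if a = b then (n : ℂ) ^ j else 0 := by
  unfold rho
  simp_rw [cm_intCast, Matrix.smul_apply, Matrix.one_apply, smul_eq_mul]
  split_ifs with h
  · subst h
    simp
  · obtain ⟨i, hi⟩ := Function.ne_iff.1 h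
    apply Finset.prod_eq_zero (Finset.mem_univ i)
    rw [if_neg hi, mul_zero]

lemma rho_natCast (n : ℕ) (a b : Y j) : rho j (n : Hur) a b = if a = b then (n : ℂ) ^ j else 0 := by
  have := rho_intCast (j := j) (n : ℤ) a b
  simpa using this

lemma rho_one (a b : Y j) : rho j 1 a b = if a = b then 1 else 0 := by
  have := rho_natCast (j := j) 1 a b
  simpa using this

lemma rho_conj (α : Hur) (a b : Y j) : rho j (conj α) a b = (starRingEnd ℂ) (rho j α b a) := by
  unfold rho
  rw [map_prod]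
  exact Finset.prod_congr rfl fun i _ => cm_conj α _ _

lemma rho_natCast_mul (n : ℕ) (α : Hur) (a b : Y j) :
    rho j ((n : Hur) * α) a b = (n : ℂ) ^ j * rho j α a b := by
  rw [rho_mul]
  simp_rw [rho_natCast, ite_mul, zero_mul]
  rw [Finset.sum_ite_eq]
  simp

/-- unitarity -/
lemma rho_unitary (α : Hur) (a c : Y j) : ∑ b : Y j, (starRingEnd ℂ) (rho j α b a) * rho j α b c =
    if a = c then ((nrm α : ℤ) : ℂ) ^ j else 0 := by
  simp_rw [← rho_conj]
  rw [← rho_mul, conj_mul_self, rho_intCast]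

/-- the number of ones -/
def cnt (a : Y j) : ℕ := ∑ i, (a i : ℕ)

lemma cnt_le (a : Y j) : cnt a ≤ j := by
  unfold cnt
  calc ∑ i, (a i : ℕ) ≤ ∑ _i : Fin j, 1 := Finset.sum_le_sum fun i _ => by omega
    _ = j := by simp

/-- functions of the number of ones: the symmetric tensors -/
def Sy (ξ : Y j → ℂ) : Prop := ∀ a b : Y j, cnt a = cnt b → ξ a = ξ b

lemma Sy.add {ξ η : Y j → ℂ} (h1 : Sy ξ) (h2 : Sy η) : Sy (ξ + η) := fun a b h => by
  simp [h1 a b h, h2 a b h]

lemma Sy.smul (c : ℂ) {ξ : Y j → ℂ} (h1 : Sy ξ) : Sy (c • ξ) := fun a b h => by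
  simp [h1 a b h]

lemma Sy.zero : Sy (0 : Y j → ℂ) := fun _ _ _ => rfl

lemma Sy.sum {ι : Type*} (s : Finset ι) (f : ι → Y j → ℂ) (h : ∀ i ∈ s, Sy (f i)) :
    Sy (fun a => ∑ i ∈ s, f i a) := fun a b hab =>
  Finset.sum_congr rfl fun i hi => h i hi a b hab

/-- the tensor power of `(1, s)` -/
def tp (s : ℂ) (a : Y j) : ℂ := s ^ cnt a

lemma tp_prod (s : ℂ) (a : Y j) : tp s a = ∏ i, s ^ (a i : ℕ) := by
  unfold tp cnt
  rw [Finset.prod_pow_eq_pow_sum]

/-- `ρ(α)` applied to a decomposable symmetric tensor -/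
lemma rho_tp (α : Hur) (s : ℂ) (a : Y j) : ∑ b : Y j, rho j α a b * tp s b =
    ∏ i, (cm α (a i) 0 + cm α (a i) 1 * s) := by
  have h : ∀ i, cm α (a i) 0 + cm α (a i) 1 * s = ∑ k : Fin 2, cm α (a i) k * s ^ (k : ℕ) := by
    intro i
    rw [Fin.sum_univ_two]
    simp
  simp_rw [h]
  rw [Finset.prod_univ_sum]
  simp only [Fintype.piFinset_univ]
  refine Finset.sum_congr rfl fun b _ => ?_
  rw [tp_prod]
  unfold rho
  rw [Finset.prod_mul_distrib]

/-- a product over the coordinates of a function of `a i` depends only on the number of ones -/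
lemma prod_cnt (f : Fin 2 → ℂ) (a : Y j) : ∏ i, f (a i) = f 0 ^ (j - cnt a) * f 1 ^ cnt a := by
  have h1 : ∀ i, f (a i) = f 0 ^ (1 - (a i : ℕ)) * f 1 ^ (a i : ℕ) := by
    intro i
    have h3 : ∀ k : Fin 2, f k = f 0 ^ (1 - (k : ℕ)) * f 1 ^ (k : ℕ) := by
      intro k
      fin_cases k <;> simp
    exact h3 _
  rw [Finset.prod_congr rfl fun i _ => h1 i, Finset.prod_mul_distrib, Finset.prod_pow_eq_pow_sum,
    Finset.prod_pow_eq_pow_sum]
  congr 2
  have h2 : ∑ i : Fin j, (1 - (a i : ℕ)) + cnt a = j := by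
    unfold cnt
    rw [← Finset.sum_add_distrib]
    have : ∀ i : Fin j, 1 - (a i : ℕ) + (a i : ℕ) = 1 := fun i => by omega
    simp [this]
  omega

/-- every symmetric tensor is a combination of the indicator functions of the number of ones -/
lemma Sy.eq_sum {ξ : Y j → ℂ} (h : Sy ξ) : ∃ c : ℕ → ℂ, ∀ a, ξ a =
    ∑ m ∈ Finset.range (j + 1), c m * (if cnt a = m then 1 else 0) := by
  classical
  refine ⟨fun m => if hm : ∃ a : Y j, cnt a = m then ξ hm.choose else 0, fun a => ?_⟩
  rw [Finset.sum_eq_single (cnt a)]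
  · have hm : ∃ b : Y j, cnt b = cnt a := ⟨a, rfl⟩
    simp only [if_true, mul_one]
    rw [dif_pos hm]
    exact h a _ hm.choose_spec.symm
  · intro m _ hm
    rw [if_neg (fun h => hm h.symm), mul_zero]
  · intro hm
    exact absurd (Finset.mem_range.2 (Nat.lt_succ_of_le (cnt_le a))) hm

/-- a linear functional which vanishes on the decomposable tensors `tp s` vanishes on all
symmetric tensors -/
lemma Sy.ext_tp
    (L : (Y j → ℂ) →ₗ[ℂ] ℂ) (hL : ∀ s : ℂ, L (tp s) = 0) {ξ : Y j → ℂ} (h : Sy ξ) : L ξ = 0 := by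
  classical
  set ind : ℕ → Y j → ℂ := fun m a => if cnt a = m then 1 else 0 with hind
  have h1 : ∀ s : ℂ, ∑ m ∈ Finset.range (j + 1), s ^ m * L (ind m) = 0 := by
    intro s
    rw [← hL s]
    have : (tp s : Y j → ℂ) = ∑ m ∈ Finset.range (j + 1), s ^ m • ind m := by
      funext a
      rw [Finset.sum_apply, Finset.sum_eq_single (cnt a)]
      · simp [tp, hind]
      · intro m _ hm
        simp only [hind, Pi.smul_apply, smul_eq_mul]
        rw [if_neg (fun h => hm h.symm), mul_zero]
      · intro hm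
        exact absurd (Finset.mem_range.2 (Nat.lt_succ_of_le (cnt_le a))) hm
    rw [this, map_sum]
    exact Finset.sum_congr rfl fun m _ => by rw [map_smul, smul_eq_mul]
  -- all coefficients vanish
  have h2 : ∀ m ∈ Finset.range (j + 1), L (ind m) = 0 := by
    set P : Polynomial ℂ := ∑ m ∈ Finset.range (j + 1), Polynomial.C (L (ind m)) * Polynomial.X ^ m
      with hP
    have hP0 : P = 0 := by
      apply Polynomial.funext
      intro s
      rw [hP, Polynomial.eval_finsetSum, Polynomial.eval_zero, ← h1 s]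
      refine Finset.sum_congr rfl fun m _ => ?_
      simp
      ring
    intro m hm
    have h3 : P.coeff m = L (ind m) := by
      rw [hP, Polynomial.finsetSum_coeff]
      simp only [Polynomial.coeff_C_mul, Polynomial.coeff_X_pow]
      rw [Finset.sum_eq_single m]
      · simp
      · intro k _ hk
        rw [if_neg (fun h => hk h.symm), mul_zero]
      · intro h; exact absurd hm h
    rw [← h3, hP0, Polynomial.coeff_zero]
  obtain ⟨c, hc⟩ := h.eq_sum
  have h4 : ξ = ∑ m ∈ Finset.range (j + 1), c m • ind m := by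
    funext a
    rw [hc a, Finset.sum_apply]
    rfl
  rw [h4, map_sum]
  refine Finset.sum_eq_zero fun m hm => ?_
  rw [map_smul, h2 m hm, smul_zero]

end Pool.Agent.Zk20.KS
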