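import Pool.Agent.Zk20.KS.HS
import Pool.Agent.N880.HQ.Second

/-! # Second moment of sums over prime powers -/

set_option autoImplicit false

open Complex Matrix Filter Topology Module
open Pool.Agent.N7.HeckeId (HeckeC cC cC_prime cC_pow)

namespace Pool.Agent.Zk20.KS

open Pool.Agent.N880.HQ (Hur S mem_S mat wH vH sum_mult wH_sq_sum eP)
open Pool.Agent.N880.HQ.Hur (conj nrm nrm_mul nrm_conj conj_mul_self nrm_nonneg nrm_eq_zero nrm_natCast)

variable {q : ℕ} [Fact q.Prime] {j : ℕ}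
variable {P : XY q}

lemma Eig.sum_S {b : M2 q × Y j → ℂ} {lam : ℕ → ℂ} {ch : (ZMod q)ˣ → ℂ}
    (E : Eig P j b lam ch) (n : ℕ) (v : M2 q × Y j) :
    ∑ α ∈ S n, R P.act j α b v = 24 * lam n * b v := by
  have h := congrFun (E.T n) v
  rw [T_apply', Pi.smul_apply, smul_eq_mul] at h
  linear_combination 24 * h

lemma ln_mul {lam : ℕ → ℂ} {n : ℕ} (hn : 0 < n) :
    (((n : ℝ) ^ ((j : ℝ) / 2) : ℝ) : ℂ) * ln j lam n = lam n := by
  unfold ln
  have h : (((n : ℝ) ^ ((j : ℝ) / 2) : ℝ) : ℂ) ≠ 0 := by exact_mod_cast (npow_pos hn j).ne'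
  field_simp

open Classical in
lemma Eig.cC_op {b : M2 q × Y j → ℂ} {lam : ℕ → ℂ} {ch : (ZMod q)ˣ → ℂ}
    (E : Eig P j b lam ch) {p : ℕ} (hp : p.Prime) {k : ℕ} (hk : k ≠ 0)
    (v : M2 q × Y j) :
    ∑ α ∈ S (p ^ k), (wH (p ^ k) α : ℂ) * R P.act j α b v =
      24 * ((((p ^ k : ℕ) : ℝ) ^ ((j : ℝ) / 2) : ℝ) : ℂ) * cC (eP ch) (ln j lam) (p ^ k) * b v := by
  have hH := E.hecke
  have hmf : (p ^ k).minFac = p := hp.pow_minFac hk
  by_cases hpq : ((p : ℕ) : ZMod q) = 0
  · -- both sides vanish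
    have h0 : ∀ i : ℕ, i ≠ 0 → lam (p ^ i) = 0 := by
      intro i hi
      apply E.lam_q
      push_cast
      rw [hpq, zero_pow hi]
    have h1 : ∑ α ∈ S (p ^ k), (wH (p ^ k) α : ℂ) * R P.act j α b v = 0 := by
      refine Finset.sum_eq_zero fun α hα => ?_
      rw [R_zero (A0.supp E.mem) (by rw [mem_S.1 hα]; push_cast; rw [hpq, zero_pow hk]),
        Pi.zero_apply, mul_zero]
    rw [h1]
    have h2 : cC (eP ch) (ln j lam) (p ^ k) = 0 := by
      rcases Nat.lt_or_ge k 2 with h3 | h3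
      · have hk1 : k = 1 := by omega
        subst hk1
        rw [pow_one, cC_prime hH hp]
        have := h0 1 one_ne_zero
        rw [pow_one] at this
        unfold ln
        rw [this, zero_div]
      · obtain ⟨i, rfl⟩ : ∃ i, k = i + 2 := ⟨k - 2, by omega⟩
        rw [cC_pow hH hp]
        have h4 : eP ch p = 0 := by
          unfold eP
          split_ifs <;> rfl
        rw [h4, zero_mul, sub_zero]
        unfold ln
        rw [h0 (i + 2) (by omega), zero_div]
    rw [h2, mul_zero, zero_mul]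
  rcases Nat.lt_or_ge k 2 with h1 | h1
  · have hk1 : k = 1 := by omega
    subst hk1
    rw [pow_one] at hmf ⊢
    have e1 : ∀ α, wH p α = 1 := by
      intro α
      unfold wH
      rw [if_neg, sub_zero]
      rintro ⟨h, -⟩
      rw [hmf] at h
      have h3 := Nat.le_of_dvd hp.pos h
      have h4 := hp.one_lt
      nlinarith
    simp only [e1, Complex.ofReal_one, one_mul]
    rw [E.sum_S, cC_prime hH hp]
    have := ln_mul (j := j) (lam := lam) hp.pos
    linear_combination (-24 * b v) * this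
  · obtain ⟨i, rfl⟩ : ∃ i, k = i + 2 := ⟨k - 2, by omega⟩
    rw [cC_pow hH hp]
    have l1 := ln_mul (j := j) (lam := lam) (n := p ^ (i + 2)) (pow_pos hp.pos _)
    have l2 := ln_mul (j := j) (lam := lam) (n := p ^ i) (pow_pos hp.pos _)
    have l3 : ((((p ^ (i + 2) : ℕ) : ℝ) ^ ((j : ℝ) / 2) : ℝ) : ℂ) =
        (p : ℂ) ^ j * ((((p ^ i : ℕ) : ℝ) ^ ((j : ℝ) / 2) : ℝ) : ℂ) := by
      have h3 : p ^ (i + 2) = (p * p) * p ^ i := by ring
      rw [h3, npow_mul, npow_mul]
      have h4 := npow_sq p j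
      rw [sq] at h4
      rw [h4]
      push_cast
      rfl
    by_cases hp2 : p = 2
    · subst hp2
      have e1 : ∀ α, wH (2 ^ (i + 2)) α = 1 := by
        intro α
        unfold wH
        rw [if_neg, sub_zero]
        rintro ⟨-, h, -⟩
        exact h hmf
      simp only [e1, Complex.ofReal_one, one_mul]
      rw [E.sum_S]
      unfold eP
      simp only [if_true, zero_mul, sub_zero]
      linear_combination (-24 * b v) * l1
    · have e1 : ∀ α, (wH (p ^ (i + 2)) α : ℂ) * R P.act j α b v = R P.act j α b v -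
          (if ∃ β : Hur, α = (p : Hur) * β then (p : ℂ) * R P.act j α b v else 0) := by
        intro α
        unfold wH
        rw [hmf]
        have hd : p ^ 2 ∣ p ^ (i + 2) := Nat.pow_dvd_pow _ (by omega)
        split_ifs with h3 h4 h4
        · push_cast; ring
        · exact absurd h3.2.2 h4
        · exact absurd ⟨hd, hp2, h4⟩ h3
        · simp
      simp_rw [e1]
      rw [Finset.sum_sub_distrib, E.sum_S, ← Finset.sum_filter]
      have e2 : p ^ (i + 2) = p ^ 2 * p ^ i := by ring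
      have e3 := sum_mult (M := ℂ) hp.pos (p ^ i) (fun α => (p : ℂ) * R P.act j α b v)
      rw [← e2] at e3
      rw [e3, ← Finset.mul_sum]
      have e : ∀ γ : Hur, R P.act j ((p : Hur) * γ) b v =
          (p : ℂ) ^ j * R P.act j γ b ((p : ZMod q) • v.1, v.2) := by
        intro γ
        rw [R_nat_mul, Pi.smul_apply, smul_eq_mul, Dn_eq, Dc_apply]
      simp_rw [e]
      rw [← Finset.mul_sum, E.sum_S]
      have h5 := congrFun (E.D (Units.mk0 (p : ZMod q) hpq)) v
      rw [Dc_apply, Pi.smul_apply, smul_eq_mul] at h5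
      simp only [Units.val_mk0] at h5
      rw [h5]
      unfold eP
      rw [if_neg hp2, dif_neg hpq]
      rw [l3] at l1 ⊢
      linear_combination (-24 * b v) * l1 +
        24 * b v * (p : ℂ) ^ j * p * ch (Units.mk0 (p : ZMod q) hpq) * l2

/-- the second moment -/
theorem second {g : ℕ} (b : Fin g → M2 q × Y j → ℂ) (lam : Fin g → ℕ → ℂ)
    (ch : Fin g → (ZMod q)ˣ → ℂ) (hE : ∀ k, Eig P j (b k) (lam k) (ch k))
    (hb : ∀ k l, ∑ v, b k v * (starRingEnd ℂ) (b l v) = if k = l then 1 else 0)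
    (M : ℕ) (hM : 4 * M ≤ q ^ 2 + 3) (c : ℕ → ℂ) :
    ∑ k, ‖∑ m ∈ Finset.range M, c m * ((ArithmeticFunction.vonMangoldt m : ℂ) *
        cC (eP (ch k)) (ln j (lam k)) m)‖ ^ 2 ≤
      ((gl q : ℝ) * dj j / 24) * ∑ m ∈ Finset.range M, ‖c m‖ ^ 2 *
        ArithmeticFunction.vonMangoldt m ^ 2 * m * vH m := by
  classical
  set N : Hur → ℕ := fun α => (nrm α).toNat with hN
  have hNS : ∀ (m : ℕ) (α : Hur), α ∈ S m → N α = m := by
    intro m α hα
    rw [hN]
    simp only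
    rw [mem_S.1 hα]
    simp
  set 𝒮 : Finset Hur := (Finset.range M).biUnion S with h𝒮
  have hdisj : Set.PairwiseDisjoint (↑(Finset.range M)) S := by
    intro m _ n _ hmn
    rw [Function.onFun, Finset.disjoint_left]
    intro α h1 h3
    rw [mem_S] at h1 h3
    apply hmn
    exact_mod_cast h1.symm.trans h3
  set G : Hur → ℂ := fun α => (1 / 24 : ℂ) * (c (N α) * (ArithmeticFunction.vonMangoldt (N α) : ℂ)) *
    (wH (N α) α : ℂ) / ((((N α : ℕ) : ℝ) ^ ((j : ℝ) / 2) : ℝ) : ℂ) with hG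
  have hsmall : ∀ α ∈ 𝒮, 4 * nrm α < q ^ 2 := by
    intro α hα
    rw [h𝒮, Finset.mem_biUnion] at hα
    obtain ⟨m, hm, hα⟩ := hα
    rw [mem_S] at hα
    rw [Finset.mem_range] at hm
    rw [hα]
    have h1 : 4 * (m + 1) ≤ q ^ 2 + 3 := by omega
    have h2 : 4 * ((m : ℤ) + 1) ≤ (q : ℤ) ^ 2 + 3 := by exact_mod_cast h1
    linarith
  have hkey : ∀ k v, ∑ α ∈ 𝒮, G α * R P.act j α (b k) v =
      (∑ m ∈ Finset.range M, c m * ((ArithmeticFunction.vonMangoldt m : ℂ) *
        cC (eP (ch k)) (ln j (lam k)) m)) * b k v := by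
    intro k v
    rw [h𝒮, Finset.sum_biUnion hdisj, Finset.sum_mul]
    refine Finset.sum_congr rfl fun m hm => ?_
    rw [Finset.mem_range] at hm
    have e1 : ∑ α ∈ S m, G α * R P.act j α (b k) v = (1 / 24 : ℂ) *
        (c m * (ArithmeticFunction.vonMangoldt m : ℂ)) / (((m : ℝ) ^ ((j : ℝ) / 2) : ℝ) : ℂ) *
        ∑ α ∈ S m, (wH m α : ℂ) * R P.act j α (b k) v := by
      rw [Finset.mul_sum]
      refine Finset.sum_congr rfl fun α hα => ?_
      rw [hG]
      simp only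
      rw [hNS m α hα]
      ring
    rw [e1]
    by_cases hpp : IsPrimePow m
    · obtain ⟨p, i, hp, hi, rfl⟩ := hpp
      have hp' : p.Prime := hp.nat_prime
      have h0 : ((((p ^ i : ℕ) : ℝ) ^ ((j : ℝ) / 2) : ℝ) : ℂ) ≠ 0 := by
        exact_mod_cast (npow_pos (pow_pos hp'.pos i) j).ne'
      rw [(hE k).cC_op hp' hi.ne' v]
      field_simp
    · rw [ArithmeticFunction.vonMangoldt_eq_zero_iff.2 hpp]
      simp
  refine (hs_eig P 𝒮 hsmall G b (fun k => A0.supp (hE k).mem) (fun k => A0.sy (hE k).mem) hb _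
    hkey).trans ?_
  have hd0 : 0 ≤ dj j := by rw [dj_eq]; positivity
  rw [div_mul_eq_mul_div, mul_div_assoc]
  refine mul_le_mul_of_nonneg_left ?_ (by positivity)
  rw [h𝒮, Finset.sum_biUnion hdisj, Finset.sum_div]
  refine Finset.sum_le_sum fun m hm => ?_
  rcases Nat.eq_zero_or_pos m with rfl | hm0
  · have : ∀ α ∈ S 0, ‖G α‖ ^ 2 * ((nrm α : ℤ) : ℝ) ^ j = 0 := by
      intro α hα
      rw [hG]
      simp only
      rw [hNS 0 α hα]
      simp
    rw [Finset.sum_eq_zero this]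
    simp
  have e1 : ∑ α ∈ S m, ‖G α‖ ^ 2 * ((nrm α : ℤ) : ℝ) ^ j =
      (1 / 576) * (‖c m‖ ^ 2 * ArithmeticFunction.vonMangoldt m ^ 2) *
      ∑ α ∈ S m, wH m α ^ 2 := by
    rw [Finset.mul_sum]
    refine Finset.sum_congr rfl fun α hα => ?_
    have hp := npow_pos hm0 j
    have hn : ((nrm α : ℤ) : ℝ) ^ j = ((m : ℝ) ^ ((j : ℝ) / 2)) ^ 2 := by
      rw [npow_sq, mem_S.1 hα]
      push_cast
      rfl
    rw [hn, hG]
    simp only
    rw [hNS m α hα, norm_div, norm_mul, norm_mul, norm_mul, Complex.norm_real, Complex.norm_real,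
      Complex.norm_real, Real.norm_eq_abs, Real.norm_eq_abs, Real.norm_eq_abs, abs_of_pos hp]
    have : ‖(1 / 24 : ℂ)‖ = 1 / 24 := by norm_num
    rw [this, div_pow, mul_pow, mul_pow, mul_pow, sq_abs, sq_abs, div_mul_cancel₀ _ (by positivity)]
    ring
  rw [e1]
  by_cases hpp : IsPrimePow m
  · obtain ⟨p, i, hp, hi, rfl⟩ := hpp
    have h5 := wH_sq_sum hp.nat_prime i hi.ne'
    have h6 : 0 ≤ ‖c (p ^ i)‖ ^ 2 * ArithmeticFunction.vonMangoldt (p ^ i) ^ 2 := by positivity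
    calc _ ≤ (1 / 576) * (‖c (p ^ i)‖ ^ 2 * ArithmeticFunction.vonMangoldt (p ^ i) ^ 2) *
          (24 * ((p ^ i : ℕ) : ℝ) * vH (p ^ i)) :=
          mul_le_mul_of_nonneg_left h5 (by positivity)
      _ = _ := by ring
  · rw [ArithmeticFunction.vonMangoldt_eq_zero_iff.2 hpp]
    simp

end Pool.Agent.Zk20.KS
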