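import Pool.Agent.Zk20.KS.Form

/-! # The space of forms -/

set_option autoImplicit false

open Complex Matrix

namespace Pool.Agent.Zk20.KS

open Pool.Agent.N880.HQ (Hur S mem_S mat mat_mul mat_one mat_natCast mat_conj mat_det mat_intCast sy
  sy_vecMul sy_neg sum_sy sy_sub_left conj_char sum_conj_S conj_mem_S)
open Pool.Agent.N880.HQ.Hur (conj nrm nrm_mul nrm_conj conj_mul_self)

variable {q : ℕ} [Fact q.Prime] {j : ℕ}

/-- `ρ(x)` preserves the symmetric tensors -/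
lemma Sy.ra {ξ : Y j → ℂ} (h : Sy ξ) (x : Hur) : Sy (ra j x ξ) := by
  intro a a' haa
  set L : (Y j → ℂ) →ₗ[ℂ] ℂ := ∑ b : Y j, (rho j x a b - rho j x a' b) • (LinearMap.proj b :
    (Y j → ℂ) →ₗ[ℂ] ℂ) with hL
  have hLa : ∀ η : Y j → ℂ, L η = KS.ra j x η a - KS.ra j x η a' := by
    intro η
    unfold KS.ra
    rw [hL, LinearMap.sum_apply, ← Finset.sum_sub_distrib]
    refine Finset.sum_congr rfl fun b _ => ?_
    rw [LinearMap.smul_apply, LinearMap.proj_apply, smul_eq_mul]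
    ring
  have h0 : L ξ = 0 := by
    refine Sy.ext_tp L (fun s => ?_) h
    rw [hLa, ra_tp, ra_tp, haa, sub_self]
  rw [hLa] at h0
  exact sub_eq_zero.1 h0

lemma R_eq_ra (P : XY q) (α : Hur) (Φ : M2 q × Y j → ℂ) (g : M2 q) (a : Y j) :
    R P.act j α Φ (g, a) = KS.ra j α (fun b => Φ (g * P.m α, b)) a := rfl

lemma sum_ite_add (p : M2 q → Prop) [DecidablePred p] (Φ Ψ : M2 q × Y j → ℂ) (a : Y j) :
    ∑ g : M2 q, (if p g then (Φ + Ψ) (g, a) else 0) = ∑ g : M2 q, (if p g then Φ (g, a) else 0) +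
      ∑ g : M2 q, (if p g then Ψ (g, a) else 0) := by
  rw [← Finset.sum_add_distrib]
  refine Finset.sum_congr rfl fun g _ => ?_
  split_ifs <;> simp

lemma sum_ite_smul (p : M2 q → Prop) [DecidablePred p] (c : ℂ) (Φ : M2 q × Y j → ℂ) (a : Y j) :
    ∑ g : M2 q, (if p g then (c • Φ) (g, a) else 0) =
      c * ∑ g : M2 q, (if p g then Φ (g, a) else 0) := by
  rw [Finset.mul_sum]
  refine Finset.sum_congr rfl fun g _ => ?_
  split_ifs <;> simp

/-- the space of forms: functions on the invertible matrices with values in the symmetric tensors,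
invariant under the units, with vanishing sums over the cosets of the mirabolic subgroups -/
def A0 (P : XY q) (j : ℕ) : Submodule ℂ (M2 q × Y j → ℂ) where
  carrier := {Φ | (∀ g a, g.det = 0 → Φ (g, a) = 0) ∧ (∀ g, Sy (fun a => Φ (g, a))) ∧
    UInv P.act Φ ∧
    (∀ (v w : Fin 2 → ZMod q) (a : Y j), w ≠ 0 → ∑ g : M2 q, (if v ᵥ* g = w then Φ (g, a) else 0) = 0) ∧
    (j = 0 → ∀ (d : ZMod q) (a : Y j), ∑ g : M2 q, (if g.det = d then Φ (g, a) else 0) = 0)}
  zero_mem' := by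
    refine ⟨fun _ _ _ => rfl, fun _ => Sy.zero, fun u _ => map_zero _, ?_, ?_⟩
    · intro v w a _
      simp
    · intro _ d a
      simp
  add_mem' := by
    rintro Φ Ψ ⟨a1, a2, a3, a4, a5⟩ ⟨b1, b2, b3, b4, b5⟩
    refine ⟨fun g a h => ?_, fun g => ?_, fun u hu => ?_, ?_, ?_⟩
    · rw [Pi.add_apply, a1 g a h, b1 g a h, add_zero]
    · exact (a2 g).add (b2 g)
    · rw [map_add, a3 u hu, b3 u hu]
    · intro v w a hw
      rw [sum_ite_add, a4 v w a hw, b4 v w a hw, add_zero]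
    · intro hj d a
      rw [sum_ite_add, a5 hj d a, b5 hj d a, add_zero]
  smul_mem' := by
    rintro c Φ ⟨a1, a2, a3, a4, a5⟩
    refine ⟨fun g a h => ?_, fun g => ?_, fun u hu => ?_, ?_, ?_⟩
    · rw [Pi.smul_apply, a1 g a h, smul_zero]
    · exact (a2 g).smul c
    · rw [map_smul, a3 u hu]
    · intro v w a hw
      rw [sum_ite_smul, a4 v w a hw, mul_zero]
    · intro hj d a
      rw [sum_ite_smul, a5 hj d a, mul_zero]

section
variable {P : XY q}

lemma mem_A0 {Φ : M2 q × Y j → ℂ} : Φ ∈ A0 P j ↔ (∀ g a, g.det = 0 → Φ (g, a) = 0) ∧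
    (∀ g, Sy (fun a => Φ (g, a))) ∧ UInv P.act Φ ∧
    (∀ (v w : Fin 2 → ZMod q) (a : Y j), w ≠ 0 → ∑ g : M2 q, (if v ᵥ* g = w then Φ (g, a) else 0) = 0) ∧
    (j = 0 → ∀ (d : ZMod q) (a : Y j), ∑ g : M2 q, (if g.det = d then Φ (g, a) else 0) = 0) := Iff.rfl

lemma A0.supp {Φ : M2 q × Y j → ℂ} (h : Φ ∈ A0 P j) : ∀ g a, g.det = 0 → Φ (g, a) = 0 := h.1
lemma A0.sy {Φ : M2 q × Y j → ℂ} (h : Φ ∈ A0 P j) : ∀ g, Sy (fun a => Φ (g, a)) := h.2.1
lemma A0.uinv {Φ : M2 q × Y j → ℂ} (h : Φ ∈ A0 P j) : UInv P.act Φ := h.2.2.1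
lemma A0.new {Φ : M2 q × Y j → ℂ} (h : Φ ∈ A0 P j) : ∀ (v w : Fin 2 → ZMod q) (a : Y j), w ≠ 0 →
    ∑ g : M2 q, (if v ᵥ* g = w then Φ (g, a) else 0) = 0 := h.2.2.2.1

lemma R_supp {Φ : M2 q × Y j → ℂ} (h : ∀ g a, g.det = 0 → Φ (g, a) = 0) (α : Hur) :
    ∀ g a, g.det = 0 → R P.act j α Φ (g, a) = 0 := by
  intro g a hg
  rw [R_apply]
  refine Finset.sum_eq_zero fun b _ => ?_
  rw [P.act_act, h _ _ (by rw [Matrix.det_mul, hg, zero_mul]), mul_zero]

lemma T_supp {Φ : M2 q × Y j → ℂ} (h : ∀ g a, g.det = 0 → Φ (g, a) = 0) (n : ℕ) :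
    ∀ g a, g.det = 0 → T P.act j n Φ (g, a) = 0 := by
  intro g a hg
  rw [T_apply', Finset.sum_eq_zero fun α _ => R_supp h α g a hg, mul_zero]

/-- `R_α = 0` when `q` divides the norm -/
lemma R_zero {Φ : M2 q × Y j → ℂ} (h : ∀ g a, g.det = 0 → Φ (g, a) = 0) {α : Hur}
    (hα : ((nrm α : ℤ) : ZMod q) = 0) : R P.act j α Φ = 0 := by
  funext p
  rw [R_apply]
  refine Finset.sum_eq_zero fun b _ => ?_
  rw [P.act_act, h _ _ (by rw [Matrix.det_mul, P.m_det, hα, mul_zero]), mul_zero]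

lemma T_zero {Φ : M2 q × Y j → ℂ} (h : ∀ g a, g.det = 0 → Φ (g, a) = 0) {n : ℕ}
    (hn : ((n : ℕ) : ZMod q) = 0) : T P.act j n Φ = 0 := by
  rw [T_apply, Finset.sum_eq_zero fun α hα => R_zero h ?_, smul_zero]
  rw [mem_S.1 hα]
  push_cast
  exact hn

lemma nrm_ne_of_mem {n : ℕ} (hn : ((n : ℕ) : ZMod q) ≠ 0) {α : Hur} (hα : α ∈ S n) :
    ((nrm α : ℤ) : ZMod q) ≠ 0 := by
  rw [mem_S.1 hα]
  push_cast
  exact hn

/-- right multiplication as a bijection -/
noncomputable def rE (P : XY q) (α : Hur) (hα : ((nrm α : ℤ) : ZMod q) ≠ 0) : M2 q ≃ M2 q where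
  toFun g := g * P.m α
  invFun g := ((nrm α : ℤ) : ZMod q)⁻¹ • (g * P.m (conj α))
  left_inv g := by
    simp only
    rw [mul_assoc, ← P.m_mul, Pool.Agent.N880.HQ.Hur.mul_conj, P.m_intCast, Matrix.mul_smul, mul_one, smul_smul,
      inv_mul_cancel₀ hα, one_smul]
  right_inv g := by
    simp only
    rw [Matrix.smul_mul, mul_assoc, ← P.m_mul, conj_mul_self, P.m_intCast, Matrix.mul_smul, mul_one,
      smul_smul, inv_mul_cancel₀ hα, one_smul]

lemma rE_apply (α : Hur) (hα : ((nrm α : ℤ) : ZMod q) ≠ 0) (g : M2 q) :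
    rE P α hα g = g * P.m α := rfl

lemma vecMul_inj {α : Hur} (hα : ((nrm α : ℤ) : ZMod q) ≠ 0) {v w : Fin 2 → ZMod q}
    (h : v ᵥ* P.m α = w ᵥ* P.m α) : v = w := by
  have h1 : (v ᵥ* P.m α) ᵥ* P.m (conj α) = (w ᵥ* P.m α) ᵥ* P.m (conj α) := by rw [h]
  rw [Matrix.vecMul_vecMul, Matrix.vecMul_vecMul, ← P.m_mul, Pool.Agent.N880.HQ.Hur.mul_conj, P.m_intCast,
    Matrix.vecMul_smul, Matrix.vecMul_smul, Matrix.vecMul_one, Matrix.vecMul_one] at h1
  exact smul_right_injective _ hα h1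

lemma R_new {Φ : M2 q × Y j → ℂ} (h : ∀ (v w : Fin 2 → ZMod q) (a : Y j), w ≠ 0 →
    ∑ g : M2 q, (if v ᵥ* g = w then Φ (g, a) else 0) = 0) {α : Hur}
    (hα : ((nrm α : ℤ) : ZMod q) ≠ 0) (v w : Fin 2 → ZMod q) (a : Y j) (hw : w ≠ 0) :
    ∑ g : M2 q, (if v ᵥ* g = w then R P.act j α Φ (g, a) else 0) = 0 := by
  have e1 : ∀ g : M2 q, (if v ᵥ* g = w then R P.act j α Φ (g, a) else 0) =
      ∑ b : Y j, rho j α a b * (if v ᵥ* (rE P α hα g) = w ᵥ* P.m α then Φ (rE P α hα g, b) else 0) := by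
    intro g
    have hiff : v ᵥ* (rE P α hα g) = w ᵥ* P.m α ↔ v ᵥ* g = w := by
      rw [rE_apply, ← Matrix.vecMul_vecMul]
      exact ⟨fun h => vecMul_inj hα h, fun h => by rw [h]⟩
    by_cases hc : v ᵥ* g = w
    · rw [if_pos hc, R_apply]
      refine Finset.sum_congr rfl fun b _ => ?_
      rw [if_pos (hiff.2 hc), P.act_act, rE_apply]
    · rw [if_neg hc]
      symm
      refine Finset.sum_eq_zero fun b _ => ?_
      rw [if_neg (fun h => hc (hiff.1 h)), mul_zero]
  simp_rw [e1]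
  rw [Finset.sum_comm]
  refine Finset.sum_eq_zero fun b _ => ?_
  rw [← Finset.mul_sum, (rE P α hα).sum_comp (fun g => if v ᵥ* g = w ᵥ* P.m α then Φ (g, b) else 0),
    h, mul_zero]
  intro h0
  apply hw
  apply vecMul_inj (P := P) hα
  rw [h0, Matrix.zero_vecMul]

lemma R_cusp {Φ : M2 q × Y j → ℂ} (h : ∀ (d : ZMod q) (a : Y j),
    ∑ g : M2 q, (if g.det = d then Φ (g, a) else 0) = 0) {α : Hur}
    (hα : ((nrm α : ℤ) : ZMod q) ≠ 0) (d : ZMod q) (a : Y j) :
    ∑ g : M2 q, (if g.det = d then R P.act j α Φ (g, a) else 0) = 0 := by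
  have e1 : ∀ g : M2 q, (if g.det = d then R P.act j α Φ (g, a) else 0) =
      ∑ b : Y j, rho j α a b * (if (rE P α hα g).det = d * ((nrm α : ℤ) : ZMod q) then
        Φ (rE P α hα g, b) else 0) := by
    intro g
    have hiff : (rE P α hα g).det = d * ((nrm α : ℤ) : ZMod q) ↔ g.det = d := by
      rw [rE_apply, Matrix.det_mul, P.m_det]
      exact ⟨fun h => mul_right_cancel₀ hα h, fun h => by rw [h]⟩
    by_cases hc : g.det = d
    · rw [if_pos hc, R_apply]
      refine Finset.sum_congr rfl fun b _ => ?_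
      rw [if_pos (hiff.2 hc), P.act_act, rE_apply]
    · rw [if_neg hc]
      symm
      refine Finset.sum_eq_zero fun b _ => ?_
      rw [if_neg (fun h => hc (hiff.1 h)), mul_zero]
  simp_rw [e1]
  rw [Finset.sum_comm]
  refine Finset.sum_eq_zero fun b _ => ?_
  rw [← Finset.mul_sum, (rE P α hα).sum_comp (fun g => if g.det = d * ((nrm α : ℤ) : ZMod q) then
    Φ (g, b) else 0), h, mul_zero]

lemma R_sy {Φ : M2 q × Y j → ℂ} (h : ∀ g, Sy (fun a => Φ (g, a))) (α : Hur) :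
    ∀ g, Sy (fun a => R P.act j α Φ (g, a)) := fun g => (h (g * P.m α)).ra α

theorem T_mem (n : ℕ) {Φ : M2 q × Y j → ℂ} (h : Φ ∈ A0 P j) : T P.act j n Φ ∈ A0 P j := by
  obtain ⟨a1, a2, a3, a4, a5⟩ := mem_A0.1 h
  by_cases hn : ((n : ℕ) : ZMod q) = 0
  · rw [T_zero a1 hn]
    exact Submodule.zero_mem _
  · refine ⟨T_supp a1 n, fun g => ?_, T_uinv n Φ, ?_, ?_⟩
    · intro a b hab
      simp only
      rw [T_apply', T_apply']
      congr 1
      exact Finset.sum_congr rfl fun α _ => R_sy a2 α g a b hab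
    · intro v w a hw
      have e : ∀ g : M2 q, (if v ᵥ* g = w then T P.act j n Φ (g, a) else 0) =
          (1 / 24 : ℂ) * ∑ α ∈ S n, (if v ᵥ* g = w then R P.act j α Φ (g, a) else 0) := by
        intro g
        split_ifs
        · rw [T_apply']
        · simp
      simp_rw [e]
      rw [← Finset.mul_sum, Finset.sum_comm, Finset.sum_eq_zero, mul_zero]
      intro α hα
      exact R_new a4 (nrm_ne_of_mem hn hα) v w a hw
    · intro hj d a
      have e : ∀ g : M2 q, (if g.det = d then T P.act j n Φ (g, a) else 0) =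
          (1 / 24 : ℂ) * ∑ α ∈ S n, (if g.det = d then R P.act j α Φ (g, a) else 0) := by
        intro g
        split_ifs
        · rw [T_apply']
        · simp
      simp_rw [e]
      rw [← Finset.mul_sum, Finset.sum_comm, Finset.sum_eq_zero, mul_zero]
      intro α hα
      exact R_cusp (a5 hj) (nrm_ne_of_mem hn hα) d a

lemma smul_bij {c : ZMod q} (hc : c ≠ 0) : Function.Bijective (fun g : M2 q => c • g) :=
  (Finite.injective_iff_bijective).1 (smul_right_injective _ hc)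

theorem Dc_mem {c : ZMod q} (hc : c ≠ 0) {Φ : M2 q × Y j → ℂ} (h : Φ ∈ A0 P j) :
    Dc j c Φ ∈ A0 P j := by
  obtain ⟨a1, a2, a3, a4, a5⟩ := mem_A0.1 h
  refine ⟨fun g a hg => ?_, fun g => a2 (c • g), fun u hu => ?_, ?_, ?_⟩
  · rw [Dc_apply, a1]
    rw [Matrix.det_smul, hg, mul_zero]
  · rw [← Dc_R, a3 u hu]
  · intro v w a hw
    have e : ∀ g : M2 q, (if v ᵥ* g = w then Dc j c Φ (g, a) else 0) =
        (fun g' : M2 q => if v ᵥ* g' = c • w then Φ (g', a) else 0)
          (Equiv.ofBijective _ (smul_bij hc) g) := by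
      intro g
      simp only [Equiv.ofBijective_apply]
      have hiff : v ᵥ* (c • g) = c • w ↔ v ᵥ* g = w := by
        rw [Matrix.vecMul_smul]
        exact ⟨fun h => smul_right_injective _ hc h, fun h => by rw [h]⟩
      by_cases h0 : v ᵥ* g = w
      · rw [if_pos h0, if_pos (hiff.2 h0), Dc_apply]
      · rw [if_neg h0, if_neg (fun h => h0 (hiff.1 h))]
    rw [Finset.sum_congr rfl fun g _ => e g]
    exact ((Equiv.ofBijective _ (smul_bij hc)).sum_comp
      (fun g' : M2 q => if v ᵥ* g' = c • w then Φ (g', a) else 0)).trans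
      (a4 v _ a (smul_ne_zero hc hw))
  · intro hj d a
    have e : ∀ g : M2 q, (if g.det = d then Dc j c Φ (g, a) else 0) =
        (fun g' : M2 q => if g'.det = c ^ 2 * d then Φ (g', a) else 0)
          (Equiv.ofBijective _ (smul_bij hc) g) := by
      intro g
      simp only [Equiv.ofBijective_apply]
      have hiff : (c • g).det = c ^ 2 * d ↔ g.det = d := by
        rw [Matrix.det_smul, Fintype.card_fin]
        exact ⟨fun h => mul_left_cancel₀ (pow_ne_zero 2 hc) h, fun h => by rw [h]⟩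
      by_cases h0 : g.det = d
      · rw [if_pos h0, if_pos (hiff.2 h0), Dc_apply]
      · rw [if_neg h0, if_neg (fun h => h0 (hiff.1 h))]
    rw [Finset.sum_congr rfl fun g _ => e g]
    exact ((Equiv.ofBijective _ (smul_bij hc)).sum_comp
      (fun g' : M2 q => if g'.det = c ^ 2 * d then Φ (g', a) else 0)).trans (a5 hj _ a)

theorem Ts_mem {n : ℕ} (hn : ((n : ℕ) : ZMod q) ≠ 0) {Φ : M2 q × Y j → ℂ} (h : Φ ∈ A0 P j) :
    Ts P j n Φ ∈ A0 P j := Dc_mem (inv_ne_zero hn) (T_mem n h)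

/-! ### the Fourier transform of a form -/

lemma FT_sy {Φ : M2 q × Y j → ℂ} (h : ∀ g, Sy (fun a => Φ (g, a))) :
    ∀ g, Sy (fun a => FT j Φ (g, a)) := by
  intro g a b hab
  simp only
  rw [FT_apply, FT_apply]
  refine Finset.sum_congr rfl fun h' _ => ?_
  have := h h' a b hab
  simp only at this ⊢
  rw [this]

lemma FT_uinv {Φ : M2 q × Y j → ℂ} (h : UInv P.act Φ) : UInv P.act (FT j Φ) := by
  intro u hu
  have h1 : ((nrm u : ℤ) : ZMod q) = 1 := by rw [mem_S.1 hu]; push_cast; rfl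
  rw [R_FT P (by rw [h1]; exact one_ne_zero), h1, inv_one, Dc_one, h u hu]

lemma BB_rank_one (c : Fin 2 → ZMod q) (w : Fin 2 → ZMod q) (g h : M2 q)
    (hh : ∀ i k, h i k = c i * w k) : BB g h = sy (c ᵥ* g) w := by
  rw [Pool.Agent.N880.HQ.vecMul_two]
  simp only [BB, sy, hh, Matrix.cons_val_zero, Matrix.cons_val_one, Matrix.cons_val_fin_one]
  ring

/-- the Fourier transform of a form is supported on the invertible matrices -/
lemma FT_supp {Φ : M2 q × Y j → ℂ} (h : Φ ∈ A0 P j) : ∀ g a, g.det = 0 → FT j Φ (g, a) = 0 := by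
  classical
  intro h' a hdet
  -- a rank one decomposition
  obtain ⟨c, w, hc, hcw⟩ : ∃ c w : Fin 2 → ZMod q, c ≠ 0 ∧ ∀ i k, h' i k = c i * w k := by
    by_cases h0 : h' 0 = 0
    · refine ⟨![0, 1], h' 1, ?_, ?_⟩
      · intro hcon
        have := congrFun hcon 1
        simp at this
      · intro i k
        fin_cases i
        · simp only [Fin.zero_eta, Matrix.cons_val_zero, zero_mul]
          exact congrFun h0 k
        · simp
    · -- h' 1 = t • h' 0
      obtain ⟨k0, hk0⟩ := Function.ne_iff.1 h0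
      have hk0' : h' 0 k0 ≠ 0 := hk0
      refine ⟨![1, h' 1 k0 / h' 0 k0], h' 0, ?_, ?_⟩
      · intro hcon
        have := congrFun hcon 0
        simp at this
      · intro i k
        rw [Matrix.det_fin_two] at hdet
        fin_cases i
        · simp
        · simp only [Fin.mk_one, Matrix.cons_val_one, Matrix.cons_val_fin_one]
          field_simp
          fin_cases k0 <;> fin_cases k <;> simp only [Fin.zero_eta, Fin.mk_one] at * <;>
            first
              | ring1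
              | linear_combination hdet
              | linear_combination (-1 : ZMod q) * hdet
  rw [FT_apply]
  simp_rw [BB_rank_one c w _ h' hcw]
  rw [← Finset.sum_fiberwise_of_maps_to (s := Finset.univ) (t := Finset.univ)
          (g := fun g : M2 q => c ᵥ* g) (fun _ _ => Finset.mem_univ _)]
  refine Finset.sum_eq_zero fun u _ => ?_
  have e : ∑ g ∈ Finset.univ.filter (fun g : M2 q => c ᵥ* g = u), Φ (g, a) *
      (ZMod.stdAddChar (sy (c ᵥ* g) w) : ℂ) =
      (∑ g : M2 q, (if c ᵥ* g = u then Φ (g, a) else 0)) * ZMod.stdAddChar (sy u w) := by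
    rw [Finset.sum_mul, Finset.sum_filter]
    refine Finset.sum_congr rfl fun g _ => ?_
    split_ifs with hg
    · rw [hg]
    · rw [zero_mul]
  rw [e]
  by_cases hu : u = 0
  · subst hu
    rw [Finset.sum_eq_zero, zero_mul]
    intro g _
    split_ifs with hg
    · apply A0.supp h
      by_contra hne
      exact hc (Matrix.eq_zero_of_vecMul_eq_zero hne hg)
    · rfl
  · rw [A0.new h c u a hu, zero_mul]

end

end Pool.Agent.Zk20.KS
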