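import Pool.Agent.Zk20.KS.Space

/-! # The functional equation of the theta series -/

set_option autoImplicit false

open Complex Matrix

namespace Pool.Agent.Zk20.KS

open Pool.Agent.N880.HQ (Hur S mem_S mat mat_mul mat_one mat_natCast mat_conj mat_det mat_intCast sy
  Lf Cond Gp Gd pi2 nrm_pi2 hs_congr fiber_eq_S)
open Pool.Agent.N880.HQ.Hur (conj nrm nrm_mul nrm_conj conj_mul_self)

variable {q : ℕ} [Fact q.Prime] {j : ℕ}

lemma mat_eq_iff {x y : ZMod q} (h2 : (2 : ZMod q) ≠ 0) (hxy : x ^ 2 + y ^ 2 = -1) (μ : Hur) (K : M2 q) :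
    mat x y μ = K ↔ (μ.a : ZMod q) = K 0 0 + K 1 1 ∧
      ((μ.a + 2 * μ.b : ℤ) : ZMod q) = K 0 1 - K 1 0 ∧
      ((μ.a + 2 * μ.c : ℤ) : ZMod q) = -(x * (K 0 0 - K 1 1) + y * (K 0 1 + K 1 0)) ∧
      ((μ.a + 2 * μ.d : ℤ) : ZMod q) = -(y * (K 0 0 - K 1 1) - x * (K 0 1 + K 1 0)) := by
  have m00 : mat x y μ 0 0 = (μ.a : ZMod q) * ((1 + x + y) / 2) + μ.c * x + μ.d * y := rfl
  have m01 : mat x y μ 0 1 = (μ.a : ZMod q) * ((1 + y - x) / 2) + μ.b + μ.c * y - μ.d * x := rfl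
  have m10 : mat x y μ 1 0 = (μ.a : ZMod q) * ((-1 + y - x) / 2) - μ.b + μ.c * y - μ.d * x := rfl
  have m11 : mat x y μ 1 1 = (μ.a : ZMod q) * ((1 - x - y) / 2) - μ.c * x - μ.d * y := rfl
  push_cast
  constructor
  · intro h
    have k00 := congrFun (congrFun h 0) 0
    have k01 := congrFun (congrFun h 0) 1
    have k10 := congrFun (congrFun h 1) 0
    have k11 := congrFun (congrFun h 1) 1
    rw [← k00, ← k01, ← k10, ← k11, m00, m01, m10, m11]
    refine ⟨?_, ?_, ?_, ?_⟩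
    · field_simp; ring
    · field_simp; ring
    · field_simp
      linear_combination (2 * (μ.a + 2 * μ.c : ZMod q)) * hxy
    · field_simp
      linear_combination (2 * (μ.a + 2 * μ.d : ZMod q)) * hxy
  · rintro ⟨c0, c1, c2, c3⟩
    have k00 : mat x y μ 0 0 = K 0 0 := by
      rw [m00]
      have : (μ.a : ZMod q) * ((1 + x + y) / 2) + μ.c * x + μ.d * y =
        (μ.a + (μ.a + 2 * μ.c) * x + (μ.a + 2 * μ.d) * y) / 2 := by field_simp; ring
      rw [this, c2, c3, c0]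
      field_simp
      linear_combination (-(K 0 0 - K 1 1)) * hxy
    have k01 : mat x y μ 0 1 = K 0 1 := by
      rw [m01]
      have : (μ.a : ZMod q) * ((1 + y - x) / 2) + μ.b + μ.c * y - μ.d * x =
        ((μ.a + 2 * μ.b) + (μ.a + 2 * μ.c) * y - (μ.a + 2 * μ.d) * x) / 2 := by field_simp; ring
      rw [this, c2, c3, c1]
      field_simp
      linear_combination (-(K 0 1 + K 1 0)) * hxy
    have k10 : mat x y μ 1 0 = K 1 0 := by
      rw [m10]
      have : (μ.a : ZMod q) * ((-1 + y - x) / 2) - μ.b + μ.c * y - μ.d * x =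
        (-(μ.a + 2 * μ.b) + (μ.a + 2 * μ.c) * y - (μ.a + 2 * μ.d) * x) / 2 := by field_simp; ring
      rw [this, c2, c3, c1]
      field_simp
      linear_combination (-(K 0 1 + K 1 0)) * hxy
    have k11 : mat x y μ 1 1 = K 1 1 := by
      rw [m11]
      have : (μ.a : ZMod q) * ((1 - x - y) / 2) - μ.c * x - μ.d * y =
        (μ.a - (μ.a + 2 * μ.c) * x - (μ.a + 2 * μ.d) * y) / 2 := by field_simp; ring
      rw [this, c2, c3, c0]
      field_simp
      linear_combination (K 0 0 - K 1 1) * hxy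
    ext i k
    fin_cases i <;> fin_cases k
    · exact k00
    · exact k01
    · exact k10
    · exact k11

/-- the dual point -/
noncomputable def nu (g : M2 q) : M2 q := ((2 : ZMod q) * g.det)⁻¹ • (!![0, -1; 1, 0] * g)

variable (P : XY q)

lemma BB_Lf (g h : M2 q) (α : Hur) : BB h (g * P.m α) =
    Lf (BB h (g * P.m ⟨1, 0, 0, 0⟩)) (BB h (g * P.m ⟨0, 1, 0, 0⟩))
      (BB h (g * P.m ⟨0, 0, 1, 0⟩)) (BB h (g * P.m ⟨0, 0, 0, 1⟩)) α := by
  simp only [BB, sy, Lf, XY.m, mat, Matrix.mul_apply, Fin.sum_univ_two, of_apply, cons_val',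
    cons_val_zero, cons_val_one, cons_val_fin_one]
  push_cast
  ring

lemma cond_iff {g : M2 q} (hg : g.det ≠ 0) (h : M2 q) (μ : Hur) :
    Cond (BB h (g * P.m ⟨1, 0, 0, 0⟩)) (BB h (g * P.m ⟨0, 1, 0, 0⟩))
      (BB h (g * P.m ⟨0, 0, 1, 0⟩)) (BB h (g * P.m ⟨0, 0, 0, 1⟩)) μ ↔ h = nu g * P.m μ := by
  have h2 := P.h2
  set K : M2 q := !![2 * (g 0 1 * h 0 0 + g 1 1 * h 1 0), 2 * (g 0 1 * h 0 1 + g 1 1 * h 1 1);
    -(2 * (g 0 0 * h 0 0 + g 1 0 * h 1 0)), -(2 * (g 0 0 * h 0 1 + g 1 0 * h 1 1))] with hK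
  have K00 : K 0 0 = 2 * (g 0 1 * h 0 0 + g 1 1 * h 1 0) := rfl
  have K01 : K 0 1 = 2 * (g 0 1 * h 0 1 + g 1 1 * h 1 1) := rfl
  have K10 : K 1 0 = -(2 * (g 0 0 * h 0 0 + g 1 0 * h 1 0)) := rfl
  have K11 : K 1 1 = -(2 * (g 0 0 * h 0 1 + g 1 0 * h 1 1)) := rfl
  have e1 : Cond (BB h (g * P.m ⟨1, 0, 0, 0⟩)) (BB h (g * P.m ⟨0, 1, 0, 0⟩))
      (BB h (g * P.m ⟨0, 0, 1, 0⟩)) (BB h (g * P.m ⟨0, 0, 0, 1⟩)) μ ↔ mat P.x P.y μ = K := by
    rw [mat_eq_iff P.h2 P.hxy, K00, K01, K10, K11]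
    unfold Cond
    have r1 : 2 * (2 * BB h (g * P.m ⟨1, 0, 0, 0⟩) - BB h (g * P.m ⟨0, 1, 0, 0⟩) -
        BB h (g * P.m ⟨0, 0, 1, 0⟩) - BB h (g * P.m ⟨0, 0, 0, 1⟩)) =
        2 * (g 0 1 * h 0 0 + g 1 1 * h 1 0) + -(2 * (g 0 0 * h 0 1 + g 1 0 * h 1 1)) := by
      simp only [BB, sy, XY.m, mat, Matrix.mul_apply, Fin.sum_univ_two, of_apply, cons_val',
        cons_val_zero, cons_val_one, cons_val_fin_one]
      push_cast
      field_simp
      ring
    have r2 : 2 * BB h (g * P.m ⟨0, 1, 0, 0⟩) = 2 * (g 0 1 * h 0 1 + g 1 1 * h 1 1) -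
        -(2 * (g 0 0 * h 0 0 + g 1 0 * h 1 0)) := by
      simp only [BB, sy, XY.m, mat, Matrix.mul_apply, Fin.sum_univ_two, of_apply, cons_val',
        cons_val_zero, cons_val_one, cons_val_fin_one]
      push_cast
      ring
    have r3 : 2 * BB h (g * P.m ⟨0, 0, 1, 0⟩) = -(P.x * (2 * (g 0 1 * h 0 0 + g 1 1 * h 1 0) -
        -(2 * (g 0 0 * h 0 1 + g 1 0 * h 1 1))) + P.y * (2 * (g 0 1 * h 0 1 + g 1 1 * h 1 1) +
        -(2 * (g 0 0 * h 0 0 + g 1 0 * h 1 0)))) := by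
      simp only [BB, sy, XY.m, mat, Matrix.mul_apply, Fin.sum_univ_two, of_apply, cons_val',
        cons_val_zero, cons_val_one, cons_val_fin_one]
      push_cast
      ring
    have r4 : 2 * BB h (g * P.m ⟨0, 0, 0, 1⟩) = -(P.y * (2 * (g 0 1 * h 0 0 + g 1 1 * h 1 0) -
        -(2 * (g 0 0 * h 0 1 + g 1 0 * h 1 1))) - P.x * (2 * (g 0 1 * h 0 1 + g 1 1 * h 1 1) +
        -(2 * (g 0 0 * h 0 0 + g 1 0 * h 1 0)))) := by
      simp only [BB, sy, XY.m, mat, Matrix.mul_apply, Fin.sum_univ_two, of_apply, cons_val',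
        cons_val_zero, cons_val_one, cons_val_fin_one]
      push_cast
      ring
    rw [r1, r2, r3, r4]
  rw [e1]
  have hD : (2 : ZMod q) * g.det ≠ 0 := mul_ne_zero h2 hg
  have hdet : g.det = g 0 0 * g 1 1 - g 0 1 * g 1 0 := Matrix.det_fin_two g
  have n00 : ∀ M : M2 q, ∀ k, (nu g * M) 0 k = ((2 : ZMod q) * g.det)⁻¹ * (-(g 1 0 * M 0 k + g 1 1 * M 1 k)) := by
    intro M k
    simp only [nu, Matrix.smul_mul, Matrix.smul_apply, Matrix.mul_apply, Fin.sum_univ_two, of_apply,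
      cons_val', cons_val_zero, cons_val_one, cons_val_fin_one, smul_eq_mul]
    ring
  have n10 : ∀ M : M2 q, ∀ k, (nu g * M) 1 k = ((2 : ZMod q) * g.det)⁻¹ * (g 0 0 * M 0 k + g 0 1 * M 1 k) := by
    intro M k
    simp only [nu, Matrix.smul_mul, Matrix.smul_apply, Matrix.mul_apply, Fin.sum_univ_two, of_apply,
      cons_val', cons_val_zero, cons_val_one, cons_val_fin_one, smul_eq_mul]
    ring
  change mat P.x P.y μ = K ↔ h = nu g * mat P.x P.y μ
  constructor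
  · intro hm
    rw [hm]
    ext i k
    fin_cases i <;> fin_cases k <;>
      simp only [Fin.zero_eta, Fin.mk_one, n00, n10, K00, K01, K10, K11] <;>
      (field_simp; rw [hdet]; ring)
  · intro hh
    have a00 := congrFun (congrFun hh 0) 0
    have a01 := congrFun (congrFun hh 0) 1
    have a10 := congrFun (congrFun hh 1) 0
    have a11 := congrFun (congrFun hh 1) 1
    rw [n00] at a00 a01
    rw [n10] at a10 a11
    ext i k
    fin_cases i <;> fin_cases k <;>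
      simp only [Fin.zero_eta, Fin.mk_one, K00, K01, K10, K11, a00, a01, a10, a11] <;>
      (field_simp; rw [hdet]; ring)

/-- Fourier inversion, pointwise -/
lemma inversion (Φ : M2 q × Y j → ℂ) (g : M2 q) (b : Y j) :
    Φ (g, b) = ((q : ℂ) ^ 4)⁻¹ * ∑ h : M2 q, FT j Φ (h, b) * ZMod.stdAddChar (BB h g) := by
  have hq : ((q : ℂ) ^ 4) ≠ 0 := pow_ne_zero 4 (by exact_mod_cast (Fact.out : q.Prime).ne_zero)
  have h := congrFun (FT_FT Φ) (g, b)
  rw [Pi.smul_apply, smul_eq_mul, FT_apply] at h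
  rw [h, ← mul_assoc, inv_mul_cancel₀ hq, one_mul]

/-- the theta series -/
noncomputable def Th (Φ : M2 q × Y j → ℂ) (p : M2 q × Y j) (t : ℝ) : ℂ :=
  ∑' α : Hur, R P.act j α Φ p * ((Real.exp (-Real.pi * t * nrm α) : ℝ) : ℂ)

variable {P}

lemma Th_summable (hq : Odd q) {t : ℝ} (ht : 0 < t) (Φ : M2 q × Y j → ℂ) (p : M2 q × Y j) :
    Summable (fun α : Hur => R P.act j α Φ p * ((Real.exp (-Real.pi * t * nrm α) : ℝ) : ℂ)) := by
  have hb : ∀ w : M2 q × Y j, ‖Φ w‖ ≤ ∑ u, ‖Φ u‖ := fun w =>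
    Finset.single_le_sum (f := fun u => ‖Φ u‖) (fun _ _ => norm_nonneg _) (Finset.mem_univ w)
  have hs := (exp_sn_summable hq (R := j) ht).mul_left ((Fintype.card (Y j) : ℝ) * ∑ u, ‖Φ u‖)
  refine Summable.of_norm_bounded hs fun α => ?_
  rw [norm_mul, Complex.norm_real, Real.norm_eq_abs, abs_of_pos (Real.exp_pos _), R_apply]
  have h1 : ‖∑ b : Y j, rho j α p.2 b * Φ (P.act.act p.1 α, b)‖ ≤
      (Fintype.card (Y j) : ℝ) * (Real.exp (j * sn α) * ∑ u, ‖Φ u‖) := by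
    refine (norm_sum_le _ _).trans ?_
    rw [← nsmul_eq_mul, ← Finset.card_univ, ← Finset.sum_const]
    refine Finset.sum_le_sum fun b _ => ?_
    rw [norm_mul]
    exact mul_le_mul ((rho_le α _ _).trans (pow_sn_le j α)) (hb _) (norm_nonneg _)
      (Real.exp_pos _).le
  calc _ ≤ ((Fintype.card (Y j) : ℝ) * (Real.exp (j * sn α) * ∑ u, ‖Φ u‖)) *
        Real.exp (-Real.pi * t * nrm α) := mul_le_mul_of_nonneg_right h1 (Real.exp_pos _).le
    _ = _ := by ring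

lemma Th_hasSum (hq : Odd q) {t : ℝ} (ht : 0 < t) (Φ : M2 q × Y j → ℂ) (p : M2 q × Y j) :
    HasSum (fun n : ℕ => 24 * T P.act j n Φ p * ((Real.exp (-Real.pi * t * n) : ℝ) : ℂ))
      (Th P Φ p t) := by
  have h := (Th_summable (P := P) hq ht Φ p).hasSum
  have h2 := h.tsum_fiberwise (fun α : Hur => (nrm α).toNat)
  refine hs_congr (fun n => ?_) h2
  have h3 : ∑' b : ((fun α : Hur => (nrm α).toNat) ⁻¹' {n} : Set Hur), R P.act j (b : Hur) Φ p *
      ((Real.exp (-Real.pi * t * nrm (b : Hur)) : ℝ) : ℂ) = ∑ α ∈ S n, R P.act j α Φ p *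
      ((Real.exp (-Real.pi * t * nrm α) : ℝ) : ℂ) := by
    rw [fiber_eq_S]
    exact Finset.tsum_subtype (S n) (fun α : Hur => R P.act j α Φ p *
      ((Real.exp (-Real.pi * t * nrm α) : ℝ) : ℂ))
  rw [h3, T_apply', ← mul_assoc, Finset.mul_sum, Finset.sum_mul]
  refine Finset.sum_congr rfl fun α hα => ?_
  rw [mem_S.1 hα]
  push_cast
  ring

/-- **Functional equation of the theta series.** -/
theorem Th_fe (hq : Odd q) {Φ : M2 q × Y j → ℂ} (hs : ∀ g, Sy (fun a => Φ (g, a))) {g : M2 q}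
    (hg : g.det ≠ 0) (a : Y j) {t : ℝ} (ht : 0 < t) :
    Th P Φ (g, a) t = (2 / ((q : ℂ) ^ 4 * (t : ℂ) ^ 2)) * (I / (q * t)) ^ j *
      ∑' ε : Hur, R P.act j (pi2 * ε) (FT j Φ) (nu g, a) *
        ((Real.exp (-Real.pi * (2 / (q ^ 2 * t)) * nrm ε) : ℝ) : ℂ) := by
  classical
  have hqp : q.Prime := Fact.out
  have hqR : (0 : ℝ) < q := by exact_mod_cast hqp.pos
  set lh := fun h : M2 q => BB h (g * P.m ⟨1, 0, 0, 0⟩) with hlh
  set li := fun h : M2 q => BB h (g * P.m ⟨0, 1, 0, 0⟩) with hli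
  set lj := fun h : M2 q => BB h (g * P.m ⟨0, 0, 1, 0⟩) with hlj
  set lk := fun h : M2 q => BB h (g * P.m ⟨0, 0, 0, 1⟩) with hlk
  have hS := FT_sy hs
  -- summability
  have sum1 : ∀ h : M2 q, Summable (fun α : Hur => Gp (lh h) (li h) (lj h) (lk h) t α *
      KS.ra j α (fun b => FT j Φ (h, b)) a) := by
    intro h
    unfold KS.ra
    simp_rw [Finset.mul_sum]
    refine summable_sum fun b _ => ?_
    exact ((Gp_rho_summable hq (lh h) (li h) (lj h) (lk h) ht a b).of_norm.mul_right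
      (FT j Φ (h, b))).congr fun α => by ring
  have sum2 : ∀ h : M2 q, Summable (fun α : Hur => Gd (lh h) (li h) (lj h) (lk h) t α *
      KS.ra j α (fun b => FT j Φ (h, b)) a) := by
    intro h
    unfold KS.ra
    simp_rw [Finset.mul_sum]
    refine summable_sum fun b _ => ?_
    exact ((Gd_rho_summable hq (lh h) (li h) (lj h) (lk h) ht a b).of_norm.mul_right
      (FT j Φ (h, b))).congr fun α => by ring
  have s1 : Th P Φ (g, a) t = ((q : ℂ) ^ 4)⁻¹ * ∑ h : M2 q,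
      ∑' α : Hur, Gp (lh h) (li h) (lj h) (lk h) t α * KS.ra j α (fun b => FT j Φ (h, b)) a := by
    rw [← Summable.tsum_finsetSum (fun h _ => sum1 h), ← tsum_mul_left]
    unfold Th
    refine tsum_congr fun α => ?_
    rw [R_apply]
    have e : ∀ b : Y j, rho j α a b * Φ (P.act.act g α, b) = ((q : ℂ) ^ 4)⁻¹ * ∑ h : M2 q,
        rho j α a b * (FT j Φ (h, b) * ZMod.stdAddChar (BB h (g * P.m α))) := by
      intro b
      rw [P.act_act, inversion Φ (g * P.m α) b, Finset.mul_sum, Finset.mul_sum, Finset.mul_sum]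
      refine Finset.sum_congr rfl fun h _ => ?_
      ring
    simp_rw [e]
    rw [← Finset.mul_sum, mul_assoc]
    congr 1
    rw [Finset.sum_comm, Finset.sum_mul]
    refine Finset.sum_congr rfl fun h _ => ?_
    unfold Gp KS.ra
    rw [BB_Lf, Finset.sum_mul, Finset.mul_sum]
    refine Finset.sum_congr rfl fun b _ => ?_
    ring
  have s2 : ∑ h : M2 q, ∑' α : Hur, Gp (lh h) (li h) (lj h) (lk h) t α *
      KS.ra j α (fun b => FT j Φ (h, b)) a =
      (2 / (t : ℂ) ^ 2) * (I / (q * t)) ^ j * ∑' μ : Hur, ∑ h : M2 q,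
        Gd (lh h) (li h) (lj h) (lk h) t μ * KS.ra j μ (fun b => FT j Φ (h, b)) a := by
    rw [Summable.tsum_finsetSum (fun h _ => sum2 h), Finset.mul_sum]
    refine Finset.sum_congr rfl fun h _ => ?_
    exact wpois hq (lh h) (li h) (lj h) (lk h) ht (hS h) a
  -- evaluate the inner sum
  have s3 : ∀ μ : Hur, ∑ h : M2 q, Gd (lh h) (li h) (lj h) (lk h) t μ *
      KS.ra j μ (fun b => FT j Φ (h, b)) a =
      if 2 ∣ nrm μ then R P.act j μ (FT j Φ) (nu g, a) *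
        ((Real.exp (-Real.pi * nrm μ / (q ^ 2 * t)) : ℝ) : ℂ) else 0 := by
    intro μ
    by_cases h : 2 ∣ nrm μ
    · rw [if_pos h, Finset.sum_eq_single (nu g * P.m μ)]
      · unfold Gd
        rw [if_pos ⟨h, (cond_iff P hg _ μ).2 rfl⟩, R_eq_ra]
        ring
      · intro h' _ hw
        unfold Gd
        rw [if_neg, zero_mul]
        rintro ⟨_, hc⟩
        exact hw ((cond_iff P hg h' μ).1 hc)
      · intro h'
        exact absurd (Finset.mem_univ _) h'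
    · rw [if_neg h]
      refine Finset.sum_eq_zero fun w _ => ?_
      unfold Gd
      rw [if_neg, zero_mul]
      rintro ⟨h1, hc⟩
      exact h h1
  -- reindex
  have hpi0 : pi2 ≠ 0 := by
    intro h
    have := congrArg Hur.a h
    simp [pi2] at this
  have hinj : Function.Injective (fun ε : Hur => pi2 * ε) :=
    fun a b h => Pool.Agent.N880.HQ.Hur.mul_left_cancel' hpi0 h
  set F : Hur → ℂ := fun μ => if 2 ∣ nrm μ then R P.act j μ (FT j Φ) (nu g, a) *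
        ((Real.exp (-Real.pi * nrm μ / (q ^ 2 * t)) : ℝ) : ℂ) else 0 with hF
  have hsupp : Function.support F ⊆ Set.range (fun ε : Hur => pi2 * ε) := by
    intro μ hμ
    rw [Function.mem_support, hF] at hμ
    have hc : 2 ∣ nrm μ := by
      by_contra h
      simp only [if_neg h] at hμ
      exact hμ rfl
    obtain ⟨ε, hε⟩ := Pool.Agent.N880.HQ.exists_left_pi2 hc
    exact ⟨ε, hε.symm⟩
  rw [s1, s2]
  simp_rw [s3]
  rw [← hinj.tsum_eq hsupp]
  have e5 : ∀ ε : Hur, F (pi2 * ε) = R P.act j (pi2 * ε) (FT j Φ) (nu g, a) *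
      ((Real.exp (-Real.pi * (2 / (q ^ 2 * t)) * nrm ε) : ℝ) : ℂ) := by
    intro ε
    rw [hF]
    simp only
    have hn : nrm (pi2 * ε) = 2 * nrm ε := by rw [nrm_mul, nrm_pi2]
    rw [if_pos ⟨nrm ε, hn⟩, hn]
    congr 3
    push_cast
    field_simp
  simp_rw [e5]
  rw [← mul_assoc, ← mul_assoc]
  congr 2
  have : (q : ℂ) ≠ 0 := by exact_mod_cast hqp.ne_zero
  have : (t : ℂ) ≠ 0 := by exact_mod_cast ht.ne'
  field_simp

end Pool.Agent.Zk20.KS
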