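import Pool.Agent.Zk20.KS.PoisC
import Pool.Agent.Zk20.KS.Rep
import Pool.Agent.N880.HQ.Theta

/-! # Poisson summation for the Hurwitz order with symmetric tensor weights -/

set_option autoImplicit false

open Complex

namespace Pool.Agent.Zk20.KS

open Pool.Agent.N880.HQ
open Pool.Agent.N880.HQ.Hur

/-- square root of the norm -/
noncomputable def sn (x : Hur) : ℝ := Real.sqrt ((nrm x : ℤ) : ℝ)

lemma nrmR_nonneg (x : Hur) : (0 : ℝ) ≤ ((nrm x : ℤ) : ℝ) := by exact_mod_cast nrm_nonneg x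

lemma sn_nonneg (x : Hur) : 0 ≤ sn x := Real.sqrt_nonneg _

lemma sn_sq (x : Hur) : sn x ^ 2 = ((nrm x : ℤ) : ℝ) := Real.sq_sqrt (nrmR_nonneg x)

lemma sn_mul (x y : Hur) : sn (x * y) = sn x * sn y := by
  unfold sn
  rw [nrm_mul, Int.cast_mul, Real.sqrt_mul (nrmR_nonneg x)]

lemma cm_row (x : Hur) (k : Fin 2) : ‖cm x k 0‖ ^ 2 + ‖cm x k 1‖ ^ 2 = ((nrm x : ℤ) : ℝ) := by
  have h : cm (x * conj x) k k = ((nrm x : ℤ) : ℂ) := by
    rw [Hur.mul_conj, cm_intCast, Matrix.smul_apply, Matrix.one_apply_eq, smul_eq_mul, mul_one]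
  rw [cm_mul, Matrix.mul_apply, Fin.sum_univ_two, cm_conj, cm_conj, Complex.mul_conj,
    Complex.mul_conj, Complex.normSq_eq_norm_sq, Complex.normSq_eq_norm_sq] at h
  exact_mod_cast h

lemma cm_le (x : Hur) (k l : Fin 2) : ‖cm x k l‖ ≤ sn x := by
  apply Real.le_sqrt_of_sq_le
  have h := cm_row x k
  have h0 := sq_nonneg ‖cm x k 0‖
  have h1 := sq_nonneg ‖cm x k 1‖
  fin_cases l
  · simp only [Fin.zero_eta]
    linarith
  · simp only [Fin.mk_one]
    linarith

lemma rho_le {j : ℕ} (x : Hur) (a b : Y j) : ‖rho j x a b‖ ≤ sn x ^ j := by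
  unfold rho
  rw [norm_prod]
  calc ∏ i, ‖cm x (a i) (b i)‖ ≤ ∏ _i : Fin j, sn x :=
        Finset.prod_le_prod (fun _ _ => norm_nonneg _) fun i _ => cm_le x _ _
    _ = sn x ^ j := by simp

variable {q : ℕ} [Fact q.Prime]

lemma exp_sn_bound {t R : ℝ} (ht : 0 < t) (x : Hur) :
    Real.exp (-Real.pi * t * nrm x) * Real.exp (R * sn x) ≤
      Real.exp (R ^ 2 / (2 * Real.pi * t)) * Real.exp (-Real.pi * (t / 2) * nrm x) := by
  rw [← Real.exp_add, ← Real.exp_add]
  apply Real.exp_le_exp.2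
  have hp : 0 < Real.pi * t := mul_pos Real.pi_pos ht
  rw [← sn_sq]
  have h : R * sn x ≤ R ^ 2 / (2 * Real.pi * t) + Real.pi * t / 2 * sn x ^ 2 := by
    have h1 : 0 ≤ (R - Real.pi * t * sn x) ^ 2 / (2 * (Real.pi * t)) := by positivity
    have h2 : (R - Real.pi * t * sn x) ^ 2 / (2 * (Real.pi * t)) =
        R ^ 2 / (2 * Real.pi * t) + Real.pi * t / 2 * sn x ^ 2 - R * sn x := by
      field_simp
      ring
    linarith
  nlinarith

lemma exp_sn_summable (hq : Odd q) {t R : ℝ} (ht : 0 < t) :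
    Summable (fun x : Hur => Real.exp (-Real.pi * t * nrm x) * Real.exp (R * sn x)) :=
  Summable.of_nonneg_of_le (fun x => by positivity) (fun x => exp_sn_bound ht x)
    ((exp_summable hq (by positivity : 0 < t / 2)).mul_left _)

lemma Gp_norm (lh li lj lk : ZMod q) (t : ℝ) (x : Hur) : ‖Gp lh li lj lk t x‖ =
    Real.exp (-Real.pi * t * nrm x) := by
  unfold Gp
  rw [norm_mul, Complex.norm_real, Real.norm_eq_abs, abs_of_pos (Real.exp_pos _),
    AddChar.norm_apply, one_mul]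

lemma Gd_norm (lh li lj lk : ZMod q) {t : ℝ} (ht : 0 < t) (x : Hur) : ‖Gd lh li lj lk t x‖ ≤
    Real.exp (-Real.pi * (1 / (q ^ 2 * t)) * nrm x) := by
  unfold Gd
  split_ifs
  · rw [Complex.norm_real, Real.norm_eq_abs, abs_of_pos (Real.exp_pos _)]
    apply Real.exp_le_exp.2
    apply le_of_eq
    ring
  · rw [norm_zero]; exact (Real.exp_pos _).le

/-- the rows -/
noncomputable def row (s : ℂ) (k : Fin 2) (x : Hur) : ℂ := cm x k 0 + cm x k 1 * s

lemma row_le (s : ℂ) (k : Fin 2) (x : Hur) : ‖row s k x‖ ≤ (1 + ‖s‖) * sn x := by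
  unfold row
  refine (norm_add_le _ _).trans ?_
  rw [norm_mul]
  have h1 := cm_le x k 0
  have h2 := mul_le_mul_of_nonneg_right (cm_le x k 1) (norm_nonneg s)
  linarith

/-- the isotropic linear form -/
noncomputable def lv (s e0 e1 : ℂ) : Fin 4 → ℂ :=
  ![e0 + s * e1, s * e0 - e1, I * (e0 - s * e1), -I * (s * e0 + e1)]

lemma lv_iso (s e0 e1 : ℂ) : lv s e0 e1 0 ^ 2 + lv s e0 e1 1 ^ 2 + lv s e0 e1 2 ^ 2 +
    lv s e0 e1 3 ^ 2 = 0 := by
  simp only [lv, Matrix.cons_val_zero, Matrix.cons_val_one, Matrix.cons_val]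
  linear_combination ((e0 - s * e1) ^ 2 + (s * e0 + e1) ^ 2) * I_sq

lemma ell_lv (s e0 e1 : ℂ) (x : Hur) : ell (lv s e0 e1) x = e0 * row s 0 x + e1 * row s 1 x := by
  simp only [ell, lv, Matrix.cons_val_zero, Matrix.cons_val_one, Matrix.cons_val, row, cm, mat,
    Matrix.of_apply, Matrix.cons_val', Matrix.cons_val_fin_one]
  ring

lemma SS2_of {κ : Type*} {u x y : κ → ℂ} {w : κ → ℝ} {v : κ → ℝ} {B : ℝ} (hB : 0 ≤ B)
    (hu : ∀ i, ‖u i‖ ≤ w i) (hx : ∀ i, ‖x i‖ ≤ B * v i) (hy : ∀ i, ‖y i‖ ≤ B * v i)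
    (h : ∀ R : ℝ, Summable (fun i => w i * Real.exp (R * v i))) : SS2 u x y := by
  intro R hR
  refine Summable.of_nonneg_of_le (fun i => by positivity) (fun i => ?_) (h (R * (2 * B)))
  refine mul_le_mul (hu i) (Real.exp_le_exp.2 ?_) (Real.exp_pos _).le ((norm_nonneg _).trans (hu i))
  have := hx i
  have := hy i
  have h3 : ‖x i‖ + ‖y i‖ ≤ 2 * B * v i := by linarith
  calc R * (‖x i‖ + ‖y i‖) ≤ R * (2 * B * v i) := mul_le_mul_of_nonneg_left h3 hR
    _ = _ := by ring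

/-- Poisson summation with the weight `r_0^m r_1^n` -/
theorem pois_rows (hq : Odd q) (lh li lj lk : ZMod q) {t : ℝ} (ht : 0 < t) (s : ℂ) (m n : ℕ) :
    ∑' x : Hur, Gp lh li lj lk t x * row s 0 x ^ m * row s 1 x ^ n =
      (2 / (t : ℂ) ^ 2) * (I / (q * t)) ^ (m + n) *
        ∑' μ : Hur, Gd lh li lj lk t μ * row s 0 μ ^ m * row s 1 μ ^ n := by
  have hq0 : (0 : ℝ) < q := by exact_mod_cast (Fact.out : q.Prime).pos
  have hs : (0 : ℝ) ≤ 1 + ‖s‖ := by positivity
  have h1 : SS2 (fun x : Hur => Gp lh li lj lk t x) (row s 0) (row s 1) :=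
    SS2_of hs (fun x => (Gp_norm lh li lj lk t x).le) (fun x => row_le s 0 x)
      (fun x => row_le s 1 x) (fun R => exp_sn_summable hq ht)
  set c : ℂ := I / (q * t) with hc
  have hcn : (0 : ℝ) ≤ ‖c‖ := norm_nonneg _
  have h3 : SS2 (fun μ : Hur => (2 / (t : ℂ) ^ 2) * Gd lh li lj lk t μ) (fun μ => c * row s 0 μ)
      (fun μ => c * row s 1 μ) := by
    refine SS2_of (B := ‖c‖ * (1 + ‖s‖)) (w := fun μ => ‖2 / (t : ℂ) ^ 2‖ *
      Real.exp (-Real.pi * (1 / (q ^ 2 * t)) * nrm μ)) (v := sn) (by positivity)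
      (fun μ => ?_) (fun μ => ?_) (fun μ => ?_) (fun R => ?_)
    · rw [norm_mul]
      exact mul_le_mul_of_nonneg_left (Gd_norm lh li lj lk ht μ) (norm_nonneg _)
    · rw [norm_mul, mul_assoc]
      exact mul_le_mul_of_nonneg_left (row_le s 0 μ) hcn
    · rw [norm_mul, mul_assoc]
      exact mul_le_mul_of_nonneg_left (row_le s 1 μ) hcn
    · have := (exp_sn_summable hq (R := R) (by positivity : 0 < 1 / ((q : ℝ) ^ 2 * t))).mul_left
        ‖2 / (t : ℂ) ^ 2‖
      exact this.congr fun μ => by ring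
  have h4 := moments2 h1 h3 (fun e0 e1 => by
    have := hpoisC hq lh li lj lk ht (lv s e0 e1) (lv_iso s e0 e1)
    simp_rw [ell_lv] at this
    rw [this, ← tsum_mul_left]
    refine tsum_congr fun μ => ?_
    rw [mul_assoc]
    congr 3
    ring) m n
  rw [h4, ← tsum_mul_left]
  refine tsum_congr fun μ => ?_
  rw [mul_pow, mul_pow, pow_add]
  ring

/-- `ρ(x)` applied to a tensor -/
noncomputable def ra (j : ℕ) (x : Hur) (ξ : Y j → ℂ) (a : Y j) : ℂ := ∑ b : Y j, rho j x a b * ξ b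

variable {j : ℕ}

lemma ra_tp (x : Hur) (s : ℂ) (a : Y j) : ra j x (tp s) a =
    row s 0 x ^ (j - cnt a) * row s 1 x ^ cnt a := by
  unfold ra
  rw [rho_tp]
  exact prod_cnt (fun k => row s k x) a

lemma pow_sn_le (j : ℕ) (x : Hur) : sn x ^ j ≤ Real.exp (j * sn x) := by
  have h1 : sn x ≤ Real.exp (sn x) := by
    have := Real.add_one_le_exp (sn x)
    linarith
  calc sn x ^ j ≤ Real.exp (sn x) ^ j := pow_le_pow_left₀ (sn_nonneg x) h1 j
    _ = _ := by rw [← Real.exp_nat_mul]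

lemma Gp_rho_summable (hq : Odd q) (lh li lj lk : ZMod q) {t : ℝ} (ht : 0 < t) (a b : Y j) :
    Summable (fun x : Hur => ‖Gp lh li lj lk t x * rho j x a b‖) := by
  refine Summable.of_nonneg_of_le (fun _ => norm_nonneg _) (fun x => ?_)
    (exp_sn_summable hq (R := j) ht)
  rw [norm_mul, Gp_norm]
  exact mul_le_mul_of_nonneg_left ((rho_le x a b).trans (pow_sn_le j x)) (Real.exp_pos _).le

lemma Gd_rho_summable (hq : Odd q) (lh li lj lk : ZMod q) {t : ℝ} (ht : 0 < t) (a b : Y j) :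
    Summable (fun x : Hur => ‖Gd lh li lj lk t x * rho j x a b‖) := by
  have hq0 : (0 : ℝ) < q := by exact_mod_cast (Fact.out : q.Prime).pos
  refine Summable.of_nonneg_of_le (fun _ => norm_nonneg _) (fun x => ?_)
    (exp_sn_summable hq (R := j) (by positivity : 0 < 1 / ((q : ℝ) ^ 2 * t)))
  rw [norm_mul]
  exact mul_le_mul (Gd_norm lh li lj lk ht x) ((rho_le x a b).trans (pow_sn_le j x))
    (norm_nonneg _) (Real.exp_pos _).le

/-- **Poisson summation with symmetric tensors.** -/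
theorem wpois (hq : Odd q) (lh li lj lk : ZMod q) {t : ℝ} (ht : 0 < t) {ξ : Y j → ℂ} (hξ : Sy ξ)
    (a : Y j) :
    ∑' x : Hur, Gp lh li lj lk t x * ra j x ξ a =
      (2 / (t : ℂ) ^ 2) * (I / (q * t)) ^ j * ∑' μ : Hur, Gd lh li lj lk t μ * ra j μ ξ a := by
  set A : Y j → ℂ := fun b => ∑' x : Hur, Gp lh li lj lk t x * rho j x a b with hA
  set B : Y j → ℂ := fun b => ∑' x : Hur, Gd lh li lj lk t x * rho j x a b with hB
  set K : ℂ := (2 / (t : ℂ) ^ 2) * (I / (q * t)) ^ j with hK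
  have e1 : ∀ η : Y j → ℂ, ∑' x : Hur, Gp lh li lj lk t x * ra j x η a = ∑ b, A b * η b := by
    intro η
    have h : ∀ x : Hur, Gp lh li lj lk t x * ra j x η a =
        ∑ b, Gp lh li lj lk t x * rho j x a b * η b := by
      intro x
      unfold ra
      rw [Finset.mul_sum]
      exact Finset.sum_congr rfl fun b _ => by ring
    simp_rw [h]
    rw [Summable.tsum_finsetSum fun b _ =>
      ((Gp_rho_summable hq lh li lj lk ht a b).of_norm.mul_right (η b))]
    exact Finset.sum_congr rfl fun b _ => by rw [tsum_mul_right]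
  have e2 : ∀ η : Y j → ℂ, ∑' x : Hur, Gd lh li lj lk t x * ra j x η a = ∑ b, B b * η b := by
    intro η
    have h : ∀ x : Hur, Gd lh li lj lk t x * ra j x η a =
        ∑ b, Gd lh li lj lk t x * rho j x a b * η b := by
      intro x
      unfold ra
      rw [Finset.mul_sum]
      exact Finset.sum_congr rfl fun b _ => by ring
    simp_rw [h]
    rw [Summable.tsum_finsetSum fun b _ =>
      ((Gd_rho_summable hq lh li lj lk ht a b).of_norm.mul_right (η b))]
    exact Finset.sum_congr rfl fun b _ => by rw [tsum_mul_right]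
  set L : (Y j → ℂ) →ₗ[ℂ] ℂ := ∑ b : Y j, (A b - K * B b) • (LinearMap.proj b :
    (Y j → ℂ) →ₗ[ℂ] ℂ) with hL
  have hLa : ∀ η : Y j → ℂ, L η = ∑ b, A b * η b - K * ∑ b, B b * η b := by
    intro η
    rw [hL, LinearMap.sum_apply, Finset.mul_sum, ← Finset.sum_sub_distrib]
    refine Finset.sum_congr rfl fun b _ => ?_
    rw [LinearMap.smul_apply, LinearMap.proj_apply, smul_eq_mul]
    ring
  have h0 : L ξ = 0 := by
    refine Sy.ext_tp L (fun s => ?_) hξ
    rw [hLa, ← e1, ← e2]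
    simp_rw [ra_tp]
    have h := pois_rows hq lh li lj lk ht s (j - cnt a) (cnt a)
    rw [Nat.sub_add_cancel (cnt_le a)] at h
    simp_rw [mul_assoc] at h ⊢
    rw [h]
    simp only [hK]
    ring
  rw [e1, e2]
  rw [hLa] at h0
  exact sub_eq_zero.1 h0

end Pool.Agent.Zk20.KS
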